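import Pool.Agent.H21.L.R_seed8.TH270.MS.GrowthLeft
import Pool.Agent.H21.L.R_seed8.TH942.RZ.Growth
import Pool.Agent.H21.L.R_seed8.TH942.RZ.PSum

/-!
# Polynomial growth of the incomplete `L`-series of an elliptic curve across the central line
-/

set_option autoImplicit false

open Filter Topology Set Complex
open CongruenceSubgroup Pool.Agent.TH941
open scoped MatrixGroups
open Pool.Agent.W165.RS (ac ac_zero)
open Pool.Agent.W263.BSD (IsLSeries GoodPrime pointCount good_of_large)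
open Pool.Agent.TH942.RZ Pool.Agent.TH942.RZ.Growth

namespace Pool.Agent.TH270.MS.EQ

theorem norm_pz' {p : ℕ} (hp : p.Prime) (hp3 : 3 ≤ p) {z : ℂ} (hz : 7 / 8 < z.re) :
    ‖(p : ℂ) ^ (-z)‖ ≤ 2 / 5 := by
  have h3 : (3 : ℝ) ≤ p := by exact_mod_cast hp3
  rw [Complex.norm_natCast_cpow_of_pos hp.pos, Complex.neg_re]
  have h1 : (p : ℝ) ^ (-z.re) ≤ (p : ℝ) ^ (-(7 / 8 : ℝ)) :=
    Real.rpow_le_rpow_of_exponent_le (by linarith) (by linarith)
  have h2 : (p : ℝ) ^ (-(7 / 8 : ℝ)) ≤ (3 : ℝ) ^ (-(7 / 8 : ℝ)) :=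
    Real.rpow_le_rpow_of_nonpos (by norm_num) h3 (by norm_num)
  have h4 : (3 : ℝ) ^ (-(7 / 8 : ℝ)) ≤ 2 / 5 := by
    refine le_of_pow_le_pow_left₀ (n := 8) (by norm_num) (by norm_num) ?_
    rw [← Real.rpow_natCast, ← Real.rpow_mul (by norm_num)]
    norm_num
  linarith

theorem norm_pz2' {p : ℕ} (hp : p.Prime) (hp3 : 3 ≤ p) {z : ℂ} (hz : 7 / 8 < z.re) :
    ‖(p : ℂ) ^ (1 - 2 * z)‖ ≤ 9 / 20 := by
  have h3 : (3 : ℝ) ≤ p := by exact_mod_cast hp3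
  have e : (1 - 2 * z).re = 1 - 2 * z.re := by simp
  rw [Complex.norm_natCast_cpow_of_pos hp.pos, e]
  have h1 : (p : ℝ) ^ (1 - 2 * z.re) ≤ (p : ℝ) ^ (-(3 / 4 : ℝ)) :=
    Real.rpow_le_rpow_of_exponent_le (by linarith) (by linarith)
  have h2 : (p : ℝ) ^ (-(3 / 4 : ℝ)) ≤ (3 : ℝ) ^ (-(3 / 4 : ℝ)) :=
    Real.rpow_le_rpow_of_nonpos (by norm_num) h3 (by norm_num)
  have h4 : (3 : ℝ) ^ (-(3 / 4 : ℝ)) ≤ 9 / 20 := by
    refine le_of_pow_le_pow_left₀ (n := 4) (by norm_num) (by norm_num) ?_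
    rw [← Real.rpow_natCast, ← Real.rpow_mul (by norm_num)]
    norm_num
  linarith

theorem Df_ge' {a b : ℤ} {p : ℕ} (hp : p.Prime) (hp3 : 3 ≤ p)
    (h : ‖(p : ℂ) - (pointCount a b p : ℂ)‖ ≤ 1) {z : ℂ} (hz : 7 / 8 < z.re) :
    1 / 10 ≤ ‖Df a b p z‖ := by
  have h1 := norm_pz' hp hp3 hz
  have h2 := norm_pz2' hp hp3 hz
  have h3 : ‖((p : ℂ) - (pointCount a b p : ℂ)) * (p : ℂ) ^ (-z)‖ ≤ 1 * (2 / 5) := by
    rw [norm_mul]
    exact mul_le_mul h h1 (norm_nonneg _) zero_le_one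
  have h4 : (1 : ℂ) = Df a b p z + (((p : ℂ) - (pointCount a b p : ℂ)) * (p : ℂ) ^ (-z) -
      (p : ℂ) ^ (1 - 2 * z)) := by
    unfold Df
    ring
  have h5 : (1 : ℝ) ≤ ‖Df a b p z‖ + (‖((p : ℂ) - (pointCount a b p : ℂ)) * (p : ℂ) ^ (-z)‖ +
      ‖(p : ℂ) ^ (1 - 2 * z)‖) := by
    calc (1 : ℝ) = ‖(1 : ℂ)‖ := by simp
      _ = ‖Df a b p z + (((p : ℂ) - (pointCount a b p : ℂ)) * (p : ℂ) ^ (-z) -
      (p : ℂ) ^ (1 - 2 * z))‖ := by rw [← h4]
      _ ≤ _ := (norm_add_le _ _).trans (by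
        have := norm_sub_le (((p : ℂ) - (pointCount a b p : ℂ)) * (p : ℂ) ^ (-z))
          ((p : ℂ) ^ (1 - 2 * z))
        linarith)
  linarith

theorem Ef_le' {c : ℕ → ℂ} {N p : ℕ} (hp : p.Prime) {z : ℂ} (hz : 7 / 8 < z.re) :
    ‖Ef c N p z‖ ≤ 2 + ‖c p‖ := by
  have hp1 : (1 : ℝ) ≤ p := by exact_mod_cast hp.one_le
  have h1 : ‖(p : ℂ) ^ (-z)‖ ≤ 1 := by
    rw [Complex.norm_natCast_cpow_of_pos hp.pos, Complex.neg_re]
    exact Real.rpow_le_one_of_one_le_of_nonpos hp1 (by linarith)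
  have h2 : ‖(p : ℂ) ^ (1 - 2 * z)‖ ≤ 1 := by
    have e : (1 - 2 * z).re = 1 - 2 * z.re := by simp
    rw [Complex.norm_natCast_cpow_of_pos hp.pos, e]
    exact Real.rpow_le_one_of_one_le_of_nonpos hp1 (by linarith)
  unfold Ef
  refine (norm_add_le _ _).trans ?_
  have h3 := norm_sub_le (1 : ℂ) (c p * (p : ℂ) ^ (-z))
  rw [norm_mul, norm_one] at h3
  have h4 : ‖c p‖ * ‖(p : ℂ) ^ (-z)‖ ≤ ‖c p‖ * 1 :=
    mul_le_mul_of_nonneg_left h1 (norm_nonneg _)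
  have h5 : ‖(if p ∣ N then 0 else (p : ℂ) ^ (1 - 2 * z) : ℂ)‖ ≤ 1 := by
    split_ifs
    · rw [norm_zero]; exact zero_le_one
    · exact h2
  linarith

/-- **The growth of the incomplete `L`-series to the left of the centre.** -/
theorem growth_F {a b : ℤ} {F : ℂ → ℂ} (hΔ : 4 * a ^ 3 + 27 * b ^ 2 ≠ 0) (hF : IsLSeries a b F)
    {N : ℕ} [NeZero N] {f : CuspForm (Gamma0 N : Subgroup (GL (Fin 2) ℝ)) 2} (hf : Hecke f)
    (hb : Belongs a b f) :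
    ∃ (C : ℝ) (κ : ℕ), ∀ z : ℂ, 1 - 1 / 8 < z.re → ‖F z‖ ≤ C * (1 + ‖z‖) ^ κ := by
  classical
  obtain ⟨C, hC, hS⟩ := partial_sum_bound f
  obtain ⟨G, hGd, hGL, C₁, κ, hG⟩ := growth_left f
  have hS' : ∀ M : ℕ, ‖∑ k ∈ Finset.Icc 1 M, ac f k‖ ≤
      C * ((M : ℝ) + 1) * (1 + Real.log ((M : ℝ) + 1)) := by
    intro M
    have e : ∑ n ∈ Finset.range (M + 1), ac f n = ∑ k ∈ Finset.Icc 1 M, ac f k := by
      have : Finset.range (M + 1) = insert 0 (Finset.Icc 1 M) := by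
        ext x
        simp only [Finset.mem_range, Finset.mem_insert, Finset.mem_Icc]
        omega
      rw [this, Finset.sum_insert (by simp), ac_zero, zero_add]
    rw [← e]
    exact hS M
  obtain ⟨D, hD⟩ := good_of_large hΔ
  have hN0 : N ≠ 0 := NeZero.ne N
  obtain ⟨S, hSe⟩ : ∃ S : Finset ℕ, S = (Finset.range (D + N + 1)).filter
      (fun p => p.Prime ∧ (¬ GoodPrime a b p ∨ p ∣ N)) := ⟨_, rfl⟩
  have hSp : ∀ p ∈ S, p.Prime := by
    intro p hp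
    rw [hSe, Finset.mem_filter] at hp
    exact hp.2.1
  have hSn : ∀ p : ℕ, p.Prime → p ∉ S → GoodPrime a b p ∧ ¬ p ∣ N := by
    intro p hp hpS
    rw [hSe, Finset.mem_filter, Finset.mem_range] at hpS
    by_cases hlt : p < D + N + 1
    · by_contra hcon
      apply hpS
      refine ⟨hlt, hp, ?_⟩
      tauto
    · refine ⟨hD p hp (by omega), fun hd => ?_⟩
      have := Nat.le_of_dvd (Nat.pos_of_ne_zero hN0) hd
      omega
  have hSg : ∀ p ∈ S, GoodPrime a b p → 3 ≤ p ∧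
      ‖(p : ℂ) - (pointCount a b p : ℂ)‖ ≤ 1 := by
    intro p hp hg
    rw [hSe, Finset.mem_filter] at hp
    have hdN : p ∣ N := by
      rcases hp.2.2 with h | h
      · exact absurd hg h
      · exact h
    constructor
    · have h2 := hp.2.1.two_le
      rcases Nat.lt_or_ge p 3 with h | h
      · exfalso
        have hp2 : p = 2 := by omega
        apply hg.2
        rw [hp2]
        exact Dvd.intro _ rfl
      · exact h
    · rw [← hb p hg]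
      exact hf.bad p hp.2.1 hdN
  obtain ⟨P1, hP1⟩ : ∃ P1 : ℂ → ℂ, P1 = fun z => ∏ p ∈ S, Ef (ac f) N p z := ⟨_, rfl⟩
  obtain ⟨P2, hP2⟩ : ∃ P2 : ℂ → ℂ, P2 = fun z => ∏ p ∈ S,
    (if GoodPrime a b p then Df a b p z else 1) := ⟨_, rfl⟩
  have hP1d : Differentiable ℂ P1 := by
    rw [hP1]
    intro w
    refine DifferentiableAt.fun_finsetProd fun p hp => ?_
    exact Ef_differentiable _ _ (hSp p hp) w
  have hP2d : Differentiable ℂ P2 := by
    rw [hP2]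
    intro w
    refine DifferentiableAt.fun_finsetProd fun p hp => ?_
    split_ifs
    · exact Df_differentiable _ _ (hSp p hp) w
    · exact differentiableAt_const _
  have hA1 : AnalyticOnNhd ℂ (fun z => F z * P2 z) Set.univ :=
    (hF.1.mul hP2d).differentiableOn.analyticOnNhd isOpen_univ
  have hA2 : AnalyticOnNhd ℂ (fun z => G z * P1 z) Set.univ :=
    (hGd.mul hP1d).differentiableOn.analyticOnNhd isOpen_univ
  have hEq : Set.EqOn (fun z => F z * P2 z) (fun z => G z * P1 z) Set.univ := by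
    refine hA1.eqOn_of_preconnected_of_eventuallyEq hA2 isPreconnected_univ (z₀ := 4)
      (Set.mem_univ _) ?_
    have hV : IsOpen {z : ℂ | 3 < z.re} := isOpen_lt continuous_const Complex.continuous_re
    have h4 : (4 : ℂ) ∈ {z : ℂ | 3 < z.re} := by
      show (3 : ℝ) < (4 : ℂ).re
      norm_num
    filter_upwards [hV.mem_nhds h4] with z hz
    have hz' : 3 < z.re := hz
    have hk := key_identity hF hf hb hz' (lsummable hC hS' hz') S hSp hSn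
    have h5 : G z = LSeries (ac f) z := hGL z hz'
    rw [← h5] at hk
    rw [hP1, hP2]
    exact hk
  have hB1 : ∀ z : ℂ, 7 / 8 < z.re → ‖P1 z‖ ≤ ∏ p ∈ S, (2 + ‖ac f p‖) := by
    intro z hz
    rw [hP1]
    simp only
    rw [norm_prod]
    exact Finset.prod_le_prod (fun p _ => norm_nonneg _) fun p hp => Ef_le' (hSp p hp) hz
  have hB2 : ∀ z : ℂ, 7 / 8 < z.re → (1 / 10 : ℝ) ^ S.card ≤ ‖P2 z‖ := by
    intro z hz
    rw [hP2]
    simp only
    rw [norm_prod, ← Finset.prod_const]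
    refine Finset.prod_le_prod (fun p _ => by norm_num) fun p hp => ?_
    split_ifs with hg
    · obtain ⟨h3, h1⟩ := hSg p hp hg
      exact Df_ge' (hSp p hp) h3 h1 hz
    · rw [norm_one]; norm_num
  refine ⟨(10 : ℝ) ^ S.card * (|C₁| * ∏ p ∈ S, (2 + ‖ac f p‖)), κ, fun z hz => ?_⟩
  have hz' : 7 / 8 < z.re := by
    norm_num at hz
    linarith
  have h1 : F z * P2 z = G z * P1 z := hEq (Set.mem_univ z)
  have h2 : ‖F z‖ * ‖P2 z‖ = ‖G z‖ * ‖P1 z‖ := by rw [← norm_mul, h1, norm_mul]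
  have h3 := hB2 z hz'
  have h4 := hG z (by linarith)
  have h5 := hB1 z hz'
  have h6 : ‖F z‖ * (1 / 10 : ℝ) ^ S.card ≤ |C₁| * (1 + ‖z‖) ^ κ * ∏ p ∈ S, (2 + ‖ac f p‖) := by
    calc ‖F z‖ * (1 / 10 : ℝ) ^ S.card ≤ ‖F z‖ * ‖P2 z‖ :=
          mul_le_mul_of_nonneg_left h3 (norm_nonneg _)
      _ = ‖G z‖ * ‖P1 z‖ := h2
      _ ≤ (|C₁| * (1 + ‖z‖) ^ κ) * ∏ p ∈ S, (2 + ‖ac f p‖) := by
          refine mul_le_mul (h4.trans ?_) h5 (norm_nonneg _) (by positivity)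
          exact mul_le_mul_of_nonneg_right (le_abs_self C₁) (by positivity)
  have h7 : (10 : ℝ) ^ S.card * (1 / 10 : ℝ) ^ S.card = 1 := by
    rw [← mul_pow]
    norm_num
  calc ‖F z‖ = (10 : ℝ) ^ S.card * (‖F z‖ * (1 / 10 : ℝ) ^ S.card) := by
        rw [mul_left_comm, h7, mul_one]
    _ ≤ (10 : ℝ) ^ S.card * (|C₁| * (1 + ‖z‖) ^ κ * ∏ p ∈ S, (2 + ‖ac f p‖)) := by gcongr
    _ = _ := by ring

end Pool.Agent.TH270.MS.EQ
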