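import Pool.Agent.H21.L.R_seed8.TH270.MS.Fwd

/-!
# The mean square criterion for a general Dirichlet series
-/

set_option autoImplicit false

open MeasureTheory Filter Topology Set
open scoped ENNReal
open Pool.Agent.TH942.LS (Dat)
open Pool.Agent.TH942.SL
open Pool.Agent.W263.BSD (LInt lap)

namespace Pool.Agent.TH270.MS

variable {lam c : ℕ → ℝ} {δ σ : ℝ}

/-- a Dirichlet series and a continuation across the line `Re s = 0`, of polynomial growth, of
`s^k` times the exponential of its negative -/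
structure Cn (lam c : ℕ → ℝ) (δ σ : ℝ) (G₀ g : ℂ → ℂ) (k p κ : ℕ) (η C : ℝ) : Prop where
  D : Dat lam c δ σ
  hη : 0 < η
  hG : ∀ s : ℂ, -η < s.re → DifferentiableAt ℂ G₀ s
  hgrow : ∀ s : ℂ, -η < s.re → ‖G₀ s‖ ≤ C * (1 + ‖s‖) ^ κ
  hexp : ∀ s : ℂ, σ < s.re → s ^ k * Complex.exp (-DD lam c s) = G₀ s
  hg : AnalyticAt ℂ g 0
  hg0 : g 0 ≠ 0
  near : ∀ᶠ s in 𝓝 (0 : ℂ), G₀ s = s ^ p * g s

variable {G₀ g : ℂ → ℂ} {k p κ : ℕ} {η C : ℝ}

lemma cmp (D : Dat lam c δ σ) (r q : ℝ) {u : ℝ} (hu : 1 ≤ u) :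
    |Er lam c r (q - r * Real.eulerMascheroniConstant) u - (Sh lam c u - r * Real.log u - q)| ≤
      2 * |r| / u := by
  have hu0 : 0 < u := by linarith
  unfold Er
  rw [indicator_of_mem (show u ∈ Ioi (0 : ℝ) from hu0)]
  have h1 : Sh lam c u - r * Sh lamh ch u - (q - r * Real.eulerMascheroniConstant) -
      (Sh lam c u - r * Real.log u - q) =
      -(r * (Sh lamh ch u - Real.log u - Real.eulerMascheroniConstant)) := by ring
  rw [h1, abs_neg, abs_mul]
  calc |r| * _ ≤ |r| * (2 / u) := mul_le_mul_of_nonneg_left (harm_near hu) (abs_nonneg r)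
    _ = _ := by ring

lemma ferr_meas (D : Dat lam c δ σ) (r q : ℝ) :
    Measurable fun u : ℝ => Sh lam c u - r * Real.log u - q :=
  ((sh_meas D).sub (Real.measurable_log.const_mul r)).sub_const q

lemma ferr_loc (D : Dat lam c δ σ) (r q : ℝ) {a b : ℝ} (ha : 1 ≤ a) :
    IntegrableOn (fun u : ℝ => Sh lam c u - r * Real.log u - q) (Ioc a b) := by
  set S₀ : ℝ := ∑' n, |c n| * Real.exp (-(σ * lam n)) with hS₀
  have h0 : 0 ≤ S₀ := tsum_nonneg fun n => by positivity
  have h1 : IntegrableOn (fun _ : ℝ => Real.exp (σ * |b|) * S₀ + |r| * |b| + |q|) (Ioc a b) :=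
    integrableOn_const (by simp)
  refine h1.mono' (ferr_meas D r q).aestronglyMeasurable ?_
  filter_upwards [ae_restrict_mem measurableSet_Ioc] with u hu
  have hu1 : 1 < u := lt_of_le_of_lt ha hu.1
  have hub : u ≤ |b| := hu.2.trans (le_abs_self b)
  have e1 := sh_le D u
  have e2 : |Real.log u| ≤ |b| := by
    rw [abs_of_nonneg (Real.log_nonneg hu1.le)]
    have := Real.log_le_sub_one_of_pos (by linarith : 0 < u)
    linarith
  have e3 : Real.exp (σ * u) ≤ Real.exp (σ * |b|) :=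
    Real.exp_le_exp.2 (mul_le_mul_of_nonneg_left hub D.σ0.le)
  rw [Real.norm_eq_abs]
  refine (abs_sub _ _).trans ?_
  gcongr
  refine (abs_sub _ _).trans ?_
  rw [abs_mul]
  gcongr
  exact e1.trans (mul_le_mul_of_nonneg_right e3 h0)

lemma er_loc (D : Dat lam c δ σ) (r q a b : ℝ) : IntegrableOn (Er lam c r q) (Ioc a b) := by
  obtain ⟨C, hC, hb⟩ := er_le D r q
  have h1 : IntegrableOn (fun u : ℝ => C * Real.exp (σ * u)) (Ioc a b) :=
    (Continuous.integrableOn_Icc (by fun_prop)).mono_set Ioc_subset_Icc_self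
  exact h1.mono' (er_meas D r q).aestronglyMeasurable (Eventually.of_forall fun u => hb u)

/-- comparison of the means -/
lemma mean_cmp (D : Dat lam c δ σ) (r q : ℝ) {T : ℝ} (hT : 1 ≤ T) :
    ∫ u in (1 : ℝ)..T, |Er lam c r (q - r * Real.eulerMascheroniConstant) u| ≤
      (∫ u in (1 : ℝ)..T, |Sh lam c u - r * Real.log u - q|) + 2 * |r| * Real.log T := by
  have i1 : IntervalIntegrable (fun u => |Er lam c r (q - r * Real.eulerMascheroniConstant) u|)
      volume 1 T := by
    rw [intervalIntegrable_iff_integrableOn_Ioc_of_le hT]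
    exact (er_loc D r _ 1 T).abs
  have i2 : IntervalIntegrable (fun u => |Sh lam c u - r * Real.log u - q|) volume 1 T := by
    rw [intervalIntegrable_iff_integrableOn_Ioc_of_le hT]
    exact (ferr_loc D r q le_rfl).abs
  have i3 : IntervalIntegrable (fun u : ℝ => 2 * |r| * (1 / u)) volume 1 T := by
    refine ContinuousOn.intervalIntegrable_of_Icc hT ?_
    refine continuousOn_const.mul (continuousOn_const.div continuousOn_id fun u hu => ?_)
    have : (1 : ℝ) ≤ u := hu.1
    linarith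
  have e1 : ∫ u in (1 : ℝ)..T, 2 * |r| * (1 / u) = 2 * |r| * Real.log T := by
    rw [intervalIntegral.integral_const_mul, integral_one_div_of_pos one_pos (by linarith), div_one]
  rw [← e1, ← intervalIntegral.integral_add i2 i3]
  refine intervalIntegral.integral_mono_on hT i1 (i2.add i3) fun u hu => ?_
  have e2 := cmp D r q hu.1
  have e3 := abs_sub_abs_le_abs_sub (Er lam c r (q - r * Real.eulerMascheroniConstant) u)
    (Sh lam c u - r * Real.log u - q)
  have e4 : 2 * |r| * (1 / u) = 2 * |r| / u := by ring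
  rw [e4]
  linarith

lemma log_small {ε B : ℝ} (hε : 0 < ε) : ∀ᶠ T : ℝ in atTop, B * Real.log T ≤ ε * T := by
  have h1 : Tendsto (fun T : ℝ => B * (Real.log T / T)) atTop (𝓝 (B * 0)) := by
    refine Tendsto.const_mul _ ?_
    have := Real.isLittleO_log_id_atTop.tendsto_div_nhds_zero
    simpa using this
  rw [mul_zero] at h1
  filter_upwards [h1.eventually (gt_mem_nhds hε), eventually_gt_atTop 0] with T h2 h3
  have : B * (Real.log T / T) * T < ε * T := mul_lt_mul_of_pos_right h2 h3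
  calc B * Real.log T = B * (Real.log T / T) * T := by field_simp
    _ ≤ _ := this.le

/-- bounded means -/
theorem Cn.of_bounded (E : Cn lam c δ σ G₀ g k p κ η C) {r B : ℝ}
    (h : ∀ᶠ T : ℝ in atTop, ∫ u in (1 : ℝ)..T, |Sh lam c u - r * Real.log u| ≤ B * T) :
    (∀ s : ℂ, 0 < s.re → G₀ s ≠ 0) ∧ (p : ℝ) = k + r := by
  have D := E.D
  obtain ⟨C₁, hC₁, hb⟩ := er_le D r (0 - r * Real.eulerMascheroniConstant)
  have h1 : ∀ᶠ T : ℝ in atTop,
      ∫ u in (1 : ℝ)..T, |Er lam c r (0 - r * Real.eulerMascheroniConstant) u| ≤ (|B| + 1) * T := by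
    filter_upwards [h, log_small (B := 2 * |r|) one_pos, eventually_ge_atTop 1] with T h1 h2 h3
    have h4 := mean_cmp D r 0 h3
    simp only [sub_zero] at h4
    have h5 : B * T ≤ |B| * T := mul_le_mul_of_nonneg_right (le_abs_self B) (by linarith)
    linarith
  obtain ⟨h2, h3⟩ := mean_lap (er_meas D r _) hb (by positivity : 0 < |B| + 1) h1
  obtain ⟨h4, h5, -⟩ := conv D (fun s hs => E.hG s (by linarith [E.hη])) E.hexp E.hg E.hg0 E.near h2
  exact ⟨h4, h5 _ h3⟩

/-- small means -/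
theorem Cn.of_small (E : Cn lam c δ σ G₀ g k p κ η C) {r q : ℝ}
    (h : Tendsto (fun T : ℝ => (∫ u in (1 : ℝ)..T, |Sh lam c u - r * Real.log u - q|) / T) atTop
      (𝓝 0)) :
    (∀ s : ℂ, 0 < s.re → G₀ s ≠ 0) ∧ (p : ℝ) = k + r ∧
      g 0 = Real.exp (r * Real.eulerMascheroniConstant - q) := by
  have D := E.D
  set c₀ : ℝ := q - r * Real.eulerMascheroniConstant with hc₀
  obtain ⟨C₁, hC₁, hb⟩ := er_le D r c₀
  have h1 : ∀ ε : ℝ, 0 < ε → ∀ᶠ T : ℝ in atTop,
      ∫ u in (1 : ℝ)..T, |Er lam c r c₀ u| ≤ ε * T := by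
    intro ε hε
    have h2 : ∀ᶠ T : ℝ in atTop, (∫ u in (1 : ℝ)..T, |Sh lam c u - r * Real.log u - q|) / T <
        ε / 2 := h.eventually (gt_mem_nhds (by linarith))
    filter_upwards [h2, log_small (B := 2 * |r|) (half_pos hε), eventually_ge_atTop 1] with T h1 h2 h3
    have h4 := mean_cmp D r q h3
    rw [div_lt_iff₀ (by linarith)] at h1
    rw [← hc₀] at h4
    linarith
  have h2 : ∀ x : ℝ, 0 < x → LInt (Er lam c r c₀) x :=
    (mean_lap (er_meas D r _) hb one_pos (h1 1 one_pos)).1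
  have h3 : Tendsto (fun x : ℝ => x * lap (Er lam c r c₀) x) (𝓝[>] 0) (𝓝 0) := by
    rw [Metric.tendsto_nhds]
    intro ε hε
    have := (mean_lap (er_meas D r _) hb (by linarith : 0 < ε / 3) (h1 _ (by linarith))).2
    filter_upwards [this] with x hx
    rw [Real.dist_eq, sub_zero]
    linarith
  obtain ⟨h4, -, h5⟩ := conv D (fun s hs => E.hG s (by linarith [E.hη])) E.hexp E.hg E.hg0 E.near h2
  obtain ⟨h6, h7⟩ := h5 h3
  refine ⟨h4, h6, ?_⟩
  rw [h7, hc₀]
  congr 2
  ring

/-- square integrability gives small means -/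
theorem small_of_sq (D : Dat lam c δ σ) {r q : ℝ}
    (h : IntegrableOn (fun T : ℝ => (Sh lam c T - r * Real.log T - q) ^ 2) (Ioi 1)) :
    Tendsto (fun T : ℝ => (∫ u in (1 : ℝ)..T, |Sh lam c u - r * Real.log u - q|) / T) atTop
      (𝓝 0) := by
  set f : ℝ → ℝ := fun u => Sh lam c u - r * Real.log u - q with hf
  set I : ℝ := ∫ u in Ioi (1 : ℝ), f u ^ 2 with hI
  rw [Metric.tendsto_nhds]
  intro ε hε
  have h1 : Tendsto (fun T : ℝ => I / (2 * ε) / T) atTop (𝓝 0) :=
    tendsto_const_nhds.div_atTop tendsto_id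
  filter_upwards [h1.eventually (gt_mem_nhds (half_pos hε)), eventually_ge_atTop 1] with T h2 h3
  have hT0 : 0 < T := by linarith
  have i2 : IntervalIntegrable (fun u => |f u|) volume 1 T := by
    rw [intervalIntegrable_iff_integrableOn_Ioc_of_le h3]
    exact (ferr_loc D r q le_rfl).abs
  have i3 : IntervalIntegrable (fun u => f u ^ 2) volume 1 T := by
    rw [intervalIntegrable_iff_integrableOn_Ioc_of_le h3]
    exact h.mono_set Ioc_subset_Ioi_self
  have e1 : ∫ u in (1 : ℝ)..T, |f u| ≤ ∫ u in (1 : ℝ)..T, (ε / 2 + f u ^ 2 * (1 / (2 * ε))) := by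
    refine intervalIntegral.integral_mono_on h3 i2
      ((intervalIntegrable_const).add (i3.mul_const _)) fun u _ => ?_
    have h4 : 0 ≤ (|f u| - ε) ^ 2 := sq_nonneg _
    have h5 : |f u| ^ 2 = f u ^ 2 := sq_abs _
    have h6 : |f u| * (2 * ε) ≤ (ε / 2 + f u ^ 2 * (1 / (2 * ε))) * (2 * ε) := by
      have : (ε / 2 + f u ^ 2 * (1 / (2 * ε))) * (2 * ε) = ε ^ 2 + f u ^ 2 := by
        field_simp
      rw [this]
      nlinarith
    exact le_of_mul_le_mul_right h6 (by linarith)
  have e2 : ∫ u in (1 : ℝ)..T, (ε / 2 + f u ^ 2 * (1 / (2 * ε))) ≤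
      ε / 2 * T + I / (2 * ε) := by
    rw [intervalIntegral.integral_add intervalIntegrable_const (i3.mul_const _),
      intervalIntegral.integral_const, intervalIntegral.integral_mul_const, smul_eq_mul]
    have h4 : ∫ u in (1 : ℝ)..T, f u ^ 2 ≤ I := by
      rw [intervalIntegral.integral_of_le h3]
      exact setIntegral_mono_set h (Eventually.of_forall fun u => sq_nonneg _)
        Ioc_subset_Ioi_self.eventuallyLE
    have h5 : (∫ u in (1 : ℝ)..T, f u ^ 2) * (1 / (2 * ε)) ≤ I * (1 / (2 * ε)) :=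
      mul_le_mul_of_nonneg_right h4 (by positivity)
    have h6 : I * (1 / (2 * ε)) = I / (2 * ε) := by ring
    nlinarith
  have e0 : 0 ≤ ∫ u in (1 : ℝ)..T, |f u| :=
    intervalIntegral.integral_nonneg h3 fun u _ => abs_nonneg _
  rw [Real.dist_eq, sub_zero, abs_of_nonneg (div_nonneg e0 hT0.le), div_lt_iff₀ hT0]
  rw [div_lt_iff₀ hT0] at h2
  linarith

/-- **The mean square theorem** -/
theorem Cn.sq (E : Cn lam c δ σ G₀ g k p κ η C) (hne : ∀ s : ℂ, 0 < s.re → G₀ s ≠ 0) {r : ℝ}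
    (hr : (p : ℝ) = k + r) :
    ∃ q : ℝ, g 0 = Real.exp (r * Real.eulerMascheroniConstant - q) ∧
      IntegrableOn (fun T : ℝ => (Sh lam c T - r * Real.log T - q) ^ 2) (Ioi 1) := by
  have D := E.D
  obtain ⟨c₀, h1, h2⟩ := fwd D E.hη E.hG E.hgrow E.hexp E.hg E.hg0 E.near hne
  have h3 : (p : ℝ) - k = r := by linarith
  rw [h3] at h2
  set q : ℝ := c₀ + r * Real.eulerMascheroniConstant with hq
  have hc : c₀ = q - r * Real.eulerMascheroniConstant := by rw [hq]; ring
  refine ⟨q, ?_, ?_⟩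
  · rw [h1, hc]
    congr 2
    ring
  · have i1 : Integrable fun u : ℝ => Er lam c r c₀ u ^ 2 := by
      refine ⟨((er_meas D r c₀).pow_const 2).aestronglyMeasurable, ?_⟩
      refine lt_of_le_of_lt (lintegral_mono fun u => ?_) h2
      rw [← ofReal_norm, Real.norm_of_nonneg (sq_nonneg _)]
    have i2 : IntegrableOn (fun u : ℝ => u ^ (-2 : ℝ)) (Ioi 1) :=
      integrableOn_Ioi_rpow_of_lt (by norm_num) one_pos
    have i3 : IntegrableOn (fun u : ℝ => 2 * Er lam c r c₀ u ^ 2 +
        2 * (2 * |r|) ^ 2 * u ^ (-2 : ℝ)) (Ioi 1) :=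
      ((i1.integrableOn).const_mul 2).add (i2.const_mul _)
    refine i3.mono' ((ferr_meas D r q).pow_const 2).aestronglyMeasurable ?_
    filter_upwards [ae_restrict_mem measurableSet_Ioi] with u hu
    have hu1 : (1 : ℝ) < u := hu
    have hu0 : 0 < u := by linarith
    have e1 := cmp D r q hu1.le
    rw [← hc] at e1
    rw [Real.norm_of_nonneg (sq_nonneg _)]
    set f : ℝ := Sh lam c u - r * Real.log u - q
    set e : ℝ := Er lam c r c₀ u
    have e2 : |f| ≤ |e| + 2 * |r| / u := by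
      have := abs_sub_abs_le_abs_sub f e
      rw [abs_sub_comm f e] at this
      linarith
    have e3 : u ^ (-2 : ℝ) = 1 / u ^ 2 := by
      rw [Real.rpow_neg hu0.le, one_div]
      norm_num
    rw [e3]
    have e4 : f ^ 2 ≤ (|e| + 2 * |r| / u) ^ 2 := by
      rw [← sq_abs f]
      exact pow_le_pow_left₀ (abs_nonneg _) e2 2
    have e5 : (|e| + 2 * |r| / u) ^ 2 ≤ 2 * e ^ 2 + 2 * (2 * |r| / u) ^ 2 := by
      rw [← sq_abs e]
      nlinarith [sq_nonneg (|e| - 2 * |r| / u)]
    have e6 : 2 * (2 * |r| / u) ^ 2 = 2 * (2 * |r|) ^ 2 * (1 / u ^ 2) := by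
      rw [div_pow]
      ring
    linarith

/-- **The criterion for the order and the leading coefficient.** -/
theorem Cn.tfae (E : Cn lam c δ σ G₀ g k p κ η C) (r q : ℝ) :
    List.TFAE [
      (∀ s : ℂ, 0 < s.re → G₀ s ≠ 0) ∧ (p : ℝ) = k + r ∧
        g 0 = Real.exp (r * Real.eulerMascheroniConstant - q),
      IntegrableOn (fun T : ℝ => (Sh lam c T - r * Real.log T - q) ^ 2) (Ioi 1),
      Tendsto (fun T : ℝ => (∫ u in (1 : ℝ)..T, |Sh lam c u - r * Real.log u - q|) / T) atTop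
        (𝓝 0)] := by
  tfae_have 1 → 2 := by
    rintro ⟨h1, h2, h3⟩
    obtain ⟨q', h4, h5⟩ := E.sq h1 h2
    rw [h3] at h4
    have h6 : r * Real.eulerMascheroniConstant - q = r * Real.eulerMascheroniConstant - q' :=
      Real.exp_injective (by exact_mod_cast h4)
    have h7 : q = q' := by linarith
    rw [h7]
    exact h5
  tfae_have 2 → 3 := small_of_sq E.D
  tfae_have 3 → 1 := E.of_small
  tfae_finish

/-- **The criterion for the order.** -/
theorem Cn.tfae' (E : Cn lam c δ σ G₀ g k p κ η C) (r : ℝ) :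
    List.TFAE [
      (∀ s : ℂ, 0 < s.re → G₀ s ≠ 0) ∧ (p : ℝ) = k + r,
      ∃ q : ℝ, IntegrableOn (fun T : ℝ => (Sh lam c T - r * Real.log T - q) ^ 2) (Ioi 1),
      ∃ B : ℝ, ∀ᶠ T : ℝ in atTop, ∫ u in (1 : ℝ)..T, |Sh lam c u - r * Real.log u| ≤ B * T] := by
  tfae_have 1 → 2 := by
    rintro ⟨h1, h2⟩
    obtain ⟨q', -, h5⟩ := E.sq h1 h2
    exact ⟨q', h5⟩
  tfae_have 2 → 3 := by
    rintro ⟨q, h⟩
    have h1 := small_of_sq E.D h
    refine ⟨1 + |q|, ?_⟩
    filter_upwards [h1.eventually (gt_mem_nhds one_pos), eventually_ge_atTop 1] with T h2 h3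
    have hT0 : 0 < T := by linarith
    rw [div_lt_iff₀ hT0, one_mul] at h2
    have i1 : IntervalIntegrable (fun u => |Sh lam c u - r * Real.log u|) volume 1 T := by
      rw [intervalIntegrable_iff_integrableOn_Ioc_of_le h3]
      have h4 := (ferr_loc E.D r 0 (b := T) le_rfl).abs
      simp only [sub_zero] at h4
      exact h4
    have i2 : IntervalIntegrable (fun u => |Sh lam c u - r * Real.log u - q|) volume 1 T := by
      rw [intervalIntegrable_iff_integrableOn_Ioc_of_le h3]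
      exact (ferr_loc E.D r q le_rfl).abs
    have e1 : ∫ u in (1 : ℝ)..T, |Sh lam c u - r * Real.log u| ≤
        ∫ u in (1 : ℝ)..T, (|Sh lam c u - r * Real.log u - q| + |q|) := by
      refine intervalIntegral.integral_mono_on h3 i1 (i2.add intervalIntegrable_const) fun u _ => ?_
      have := abs_add_le (Sh lam c u - r * Real.log u - q) q
      simpa using this
    rw [intervalIntegral.integral_add i2 intervalIntegrable_const, intervalIntegral.integral_const,
      smul_eq_mul] at e1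
    have e2 : (T - 1) * |q| ≤ T * |q| := mul_le_mul_of_nonneg_right (by linarith) (abs_nonneg _)
    linarith
  tfae_have 3 → 1 := fun ⟨B, h⟩ => E.of_bounded h
  tfae_finish

end Pool.Agent.TH270.MS
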