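import Pool.Agent.H21.L.R_seed8.TH270.RS.Lim

/-!
# Sharp partial sums of a general Dirichlet series
-/

set_option autoImplicit false

open MeasureTheory Filter Topology Set Complex
open Pool.Agent.TH942.LS (Dat)
open Pool.Agent.TH942.SL

namespace Pool.Agent.TH270.MS

variable {lam c : ℕ → ℝ} {δ σ : ℝ}

/-- the sharp partial sums -/
noncomputable def Sh (lam c : ℕ → ℝ) (T : ℝ) : ℝ := ∑' n, if lam n ≤ T then c n else 0

lemma sh_term (D : Dat lam c δ σ) (T : ℝ) (n : ℕ) :
    ‖(if lam n ≤ T then c n else 0 : ℝ)‖ ≤ Real.exp (σ * T) * (|c n| * Real.exp (-(σ * lam n))) := by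
  split_ifs with h
  · rw [Real.norm_eq_abs]
    have h1 : 1 ≤ Real.exp (σ * T) * Real.exp (-(σ * lam n)) := by
      rw [← Real.exp_add]
      apply Real.one_le_exp
      have := mul_le_mul_of_nonneg_left h D.σ0.le
      linarith
    calc |c n| = |c n| * 1 := (mul_one _).symm
      _ ≤ |c n| * (Real.exp (σ * T) * Real.exp (-(σ * lam n))) :=
          mul_le_mul_of_nonneg_left h1 (abs_nonneg _)
      _ = _ := by ring
  · rw [norm_zero]
    positivity

lemma sh_summable (D : Dat lam c δ σ) (T : ℝ) :
    Summable fun n => (if lam n ≤ T then c n else 0 : ℝ) :=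
  Summable.of_norm_bounded (D.sum.mul_left (Real.exp (σ * T))) fun n => sh_term D T n

lemma sh_le (D : Dat lam c δ σ) (T : ℝ) :
    |Sh lam c T| ≤ Real.exp (σ * T) * ∑' n, |c n| * Real.exp (-(σ * lam n)) := by
  unfold Sh
  rw [← Real.norm_eq_abs]
  exact tsum_of_norm_bounded (D.sum.hasSum.mul_left _) fun n => sh_term D T n

lemma sh_zero (D : Dat lam c δ σ) {T : ℝ} (hT : T < δ) : Sh lam c T = 0 := by
  unfold Sh
  have h : ∀ n, (if lam n ≤ T then c n else 0 : ℝ) = 0 := fun n => by
    rw [if_neg]
    have := D.lam_ge n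
    linarith
  simp only [h, tsum_zero]

lemma sh_meas (D : Dat lam c δ σ) : Measurable (Sh lam c) := by
  refine measurable_of_tendsto_metrizable
    (f := fun (N : ℕ) T => ∑ n ∈ Finset.range N, (if lam n ≤ T then c n else 0 : ℝ)) (fun N => ?_) ?_
  · refine Finset.measurable_fun_sum _ fun n _ => ?_
    exact Measurable.ite measurableSet_Ici measurable_const measurable_const
  · rw [tendsto_pi_nhds]
    intro T
    exact (sh_summable D T).hasSum.tendsto_sum_nat

lemma norm_exp_neg (s : ℂ) (u : ℝ) : ‖exp (-(s * u))‖ = Real.exp (-(s.re * u)) := by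
  rw [Complex.norm_exp]
  congr 1
  simp

lemma integrable_step {s : ℂ} (hs : 0 < s.re) (p : ℝ) :
    Integrable ((Ici p).indicator fun T : ℝ => exp (-(s * T))) := by
  rw [integrable_indicator_iff measurableSet_Ici, integrableOn_Ici_iff_integrableOn_Ioi]
  have := integrableOn_exp_mul_complex_Ioi (a := -s) (by simpa using hs) p
  simpa [neg_mul] using this

lemma integral_step {s : ℂ} (hs : 0 < s.re) (p : ℝ) :
    ∫ T : ℝ, (Ici p).indicator (fun T : ℝ => exp (-(s * T))) T = exp (-(s * p)) / s := by
  rw [integral_indicator measurableSet_Ici, integral_Ici_eq_integral_Ioi]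
  have := integral_exp_mul_complex_Ioi (a := -s) (by simpa using hs) p
  simp only [neg_mul] at this
  rw [this, neg_div_neg_eq]

lemma integrable_step_real {x : ℝ} (hx : 0 < x) (p : ℝ) :
    Integrable ((Ici p).indicator fun T : ℝ => Real.exp (-(x * T))) := by
  rw [integrable_indicator_iff measurableSet_Ici, integrableOn_Ici_iff_integrableOn_Ioi]
  have := integrableOn_exp_mul_Ioi (a := -x) (by linarith) p
  simpa [neg_mul] using this

lemma integral_step_real {x : ℝ} (hx : 0 < x) (p : ℝ) :
    ∫ T : ℝ, (Ici p).indicator (fun T : ℝ => Real.exp (-(x * T))) T = Real.exp (-(x * p)) / x := by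
  rw [integral_indicator measurableSet_Ici, integral_Ici_eq_integral_Ioi]
  have := integral_exp_mul_Ioi (a := -x) (by linarith) p
  simp only [neg_mul] at this
  rw [this, neg_div_neg_eq]

/-- **The Laplace transform of the partial sums.** -/
theorem sh_lap (D : Dat lam c δ σ) {s : ℂ} (hs : σ < s.re) :
    ∫ T : ℝ, (Sh lam c T : ℂ) * exp (-(s * T)) = DD lam c s / s := by
  have hs0 : 0 < s.re := D.σ0.trans hs
  set F : ℕ → ℝ → ℂ := fun n T => (c n : ℂ) * (Ici (lam n)).indicator (fun T : ℝ => exp (-(s * T))) T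
    with hF
  have hFi : ∀ n, Integrable (F n) := fun n => (integrable_step hs0 _).const_mul _
  have hFn : ∀ n, ∫ T : ℝ, ‖F n T‖ = |c n| * (Real.exp (-(s.re * lam n)) / s.re) := by
    intro n
    rw [← integral_step_real hs0, ← integral_const_mul]
    refine integral_congr_ae (Eventually.of_forall fun T => ?_)
    simp only [hF, norm_mul, Complex.norm_real, Real.norm_eq_abs]
    congr 1
    by_cases h : T ∈ Ici (lam n)
    · rw [indicator_of_mem h, indicator_of_mem h, norm_exp_neg]
    · rw [indicator_of_notMem h, indicator_of_notMem h, norm_zero]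
  have hFs : Summable fun n => ∫ T : ℝ, ‖F n T‖ := by
    simp only [hFn]
    refine Summable.of_nonneg_of_le (fun n => by positivity) (fun n => ?_) (D.sum.mul_right (1 / s.re))
    have h1 : Real.exp (-(s.re * lam n)) ≤ Real.exp (-(σ * lam n)) := by
      apply Real.exp_le_exp.2
      have h2 := D.lam_ge n
      have h3 := D.δ0
      nlinarith
    calc |c n| * (Real.exp (-(s.re * lam n)) / s.re)
        ≤ |c n| * (Real.exp (-(σ * lam n)) / s.re) := by gcongr
      _ = _ := by ring
  have h1 := integral_tsum_of_summable_integral_norm hFi hFs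
  have h2 : ∀ T : ℝ, ∑' n, F n T = (Sh lam c T : ℂ) * exp (-(s * T)) := by
    intro T
    unfold Sh
    rw [Complex.ofReal_tsum, ← tsum_mul_right]
    refine tsum_congr fun n => ?_
    simp only [hF]
    by_cases h : lam n ≤ T
    · rw [indicator_of_mem (show T ∈ Ici (lam n) from h), if_pos h]
    · rw [indicator_of_notMem (show T ∉ Ici (lam n) from h), if_neg h]
      simp
  simp only [h2] at h1
  rw [← h1]
  unfold DD
  rw [← tsum_div_const]
  refine tsum_congr fun n => ?_
  simp only [hF]
  rw [integral_const_mul, integral_step hs0]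
  ring

/-! ### the harmonic numbers -/

/-- exponents of the harmonic series -/
def lamh (n : ℕ) : ℝ := n + 1
/-- coefficients of the harmonic series -/
noncomputable def ch (n : ℕ) : ℝ := 1 / (n + 1)

lemma dat_h {σ : ℝ} (hσ : 0 < σ) : Dat lamh ch 1 σ where
  δ0 := one_pos
  σ0 := hσ
  lam_ge := fun n => by unfold lamh; linarith [Nat.cast_nonneg (α := ℝ) n]
  sum := by
    have h1 : Summable fun n : ℕ => Real.exp (-σ) ^ n := by
      refine summable_geometric_of_lt_one (Real.exp_pos _).le ?_
      rw [Real.exp_lt_one_iff]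
      linarith
    refine Summable.of_nonneg_of_le (fun n => by positivity) (fun n => ?_) h1
    unfold ch lamh
    have h2 : |(1 / ((n : ℝ) + 1))| ≤ 1 := by
      rw [abs_of_nonneg (by positivity), div_le_one (by positivity)]
      linarith [Nat.cast_nonneg (α := ℝ) n]
    have h3 : Real.exp (-(σ * ((n : ℝ) + 1))) ≤ Real.exp (-σ) ^ n := by
      rw [← Real.exp_nat_mul]
      apply Real.exp_le_exp.2
      nlinarith
    calc |(1 / ((n : ℝ) + 1))| * Real.exp (-(σ * ((n : ℝ) + 1))) ≤ 1 * Real.exp (-σ) ^ n := by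
          gcongr
      _ = _ := one_mul _

lemma norm_exp_lt {s : ℂ} (hs : 0 < s.re) : ‖exp (-s)‖ < 1 := by
  rw [Complex.norm_exp, Real.exp_lt_one_iff]
  simpa using hs

lemma dd_h {s : ℂ} (hs : 0 < s.re) : DD lamh ch s = -log (1 - exp (-s)) := by
  have h1 := Complex.hasSum_taylorSeries_neg_log (norm_exp_lt hs)
  rw [← h1.tsum_eq, h1.summable.tsum_eq_zero_add]
  simp only [Nat.cast_zero, div_zero, zero_add]
  unfold DD lamh ch
  refine tsum_congr fun n => ?_
  rw [← Complex.exp_nat_mul]
  push_cast
  rw [mul_comm, mul_one_div]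
  congr 2
  ring

lemma sh_h {T : ℝ} (hT : 0 ≤ T) : Sh lamh ch T = (harmonic ⌊T⌋₊ : ℝ) := by
  unfold Sh lamh ch harmonic
  rw [tsum_eq_sum (s := Finset.range ⌊T⌋₊)]
  · push_cast
    refine Finset.sum_congr rfl fun n hn => ?_
    rw [Finset.mem_range] at hn
    have : ((n : ℝ) + 1) ≤ T := by
      have h1 : n + 1 ≤ ⌊T⌋₊ := hn
      have h2 := (Nat.le_floor_iff hT).1 h1
      exact_mod_cast h2
    rw [if_pos this, one_div]
  · intro n hn
    rw [Finset.mem_range, not_lt] at hn
    rw [if_neg]
    intro h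
    have h1 : n + 1 ≤ ⌊T⌋₊ := Nat.le_floor (by exact_mod_cast h)
    omega

lemma harm_near {T : ℝ} (hT : 1 ≤ T) :
    |Sh lamh ch T - Real.log T - Real.eulerMascheroniConstant| ≤ 2 / T := by
  rw [sh_h (by linarith)]
  set n := ⌊T⌋₊ with hn
  have hn1 : 1 ≤ n := Nat.le_floor (by simpa using hT)
  have hnr : (1 : ℝ) ≤ n := by exact_mod_cast hn1
  have h1 : (n : ℝ) ≤ T := Nat.floor_le (by linarith)
  have h2 : T < n + 1 := Nat.lt_floor_add_one T
  have h3 := Real.eulerMascheroniSeq_lt_eulerMascheroniConstant n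
  have h4 := Real.eulerMascheroniConstant_lt_eulerMascheroniSeq' n
  unfold Real.eulerMascheroniSeq at h3
  unfold Real.eulerMascheroniSeq' at h4
  rw [if_neg (by omega)] at h4
  have h5 : Real.log (n + 1) - Real.log n ≤ 1 / n := by
    rw [← Real.log_div (by positivity) (by positivity)]
    have := Real.log_le_sub_one_of_pos (x := ((n : ℝ) + 1) / n) (by positivity)
    calc _ ≤ _ := this
      _ = 1 / n := by field_simp; ring
  have h6 : Real.log n ≤ Real.log T := Real.log_le_log (by linarith) h1
  have h7 : Real.log T ≤ Real.log (n + 1) := Real.log_le_log (by linarith) h2.le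
  have h8 : (1 : ℝ) / n ≤ 2 / T := by
    rw [div_le_div_iff₀ (by linarith) (by linarith)]
    linarith
  rw [abs_le]
  constructor <;> linarith

end Pool.Agent.TH270.MS
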