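import Mathlib
set_option autoImplicit false
open MeasureTheory Filter Topology Set Complex
open scoped ENNReal
namespace Pool.Agent.TH270.MS

namespace Factor

/-- the denominators do not vanish -/
lemma den_ne {R' R : ℝ} (h0 : 0 < R') (h1 : R' < R) {ρ s : ℂ} (hρ : ‖ρ‖ ≤ R') (hs : ‖s‖ ≤ R) :
    (R : ℂ) ^ 2 - (starRingEnd ℂ) ρ * s ≠ 0 := by
  intro h
  have h2 : (R : ℂ) ^ 2 = (starRingEnd ℂ) ρ * s := sub_eq_zero.1 h
  have h3 := congrArg norm h2
  rw [norm_mul, RCLike.norm_conj, norm_pow, Complex.norm_real, Real.norm_eq_abs,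
    abs_of_pos (h0.trans h1)] at h3
  have hR : 0 < R := h0.trans h1
  have h4 : ‖ρ‖ * ‖s‖ ≤ R' * R := mul_le_mul hρ hs (norm_nonneg _) h0.le
  nlinarith

/-- the factor on the circle -/
lemma norm_den {R : ℝ} {ρ s : ℂ} (hs : ‖s‖ = R) :
    ‖(R : ℂ) ^ 2 - (starRingEnd ℂ) ρ * s‖ = R * ‖s - ρ‖ := by
  have h1 : (R : ℂ) ^ 2 = (starRingEnd ℂ) s * s := by
    rw [mul_comm, Complex.mul_conj, Complex.normSq_eq_norm_sq, hs]
    push_cast
    rfl
  rw [h1, ← sub_mul, ← map_sub, norm_mul, RCLike.norm_conj, hs, mul_comm]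

lemma aux {R' R R₁ M : ℝ} (h0 : 0 < R') (h1 : R' < R) (h2 : R < R₁) (N : ℕ) :
    ∀ F : ℂ → ℂ, DifferentiableOn ℂ F (Metric.ball 0 R₁) →
      (∀ s : ℂ, ‖s‖ ≤ R → ‖F s‖ ≤ M) → F 0 ≠ 0 → M < ‖F 0‖ * (R / R') ^ N →
    ∃ (n : ℕ) (ρ : Fin n → ℂ) (g : ℂ → ℂ),
      ‖F 0‖ * (R / R') ^ n ≤ ‖g 0‖ ∧
      (∀ i, ‖ρ i‖ ≤ R' ∧ F (ρ i) = 0) ∧
      DifferentiableOn ℂ g (Metric.ball 0 R₁) ∧
      (∀ s : ℂ, ‖s‖ ≤ R' → g s ≠ 0) ∧
      (∀ s : ℂ, ‖s‖ ≤ R → ‖g s‖ ≤ M) ∧
      ∀ s : ℂ, ‖s‖ ≤ R → F s =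
        (∏ i, (R * (s - ρ i) / (R ^ 2 - (starRingEnd ℂ) (ρ i) * s))) * g s := by
  have hR : 0 < R := h0.trans h1
  have hRC : (R : ℂ) ≠ 0 := by exact_mod_cast hR.ne'
  induction N with
  | zero =>
    intro F _ hM _ hN
    exfalso
    have h3 := hM 0 (by simpa using hR.le)
    rw [pow_zero, mul_one] at hN
    linarith
  | succ N ih =>
    intro F hF hM hF0 hN
    by_cases hz : ∃ ρ : ℂ, ‖ρ‖ ≤ R' ∧ F ρ = 0
    · obtain ⟨ρ, hρ, hFρ⟩ := hz
      have hρ0 : ρ ≠ 0 := by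
        rintro rfl
        exact hF0 hFρ
      have hρn : 0 < ‖ρ‖ := norm_pos_iff.2 hρ0
      have hds : ∀ s, (s - ρ) * dslope F ρ s = F s := by
        intro s
        have h3 := sub_smul_dslope F ρ s
        rw [hFρ, sub_zero, smul_eq_mul] at h3
        exact h3
      obtain ⟨F1, hF1⟩ : ∃ F1 : ℂ → ℂ, F1 = fun s => dslope F ρ s *
        (((R : ℂ) ^ 2 - (starRingEnd ℂ) ρ * s) / R) := ⟨_, rfl⟩
      have hdiff : DifferentiableOn ℂ F1 (Metric.ball 0 R₁) := by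
        rw [hF1]
        refine DifferentiableOn.mul ?_ ?_
        · refine (Complex.differentiableOn_dslope ?_).2 hF
          refine Metric.isOpen_ball.mem_nhds ?_
          rw [mem_ball_zero_iff]
          linarith
        · exact (((differentiable_const _).sub ((differentiable_const _).mul
            differentiable_id)).div_const _).differentiableOn
      have hfac : ∀ s : ℂ, ‖s‖ ≤ R →
          F s = (R * (s - ρ) / (R ^ 2 - (starRingEnd ℂ) ρ * s)) * F1 s := by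
        intro s hs
        have h3 := den_ne h0 h1 hρ hs
        rw [hF1, ← hds s]
        dsimp only
        generalize (R : ℂ) ^ 2 - (starRingEnd ℂ) ρ * s = D at h3 ⊢
        field_simp
      have hbd : ∀ s : ℂ, ‖s‖ = R → ‖F1 s‖ ≤ M := by
        intro s hs
        have h3 : ‖F1 s‖ = ‖F s‖ := by
          rw [← hds s, hF1]
          simp only [norm_mul, norm_div]
          rw [norm_den hs, Complex.norm_real, Real.norm_eq_abs, abs_of_pos hR]
          field_simp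
        rw [h3]
        exact hM s hs.le
      have hM1 : ∀ s : ℂ, ‖s‖ ≤ R → ‖F1 s‖ ≤ M := by
        intro s hs
        refine Complex.norm_le_of_forall_mem_frontier_norm_le (U := Metric.ball 0 R)
          Metric.isBounded_ball ?_ ?_ ?_
        · apply DifferentiableOn.diffContOnCl
          rw [closure_ball _ hR.ne']
          exact hdiff.mono (Metric.closedBall_subset_ball h2)
        · intro z hz
          rw [frontier_ball _ hR.ne', mem_sphere_zero_iff_norm] at hz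
          exact hbd z hz
        · rw [closure_ball _ hR.ne', mem_closedBall_zero_iff]
          exact hs
      have h10 : ‖F1 0‖ = ‖F 0‖ * (R / ‖ρ‖) := by
        have h3 := hds 0
        rw [zero_sub] at h3
        have h4 := congrArg norm h3
        rw [norm_mul, norm_neg] at h4
        rw [← h4, hF1]
        simp only [mul_zero, sub_zero, norm_mul, norm_div, norm_pow, Complex.norm_real,
          Real.norm_eq_abs, abs_of_pos hR]
        field_simp
      have h11 : ‖F 0‖ * (R / R') ≤ ‖F1 0‖ := by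
        rw [h10]
        refine mul_le_mul_of_nonneg_left ?_ (norm_nonneg _)
        exact div_le_div_of_nonneg_left hR.le hρn hρ
      have hF00 : 0 < ‖F 0‖ := norm_pos_iff.2 hF0
      have hF10 : F1 0 ≠ 0 := by
        rw [← norm_pos_iff]
        refine lt_of_lt_of_le ?_ h11
        positivity
      have hq : 0 < R / R' := by positivity
      obtain ⟨n, ρ', g, hg1, hg2, hg3, hg4, hg5, hg6⟩ := ih F1 hdiff hM1 hF10 (by
        refine hN.trans_le ?_
        rw [pow_succ', ← mul_assoc]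
        exact mul_le_mul_of_nonneg_right h11 (pow_pos hq _).le)
      refine ⟨n + 1, Fin.cons ρ ρ', g, ?_, ?_, hg3, hg4, hg5, ?_⟩
      · refine le_trans ?_ hg1
        rw [pow_succ', ← mul_assoc]
        exact mul_le_mul_of_nonneg_right h11 (pow_pos hq _).le
      · intro i
        refine Fin.cases ?_ (fun j => ?_) i
        · simpa using ⟨hρ, hFρ⟩
        · simp only [Fin.cons_succ]
          refine ⟨(hg2 j).1, ?_⟩
          rw [hfac _ ((hg2 j).1.trans h1.le), (hg2 j).2, mul_zero]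
      · intro s hs
        rw [Fin.prod_univ_succ]
        simp only [Fin.cons_zero, Fin.cons_succ]
        rw [mul_assoc, ← hg6 s hs]
        exact hfac s hs
    · push Not at hz
      exact ⟨0, Fin.elim0, F, by simp, fun i => i.elim0, hF, fun s hs => hz s hs, hM,
        fun s _ => by simp⟩

end Factor

theorem factor {R' R R₁ M : ℝ} (h0 : 0 < R') (h1 : R' < R) (h2 : R < R₁) {F : ℂ → ℂ}
    (hF : DifferentiableOn ℂ F (Metric.ball 0 R₁)) (hM : ∀ s : ℂ, ‖s‖ ≤ R → ‖F s‖ ≤ M)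
    (hF0 : F 0 ≠ 0) :
    ∃ (n : ℕ) (ρ : Fin n → ℂ) (g : ℂ → ℂ),
      (n : ℝ) * Real.log (R / R') ≤ Real.log (M / ‖F 0‖) ∧
      (∀ i, ‖ρ i‖ ≤ R' ∧ F (ρ i) = 0) ∧
      DifferentiableOn ℂ g (Metric.ball 0 R₁) ∧
      (∀ s : ℂ, ‖s‖ ≤ R' → g s ≠ 0) ∧
      (∀ s : ℂ, ‖s‖ ≤ R → ‖g s‖ ≤ M) ∧ ‖F 0‖ ≤ ‖g 0‖ ∧
      ∀ s : ℂ, ‖s‖ ≤ R → F s =
        (∏ i, (R * (s - ρ i) / (R ^ 2 - (starRingEnd ℂ) (ρ i) * s))) * g s := by
  have hR : 0 < R := h0.trans h1
  have hF00 : 0 < ‖F 0‖ := norm_pos_iff.2 hF0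
  have hq1 : 1 < R / R' := (one_lt_div h0).2 h1
  obtain ⟨N, hN⟩ := pow_unbounded_of_one_lt (M / ‖F 0‖) hq1
  rw [div_lt_iff₀ hF00, mul_comm] at hN
  obtain ⟨n, ρ, g, hg1, hg2, hg3, hg4, hg5, hg6⟩ := Factor.aux h0 h1 h2 N F hF hM hF0 hN
  have hg0 : ‖g 0‖ ≤ M := hg5 0 (by simpa using hR.le)
  refine ⟨n, ρ, g, ?_, hg2, hg3, hg4, hg5, ?_, hg6⟩
  · rw [← Real.log_pow]
    refine Real.log_le_log (by positivity) ?_
    rw [le_div_iff₀ hF00, mul_comm]
    exact hg1.trans hg0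
  · refine le_trans ?_ hg1
    have := one_le_pow₀ (n := n) hq1.le
    nlinarith

end Pool.Agent.TH270.MS
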