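import Pool.Agent.H21.L.R_seed8.TH270.MS.Conv

/-!
# From bounds for means of the absolute value to the Laplace transform
-/

set_option autoImplicit false

open MeasureTheory Filter Topology Set
open scoped ENNReal
open Pool.Agent.W263.BSD (LInt lap)

namespace Pool.Agent.TH270.MS

lemma exp_tail {x : ℝ} (hx : 0 < x) (u : ℝ) :
    ENNReal.ofReal (Real.exp (-(x * u))) =
      ∫⁻ v in Ioi u, ENNReal.ofReal (x * Real.exp (-(x * v))) := by
  have h1 : IntegrableOn (fun v : ℝ => x * Real.exp (-x * v)) (Ioi u) :=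
    (integrableOn_exp_mul_Ioi (by linarith) u).const_mul x
  have h2 : IntegrableOn (fun v : ℝ => x * Real.exp (-(x * v))) (Ioi u) := by
    simpa [neg_mul] using h1
  rw [← ofReal_integral_eq_lintegral_ofReal h2 (Eventually.of_forall fun v => by positivity)]
  congr 1
  rw [integral_const_mul]
  have h3 := integral_exp_mul_Ioi (a := -x) (by linarith) u
  simp only [neg_mul] at h3
  rw [h3, neg_div_neg_eq]
  field_simp

lemma lin_int {x a b : ℝ} (hx : 0 < x) (ha : 0 ≤ a) (hb : 0 ≤ b) :
    ∫⁻ v in Ioi (0 : ℝ), ENNReal.ofReal (x * Real.exp (-(x * v))) * ENNReal.ofReal (a * v + b) =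
      ENNReal.ofReal (a / x + b) := by
  have h1 : IntegrableOn (fun v : ℝ => Real.exp (-(x * v))) (Ioi 0) := by
    have := integrableOn_exp_mul_Ioi (a := -x) (by linarith) 0
    simpa [neg_mul] using this
  have h2 : ∫ v in Ioi (0 : ℝ), Real.exp (-(x * v)) = 1 / x := by
    have h3 := integral_exp_mul_Ioi (a := -x) (by linarith) 0
    simp only [neg_mul] at h3
    rw [h3, neg_div_neg_eq]
    simp
  have h4 : ∫ v in Ioi (0 : ℝ), v * Real.exp (-(x * v)) = 1 / x ^ 2 := by
    have h3 := Real.integral_rpow_mul_exp_neg_mul_Ioi (a := 2) (r := x) (by norm_num) hx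
    have h5 : (2 : ℝ) - 1 = 1 := by norm_num
    simp only [h5, Real.rpow_one] at h3
    rw [h3, Real.Gamma_two]
    rw [show (2 : ℝ) = ((2 : ℕ) : ℝ) by norm_num, Real.rpow_natCast]
    field_simp
  have h6 : IntegrableOn (fun v : ℝ => v * Real.exp (-(x * v))) (Ioi 0) := by
    by_contra hcon
    rw [integral_undef hcon] at h4
    have : (0 : ℝ) < 1 / x ^ 2 := by positivity
    linarith
  have h7 : ∀ v ∈ Ioi (0 : ℝ), ENNReal.ofReal (x * Real.exp (-(x * v))) *
      ENNReal.ofReal (a * v + b) =
      ENNReal.ofReal (a * x * (v * Real.exp (-(x * v))) + b * x * Real.exp (-(x * v))) := by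
    intro v hv
    rw [← ENNReal.ofReal_mul (by positivity)]
    congr 1
    ring
  have h6' : IntegrableOn (fun v : ℝ => a * x * (v * Real.exp (-(x * v)))) (Ioi 0) := h6.const_mul _
  have h1' : IntegrableOn (fun v : ℝ => b * x * Real.exp (-(x * v))) (Ioi 0) := h1.const_mul _
  have h61 : IntegrableOn (fun v : ℝ => a * x * (v * Real.exp (-(x * v))) +
      b * x * Real.exp (-(x * v))) (Ioi 0) := h6'.add h1'
  rw [setLIntegral_congr_fun measurableSet_Ioi h7,
    ← ofReal_integral_eq_lintegral_ofReal h61 ?_]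
  · congr 1
    rw [integral_add h6' h1', integral_const_mul, integral_const_mul, h2, h4]
    field_simp
  · filter_upwards [ae_restrict_mem measurableSet_Ioi] with v hv
    have : 0 < v := hv
    have h8 : 0 ≤ a * x * (v * Real.exp (-(x * v))) := by positivity
    have h9 : 0 ≤ b * x * Real.exp (-(x * v)) := by positivity
    exact add_nonneg h8 h9

/-- **Integration by parts for Laplace integrals.** -/
theorem abel_lin {f : ℝ → ℝ≥0∞} (hf : Measurable f) {a b : ℝ} (ha : 0 ≤ a) (hb : 0 ≤ b)
    (h : ∀ T : ℝ, 1 ≤ T → ∫⁻ u in Ioc 1 T, f u ≤ ENNReal.ofReal (a * T + b)) {x : ℝ} (hx : 0 < x) :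
    ∫⁻ u in Ioi (1 : ℝ), f u * ENNReal.ofReal (Real.exp (-(x * u))) ≤
      ENNReal.ofReal (a / x + b) := by
  set w : ℝ → ℝ≥0∞ := fun v => ENNReal.ofReal (x * Real.exp (-(x * v))) with hw
  have hwm : Measurable w := by
    refine ENNReal.measurable_ofReal.comp ?_
    fun_prop
  have h1 : ∀ u : ℝ, f u * ENNReal.ofReal (Real.exp (-(x * u))) =
      ∫⁻ v : ℝ, (if u < v then f u * w v else 0) := by
    intro u
    rw [exp_tail hx, ← lintegral_const_mul _ hwm, ← lintegral_indicator measurableSet_Ioi]
    refine lintegral_congr fun v => ?_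
    by_cases huv : u < v
    · rw [indicator_of_mem (show v ∈ Ioi u from huv), if_pos huv]
    · rw [indicator_of_notMem (show v ∉ Ioi u from huv), if_neg huv]
  simp_rw [h1]
  rw [lintegral_lintegral_swap]
  · have h2 : ∀ v : ℝ, ∫⁻ u in Ioi (1 : ℝ), (if u < v then f u * w v else 0) ≤
        (Ioi (0 : ℝ)).indicator (fun v => w v * ENNReal.ofReal (a * v + b)) v := by
      intro v
      rcases le_or_gt v 1 with hv | hv
      · have h3 : ∫⁻ u in Ioi (1 : ℝ), (if u < v then f u * w v else 0) = 0 := by
          rw [lintegral_eq_zero_iff']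
          · filter_upwards [ae_restrict_mem measurableSet_Ioi] with u hu
            have : ¬ u < v := not_lt.2 (hv.trans (le_of_lt hu))
            simp only [this, if_false, Pi.zero_apply]
          · refine Measurable.aemeasurable ?_
            exact Measurable.ite measurableSet_Iio (hf.mul_const _) measurable_const
        rw [h3]
        exact bot_le
      · rw [indicator_of_mem (show v ∈ Ioi (0 : ℝ) from by
          show (0 : ℝ) < v
          linarith)]
        calc ∫⁻ u in Ioi (1 : ℝ), (if u < v then f u * w v else 0)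
            ≤ ∫⁻ u in Ioi (1 : ℝ), (Ioc 1 v).indicator (fun u => w v * f u) u := by
              refine lintegral_mono_ae ?_
              filter_upwards [ae_restrict_mem measurableSet_Ioi] with u hu
              by_cases huv : u < v
              · rw [if_pos huv, indicator_of_mem (show u ∈ Ioc 1 v from ⟨hu, huv.le⟩), mul_comm]
              · rw [if_neg huv]
                exact bot_le
          _ ≤ ∫⁻ u : ℝ, (Ioc 1 v).indicator (fun u => w v * f u) u := setLIntegral_le_lintegral _ _
          _ = w v * ∫⁻ u in Ioc 1 v, f u := by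
              rw [lintegral_indicator measurableSet_Ioc, lintegral_const_mul _ hf]
          _ ≤ w v * ENNReal.ofReal (a * v + b) := by
              gcongr
              exact h v hv.le
    calc _ ≤ ∫⁻ v : ℝ, (Ioi (0 : ℝ)).indicator (fun v => w v * ENNReal.ofReal (a * v + b)) v :=
          lintegral_mono h2
      _ = _ := by
        rw [lintegral_indicator measurableSet_Ioi, lin_int hx ha hb]
  · refine Measurable.aemeasurable ?_
    refine Measurable.ite (measurableSet_lt measurable_fst measurable_snd) ?_ measurable_const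
    exact (hf.comp measurable_fst).mul (hwm.comp measurable_snd)

/-- **From means to the Laplace transform.** -/
theorem mean_lap {E : ℝ → ℝ} (hE : Measurable E) {C σ : ℝ} (hC : ∀ u, |E u| ≤ C * Real.exp (σ * u))
    {ε : ℝ} (hε : 0 < ε) (h : ∀ᶠ T : ℝ in atTop, ∫ u in (1 : ℝ)..T, |E u| ≤ ε * T) :
    (∀ x : ℝ, 0 < x → LInt E x) ∧ ∀ᶠ x in 𝓝[>] (0 : ℝ), |x * lap E x| ≤ 2 * ε := by
  have hC0 : 0 ≤ C := by
    have := (abs_nonneg _).trans (hC 0)
    simpa using this
  have hi : ∀ a b : ℝ, IntegrableOn E (Ioc a b) := by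
    intro a b
    have h1 : IntegrableOn (fun u : ℝ => C * Real.exp (σ * u)) (Ioc a b) :=
      (Continuous.integrableOn_Icc (by fun_prop)).mono_set Ioc_subset_Icc_self
    exact h1.mono' hE.aestronglyMeasurable (Eventually.of_forall fun u => hC u)
  obtain ⟨T₀, hT₀⟩ := h.exists_forall_of_atTop
  set T₁ : ℝ := max T₀ 1 with hT₁
  set b : ℝ := ∫ u in (1 : ℝ)..T₁, |E u| with hb
  have hb0 : 0 ≤ b := intervalIntegral.integral_nonneg (le_max_right _ _) fun u _ => abs_nonneg _
  have hlin : ∀ T : ℝ, 1 ≤ T → ∫⁻ u in Ioc 1 T, ‖E u‖ₑ ≤ ENNReal.ofReal (ε * T + b) := by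
    intro T hT
    have h1 : ∫⁻ u in Ioc 1 T, ‖E u‖ₑ = ENNReal.ofReal (∫ u in (1 : ℝ)..T, |E u|) := by
      rw [intervalIntegral.integral_of_le hT,
        ofReal_integral_eq_lintegral_ofReal (hi 1 T).abs (Eventually.of_forall fun u => abs_nonneg _)]
      refine lintegral_congr fun u => ?_
      rw [← Real.norm_eq_abs, ofReal_norm]
    rw [h1]
    apply ENNReal.ofReal_le_ofReal
    rcases le_or_gt T T₁ with h2 | h2
    · have h3 : ∫ u in (1 : ℝ)..T, |E u| ≤ b := by
        rw [hb]
        refine intervalIntegral.integral_mono_interval le_rfl hT h2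
          (Eventually.of_forall fun u => abs_nonneg _) ?_
        rw [intervalIntegrable_iff_integrableOn_Ioc_of_le (hT.trans h2)]
        exact (hi 1 T₁).abs
      have : 0 ≤ ε * T := by positivity
      linarith
    · have := hT₀ T ((le_max_left _ _).trans h2.le)
      linarith
  have hkey : ∀ x : ℝ, 0 < x → ∫⁻ u in Ioi (1 : ℝ), ‖E u * Real.exp (-(x * u))‖ₑ ≤
      ENNReal.ofReal (ε / x + b) := by
    intro x hx
    have h1 := abel_lin (f := fun u => ‖E u‖ₑ) hE.enorm hε.le hb0 hlin hx
    refine le_trans (le_of_eq ?_) h1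
    refine lintegral_congr fun u => ?_
    rw [enorm_mul, ← ofReal_norm (Real.exp _), Real.norm_of_nonneg (Real.exp_pos _).le]
  have hm : ∀ x : ℝ, Measurable fun u : ℝ => E u * Real.exp (-(x * u)) := fun x =>
    hE.mul (by fun_prop)
  have hI1 : ∀ x : ℝ, 0 < x → IntegrableOn (fun u : ℝ => E u * Real.exp (-(x * u))) (Ioi 1) :=
    fun x hx => ⟨(hm x).aestronglyMeasurable, (hkey x hx).trans_lt ENNReal.ofReal_lt_top⟩
  have hI0 : ∀ x : ℝ, IntegrableOn (fun u : ℝ => E u * Real.exp (-(x * u))) (Ioc 0 1) := by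
    intro x
    have h1 : IntegrableOn (fun u : ℝ => C * Real.exp (σ * u) * Real.exp (-(x * u))) (Ioc 0 1) :=
      (Continuous.integrableOn_Icc (by fun_prop)).mono_set Ioc_subset_Icc_self
    refine h1.mono' (hm x).aestronglyMeasurable (Eventually.of_forall fun u => ?_)
    rw [norm_mul, Real.norm_eq_abs, Real.norm_of_nonneg (Real.exp_pos _).le]
    exact mul_le_mul_of_nonneg_right (hC u) (Real.exp_pos _).le
  have hun : Ioc (0 : ℝ) 1 ∪ Ioi 1 = Ioi 0 := Ioc_union_Ioi_eq_Ioi zero_le_one
  refine ⟨fun x hx => ?_, ?_⟩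
  · unfold LInt
    rw [← hun]
    exact (hI0 x).union (hI1 x hx)
  · -- the bound
    set C₁ : ℝ := C * Real.exp |σ| with hC₁
    have hC₁0 : 0 ≤ C₁ := by positivity
    have h0 : ∀ x : ℝ, 0 < x → |∫ u in Ioc (0 : ℝ) 1, E u * Real.exp (-(x * u))| ≤ C₁ := by
      intro x hx
      rw [← Real.norm_eq_abs]
      have := norm_setIntegral_le_of_norm_le_const (μ := volume) (s := Ioc (0 : ℝ) 1)
        (f := fun u => E u * Real.exp (-(x * u))) (C := C₁) (by simp) (fun u hu => by
          rw [norm_mul, Real.norm_eq_abs, Real.norm_of_nonneg (Real.exp_pos _).le]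
          have e1 : Real.exp (-(x * u)) ≤ 1 := by
            rw [Real.exp_le_one_iff]
            have := mul_nonneg hx.le hu.1.le
            linarith
          have e2 : Real.exp (σ * u) ≤ Real.exp |σ| := by
            apply Real.exp_le_exp.2
            calc σ * u ≤ |σ| * u := mul_le_mul_of_nonneg_right (le_abs_self _) hu.1.le
              _ ≤ |σ| * 1 := mul_le_mul_of_nonneg_left hu.2 (abs_nonneg _)
              _ = _ := mul_one _
          calc |E u| * Real.exp (-(x * u)) ≤ (C * Real.exp (σ * u)) * 1 :=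
                mul_le_mul (hC u) e1 (Real.exp_pos _).le (by positivity)
            _ ≤ _ := by
              rw [mul_one]
              exact mul_le_mul_of_nonneg_left e2 hC0)
      simpa using this
    have h1 : ∀ x : ℝ, 0 < x → |∫ u in Ioi (1 : ℝ), E u * Real.exp (-(x * u))| ≤ ε / x + b := by
      intro x hx
      have h2 : ‖∫ u in Ioi (1 : ℝ), E u * Real.exp (-(x * u))‖ₑ ≤ ENNReal.ofReal (ε / x + b) :=
        (enorm_integral_le_lintegral_enorm _).trans (hkey x hx)
      rw [← ofReal_norm, Real.norm_eq_abs] at h2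
      exact (ENNReal.ofReal_le_ofReal_iff (by positivity)).1 h2
    have h2 : ∀ x : ℝ, 0 < x → |x * lap E x| ≤ ε + x * (b + C₁) := by
      intro x hx
      have e1 : lap E x = (∫ u in Ioc (0 : ℝ) 1, E u * Real.exp (-(x * u))) +
          ∫ u in Ioi (1 : ℝ), E u * Real.exp (-(x * u)) := by
        unfold lap
        rw [← hun]
        exact setIntegral_union (by
          rw [Set.disjoint_left]
          intro u hu hu'
          exact absurd hu.2 (not_le.2 hu')) measurableSet_Ioi (hI0 x) (hI1 x hx)
      rw [e1, abs_mul, abs_of_pos hx]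
      have e2 := (abs_add_le (∫ u in Ioc (0 : ℝ) 1, E u * Real.exp (-(x * u)))
        (∫ u in Ioi (1 : ℝ), E u * Real.exp (-(x * u)))).trans (add_le_add (h0 x hx) (h1 x hx))
      calc x * _ ≤ x * (C₁ + (ε / x + b)) := mul_le_mul_of_nonneg_left e2 hx.le
        _ = _ := by field_simp; ring
    have h3 : ∀ᶠ x in 𝓝[>] (0 : ℝ), x * (b + C₁) < ε := by
      have h4 : Tendsto (fun x : ℝ => x * (b + C₁)) (𝓝[>] 0) (𝓝 0) := by
        have : Tendsto (fun x : ℝ => x * (b + C₁)) (𝓝 0) (𝓝 (0 * (b + C₁))) :=
          (continuous_id.mul continuous_const).continuousAt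
        rw [zero_mul] at this
        exact this.mono_left nhdsWithin_le_nhds
      exact h4.eventually (gt_mem_nhds hε)
    filter_upwards [h3, self_mem_nhdsWithin] with x h4 h5
    have := h2 x h5
    linarith

end Pool.Agent.TH270.MS
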