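import Pool.Agent.H21.L.R_seed8.TH270.MS.Glob
import Pool.Agent.H21.L.R_seed8.TH270.MS.PW
import Pool.Agent.H21.L.R_seed8.TH270.MS.Mean

/-!
# The mean square theorem
-/

set_option autoImplicit false

open MeasureTheory Filter Topology Set Complex
open scoped ENNReal
open Pool.Agent.TH942.LS (Dat)
open Pool.Agent.TH942.SL
open Pool.Agent.TH942.RZ (LD log_near)

namespace Pool.Agent.TH270.MS

variable {lam c : ℕ → ℝ} {δ σ : ℝ}

lemma exp_small {w : ℂ} (hw : ‖w‖ ≤ 1 / 2) : ‖w‖ ≤ 2 * ‖exp w - 1‖ := by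
  have h1 := Complex.norm_exp_sub_one_sub_id_le (x := w) (by linarith)
  have h2 : ‖w‖ ≤ ‖exp w - 1‖ + ‖exp w - 1 - w‖ := by
    have := norm_sub_le (exp w - 1) (exp w - 1 - w)
    simpa using this
  nlinarith [norm_nonneg w]

/-- `log (1 - e^{-s}) - log s` near `0` -/
lemma log_one_sub_c {s : ℂ} (hs : 0 < s.re) (h : ‖s‖ ≤ 1 / 2) :
    ‖log (1 - exp (-s)) - log s‖ ≤ 2 * ‖s‖ := by
  have hs0 : s ≠ 0 := by rintro rfl; simp at hs
  set q : ℂ := (1 - exp (-s)) / s with hq
  have h1 : ‖q - 1‖ ≤ ‖s‖ := by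
    have e1 := Complex.norm_exp_sub_one_sub_id_le (x := -s) (by rw [norm_neg]; linarith)
    have e2 : q - 1 = -(exp (-s) - 1 - -s) / s := by
      rw [hq]
      field_simp
      ring
    rw [e2, norm_div, norm_neg, div_le_iff₀ (norm_pos_iff.2 hs0)]
    rw [norm_neg] at e1
    linarith [sq (‖s‖)]
  have h2 : 0 < q.re := by
    have e1 := Complex.abs_re_le_norm (q - 1)
    rw [Complex.sub_re, Complex.one_re] at e1
    have e2 := (abs_le.1 (e1.trans (h1.trans h))).1
    linarith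
  have hq0 : q ≠ 0 := by rintro e; rw [e] at h2; simp at h2
  have h3 : 1 - exp (-s) = s * q := by
    rw [hq]
    field_simp
  have a1 := Complex.abs_arg_lt_pi_div_two_iff.2 (Or.inl hs)
  have a2 := Complex.abs_arg_lt_pi_div_two_iff.2 (Or.inl h2)
  have h4 : log (s * q) = log s + log q := by
    refine Complex.log_mul hs0 hq0 ?_
    rw [abs_lt] at a1 a2
    constructor <;> linarith [a1.1, a1.2, a2.1, a2.2]
  rw [h3, h4, add_sub_cancel_left]
  have h5 := Complex.norm_log_one_add_half_le_self (z := q - 1) (h1.trans h)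
  rw [show (1 : ℂ) + (q - 1) = q by ring] at h5
  calc ‖log q‖ ≤ 3 / 2 * ‖q - 1‖ := h5
    _ ≤ 2 * ‖s‖ := by nlinarith [norm_nonneg (q - 1), norm_nonneg s]

lemma log_one_sub_bd {δ' : ℝ} (hδ : 0 < δ') {s : ℂ} (hs : δ' ≤ s.re) :
    ‖log (1 - exp (-s))‖ ≤ |Real.log (1 - Real.exp (-δ'))| + 1 + Real.pi := by
  have h1 : ‖exp (-s)‖ ≤ Real.exp (-δ') := by
    rw [Complex.norm_exp]
    apply Real.exp_le_exp.2
    simpa using hs
  have h2 : Real.exp (-δ') < 1 := by rw [Real.exp_lt_one_iff]; linarith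
  have h3 : 1 - Real.exp (-δ') ≤ ‖1 - exp (-s)‖ := by
    have := norm_sub_norm_le (1 : ℂ) (exp (-s))
    rw [norm_one] at this
    linarith
  have h4 : ‖1 - exp (-s)‖ ≤ 2 := by
    have := norm_sub_le (1 : ℂ) (exp (-s))
    rw [norm_one] at this
    linarith
  have h5 : ‖log (1 - exp (-s))‖ ≤ |Real.log ‖1 - exp (-s)‖| + |arg (1 - exp (-s))| := by
    have := norm_le_abs_re_add_abs_im (log (1 - exp (-s)))
    rwa [Complex.log_re, Complex.log_im] at this
  have h6 := Complex.abs_arg_le_pi (1 - exp (-s))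
  have h7 : |Real.log ‖1 - exp (-s)‖| ≤ |Real.log (1 - Real.exp (-δ'))| + 1 := by
    have e1 := Real.log_le_log (by linarith) h3
    have e2 := Real.log_le_log (by linarith : 0 < ‖1 - exp (-s)‖) h4
    have e3 : Real.log 2 ≤ 1 := by
      have := Real.log_le_sub_one_of_pos (x := 2) (by norm_num)
      linarith
    have e4 := neg_abs_le (Real.log (1 - Real.exp (-δ')))
    have e5 := abs_nonneg (Real.log (1 - Real.exp (-δ')))
    rw [abs_le]
    constructor <;> linarith
  linarith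

lemma log_line {a : ℝ} (ha : 1 ≤ a) (T : ℝ) :
    ‖log ((a : ℂ) + T * I)‖ ≤ (Real.log (2 * a) + 4) * (1 + Real.log (1 + |T|)) := by
  have h0 : 0 ≤ Real.log (1 + |T|) := Real.log_nonneg (by linarith [abs_nonneg T])
  have h5 : ‖log ((a : ℂ) + T * I)‖ ≤ |Real.log ‖(a : ℂ) + T * I‖| + |arg ((a : ℂ) + T * I)| := by
    have := norm_le_abs_re_add_abs_im (log ((a : ℂ) + T * I))
    rwa [Complex.log_re, Complex.log_im] at this
  have h6 := Complex.abs_arg_le_pi ((a : ℂ) + T * I)
  have h7 : a ≤ ‖(a : ℂ) + T * I‖ := by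
    have := Complex.re_le_norm ((a : ℂ) + T * I)
    simpa using this
  have h8 : ‖(a : ℂ) + T * I‖ ≤ (2 * a) * (1 + |T|) := by
    refine (norm_add_le _ _).trans ?_
    rw [norm_mul, Complex.norm_I, mul_one, Complex.norm_real, Complex.norm_real,
      Real.norm_eq_abs, Real.norm_eq_abs, abs_of_nonneg (by linarith : 0 ≤ a)]
    nlinarith [abs_nonneg T]
  have h9 : |Real.log ‖(a : ℂ) + T * I‖| ≤ Real.log (2 * a) + Real.log (1 + |T|) := by
    rw [abs_of_nonneg (Real.log_nonneg (ha.trans h7)), ← Real.log_mul (by positivity)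
      (by positivity)]
    exact Real.log_le_log (by linarith) h8
  have h10 : 0 ≤ Real.log (2 * a) := Real.log_nonneg (by linarith)
  have h11 := Real.pi_le_four
  nlinarith [mul_nonneg h10 h0]

lemma line_meas {L : ℂ → ℂ} (hL : ∀ s : ℂ, 0 < s.re → ContinuousAt L s) {x : ℝ} (hx : 0 < x) :
    Measurable fun t : ℝ => ‖L (x + t * I)‖ₑ ^ 2 := by
  have hline : Continuous fun t : ℝ => L (x + t * I) := by
    rw [continuous_iff_continuousAt]
    intro t
    have h1 : ContinuousAt L ((x : ℂ) + t * I) := hL _ (by simpa using hx)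
    exact ContinuousAt.comp (f := fun t : ℝ => (x : ℂ) + t * I) h1 (by fun_prop)
  exact (hline.measurable.enorm).pow_const 2

/-- **The mean square theorem.** -/
theorem fwd {G₀ g : ℂ → ℂ} {k p κ : ℕ} {η C : ℝ} (D : Dat lam c δ σ) (hη : 0 < η)
    (hG : ∀ s : ℂ, -η < s.re → DifferentiableAt ℂ G₀ s)
    (hgrow : ∀ s : ℂ, -η < s.re → ‖G₀ s‖ ≤ C * (1 + ‖s‖) ^ κ)
    (hexp : ∀ s : ℂ, σ < s.re → s ^ k * exp (-DD lam c s) = G₀ s)
    (hg : AnalyticAt ℂ g 0) (hg0 : g 0 ≠ 0) (near : ∀ᶠ s in 𝓝 (0 : ℂ), G₀ s = s ^ p * g s)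
    (hne : ∀ s : ℂ, 0 < s.re → G₀ s ≠ 0) :
    ∃ c₀ : ℝ, g 0 = Real.exp (-c₀) ∧
      ∫⁻ u : ℝ, ENNReal.ofReal (Er lam c ((p : ℝ) - k) c₀ u ^ 2) < ⊤ := by
  have hσ := D.σ0
  have hs0 : ∀ s : ℂ, 0 < s.re → s ≠ 0 := fun s hs => by rintro rfl; simp at hs
  set r : ℝ := (p : ℝ) - k with hr
  have hC0 : 0 ≤ C := by
    have := (norm_nonneg _).trans (hgrow 0 (by simpa using hη))
    simpa using this
  -- the logarithm of `Ψ = G₀ / s^k`
  set Ψ : ℂ → ℂ := fun s => G₀ s / s ^ k with hΨ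
  have hΨd : ∀ s : ℂ, 0 < s.re → DifferentiableAt ℂ Ψ s := fun s hs =>
    (hG s (by linarith)).div (differentiableAt_id.pow k) (pow_ne_zero _ (hs0 s hs))
  have hΨn : ∀ s : ℂ, 0 < s.re → Ψ s ≠ 0 := fun s hs =>
    div_ne_zero (hne s hs) (pow_ne_zero _ (hs0 s hs))
  have hΨg : ∀ s : ℂ, 0 < s.re → ‖Ψ s‖ ≤ C * (1 + ‖s‖) ^ (κ + k) * (1 + 1 / s.re) ^ (κ + k) := by
    intro s hs
    rw [hΨ]
    simp only
    rw [norm_div, norm_pow, div_eq_mul_inv]
    have e1 := hgrow s (by linarith)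
    have e2 : (‖s‖ ^ k)⁻¹ ≤ (1 + 1 / s.re) ^ k := by
      rw [← inv_pow]
      apply pow_le_pow_left₀ (by positivity)
      have : ‖s‖⁻¹ ≤ s.re⁻¹ := inv_anti₀ hs (Complex.re_le_norm s)
      rw [one_div]
      linarith
    have e3 : (1 + ‖s‖) ^ κ ≤ (1 + ‖s‖) ^ (κ + k) :=
      pow_le_pow_right₀ (by linarith [norm_nonneg s]) (by omega)
    have e4 : (1 + 1 / s.re) ^ k ≤ (1 + 1 / s.re) ^ (κ + k) := by
      refine pow_le_pow_right₀ ?_ (by omega)
      have : 0 ≤ 1 / s.re := by positivity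
      linarith
    exact mul_le_mul (e1.trans (mul_le_mul_of_nonneg_left e3 hC0)) (e2.trans e4) (by positivity)
      (by positivity)
  obtain ⟨L, A₀, hLD, hLd, hLe, hLf⟩ := RS.exists_LD (G := fun _ => 0) (A' := 0) D hΨd hΨn
    (fun s _ => differentiableAt_const _) (fun s hs => by
      have h1 : s ≠ 0 := hs0 s (hσ.trans hs)
      rw [hΨ]
      simp only
      rw [← hexp s hs, zero_sub]
      field_simp) hΨg (fun s _ => by simp)
  -- the logarithm of `G₀`
  set L1 : ℂ → ℂ := fun s => L s + k * log s with hL1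
  have hlogd : ∀ s : ℂ, 0 < s.re → DifferentiableAt ℂ (fun s => log s) s := fun s hs =>
    differentiableAt_id.clog (Or.inl hs)
  have hL1d : ∀ s : ℂ, 0 < s.re → DifferentiableAt ℂ L1 s := fun s hs =>
    (hLd s hs).differentiableAt.add ((hlogd s hs).const_mul _)
  have hL1e : ∀ s : ℂ, 0 < s.re → exp (L1 s) = G₀ s := by
    intro s hs
    have h1 := hs0 s hs
    rw [hL1]
    simp only
    rw [Complex.exp_add, hLe s hs, Complex.exp_nat_mul, Complex.exp_log h1, hΨ]
    simp only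
    field_simp
  have hU : IsOpen {s : ℂ | 0 < s.re} := isOpen_lt continuous_const Complex.continuous_re
  have hL1h : ∀ s : ℂ, 0 < s.re → HasDerivAt L1 (deriv G₀ s / G₀ s) s := by
    intro s hs
    have h1 := (hL1d s hs).hasDerivAt
    have h2 : G₀ =ᶠ[𝓝 s] fun w => exp (L1 w) := by
      filter_upwards [hU.mem_nhds hs] with w hw
      exact (hL1e w hw).symm
    have h3 : deriv G₀ s = exp (L1 s) * deriv L1 s := by
      rw [h2.deriv_eq]
      exact h1.cexp.deriv
    rw [h3, ← hL1e s hs, mul_div_cancel_left₀ _ (Complex.exp_ne_zero _)]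
    exact h1
  obtain ⟨r₀, Γ, hr₀, hΓc, hΓ0, hΓn⟩ := log_near hL1e hL1h hg hg0 near
  -- the continuation of the Laplace transform
  set c' : ℂ := -Γ 0 with hc'
  set H : ℂ → ℂ := fun s => (-L s + r * log (1 - exp (-s)) - c') / s with hH
  have hlog1d : ∀ s : ℂ, 0 < s.re → DifferentiableAt ℂ (fun s => log (1 - exp (-s))) s :=
    fun s hs => DifferentiableAt.clog (by fun_prop) (slit_one_sub hs)
  have hHd : ∀ s : ℂ, 0 < s.re → DifferentiableAt ℂ H s := fun s hs =>
    ((((hLd s hs).differentiableAt.neg).add ((hlog1d s hs).const_mul _)).sub_const _).div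
      differentiableAt_id (hs0 s hs)
  -- the function
  set kf : ℝ → ℂ := fun u => (Er lam c r 0 u : ℂ) - (Ioi (0 : ℝ)).indicator (fun _ => c') u with hkf
  have hkm : Measurable kf :=
    (Complex.measurable_ofReal.comp (er_meas D r 0)).sub
      (measurable_const.indicator measurableSet_Ioi)
  have hk0 : ∀ u : ℝ, u ≤ 0 → kf u = 0 := by
    intro u hu
    rw [hkf]
    simp only
    rw [er_zero D r 0 hu, indicator_of_notMem (by simpa using hu)]
    simp
  obtain ⟨C₁, hC₁, hkb⟩ : ∃ C₁ : ℝ, 0 ≤ C₁ ∧ ∀ u : ℝ, ‖kf u‖ ≤ C₁ * Real.exp (σ * u) := by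
    obtain ⟨C₁, hC₁, hb⟩ := er_le D r 0
    refine ⟨C₁ + ‖c'‖, by positivity, fun u => ?_⟩
    rcases le_or_gt u 0 with hu | hu
    · rw [hk0 u hu, norm_zero]
      positivity
    · rw [hkf]
      simp only
      rw [indicator_of_mem (show u ∈ Ioi (0 : ℝ) from hu)]
      refine (norm_sub_le _ _).trans ?_
      rw [Complex.norm_real, Real.norm_eq_abs]
      have e1 := hb u
      have e2 : 1 ≤ Real.exp (σ * u) := Real.one_le_exp (mul_nonneg hσ.le hu.le)
      nlinarith [norm_nonneg c']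
  have hkx : ∀ x : ℝ, σ < x → ∀ u : ℝ, ‖kf u * exp (-(x * u))‖ ≤
      (Ici (0 : ℝ)).indicator (fun u => C₁ * Real.exp (-((x - σ) * u))) u := by
    intro x hx u
    have e0 : ‖exp (-((x : ℂ) * u))‖ = Real.exp (-(x * u)) := by
      rw [norm_exp_neg, Complex.ofReal_re]
    rcases lt_or_ge u 0 with hu | hu
    · rw [hk0 u hu.le, zero_mul, norm_zero, indicator_of_notMem (by simpa using hu)]
    · rw [indicator_of_mem (show u ∈ Ici (0 : ℝ) from hu), norm_mul, e0]
      calc ‖kf u‖ * Real.exp (-(x * u)) ≤ (C₁ * Real.exp (σ * u)) * Real.exp (-(x * u)) :=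
            mul_le_mul_of_nonneg_right (hkb u) (Real.exp_pos _).le
        _ = C₁ * (Real.exp (σ * u) * Real.exp (-(x * u))) := by ring
        _ = _ := by
          rw [← Real.exp_add]
          ring_nf
  have hkme : ∀ x : ℝ, Measurable fun u : ℝ => kf u * exp (-(x * u)) := fun x =>
    hkm.mul (by fun_prop)
  have hI : ∀ {y : ℝ}, 0 < y → ∀ C₂ : ℝ,
      Integrable ((Ici (0 : ℝ)).indicator (fun u => C₂ * Real.exp (-(y * u)))) := by
    intro y hy C₂
    rw [integrable_indicator_iff measurableSet_Ici, integrableOn_Ici_iff_integrableOn_Ioi]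
    have h1 : IntegrableOn (fun u : ℝ => Real.exp (-y * u)) (Ioi 0) :=
      integrableOn_exp_mul_Ioi (a := -y) (by linarith) 0
    have h2 : IntegrableOn (fun u : ℝ => C₂ * Real.exp (-y * u)) (Ioi 0) := h1.const_mul C₂
    refine h2.congr_fun (fun u _ => ?_) measurableSet_Ioi
    simp only [neg_mul]
  have hk1 : ∀ x : ℝ, σ < x → Integrable fun u : ℝ => kf u * exp (-(x * u)) := fun x hx =>
    (hI (by linarith : 0 < x - σ) C₁).mono' (hkme x).aestronglyMeasurable
      (Eventually.of_forall (hkx x hx))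
  have hk2 : ∀ x : ℝ, σ < x → MemLp (fun u : ℝ => kf u * exp (-(x * u))) 2 := by
    intro x hx
    rw [memLp_two_iff_integrable_sq_norm (hkme x).aestronglyMeasurable]
    refine (hI (by linarith : 0 < 2 * (x - σ)) (C₁ ^ 2)).mono'
      ((hkme x).norm.pow_const 2).aestronglyMeasurable (Eventually.of_forall fun u => ?_)
    rw [Real.norm_of_nonneg (by positivity)]
    refine (pow_le_pow_left₀ (norm_nonneg _) (hkx x hx u) 2).trans (le_of_eq ?_)
    by_cases hu : u ∈ Ici (0 : ℝ)
    · rw [indicator_of_mem hu, indicator_of_mem hu, mul_pow, ← Real.exp_nat_mul]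
      congr 2
      push_cast
      ring
    · rw [indicator_of_notMem hu, indicator_of_notMem hu]
      norm_num
  have hHk : ∀ s : ℂ, σ < s.re → H s = ∫ u : ℝ, kf u * exp (-(s * u)) := by
    intro s hs
    have hs1 : 0 < s.re := hσ.trans hs
    have i1 : Integrable fun u : ℝ => (Er lam c r 0 u : ℂ) * exp (-(s * u)) := by
      obtain ⟨C₂, hC₂, hb⟩ := er_le D r 0
      refine (hI (by linarith : 0 < s.re - σ) C₂).mono'
        ((Complex.measurable_ofReal.comp (er_meas D r 0)).mul (by fun_prop)).aestronglyMeasurable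
        (Eventually.of_forall fun u => ?_)
      rw [norm_mul, norm_exp_neg, Complex.norm_real, Real.norm_eq_abs]
      rcases lt_or_ge u 0 with hu | hu
      · rw [er_zero D r 0 hu.le, abs_zero, zero_mul, indicator_of_notMem (by simpa using hu)]
      · rw [indicator_of_mem (show u ∈ Ici (0 : ℝ) from hu)]
        calc _ ≤ (C₂ * Real.exp (σ * u)) * Real.exp (-(s.re * u)) :=
              mul_le_mul_of_nonneg_right (hb u) (Real.exp_pos _).le
          _ = C₂ * (Real.exp (σ * u) * Real.exp (-(s.re * u))) := by ring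
          _ = _ := by
            rw [← Real.exp_add]
            ring_nf
    have i2 : Integrable fun u : ℝ => c' * (Ici (0 : ℝ)).indicator (fun T : ℝ => exp (-(s * T))) u :=
      (integrable_step hs1 0).const_mul _
    have e0 : ∀ᵐ u : ℝ, kf u * exp (-(s * u)) = (Er lam c r 0 u : ℂ) * exp (-(s * u)) -
        c' * (Ici (0 : ℝ)).indicator (fun T : ℝ => exp (-(s * T))) u := by
      have h0 : ∀ᵐ u : ℝ, u ≠ 0 := by
        rw [ae_iff]
        simp
      filter_upwards [h0] with u hu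
      rw [hkf]
      simp only
      by_cases h : 0 < u
      · rw [indicator_of_mem (show u ∈ Ioi (0 : ℝ) from h),
          indicator_of_mem (show u ∈ Ici (0 : ℝ) from h.le)]
        ring
      · have h' : u < 0 := lt_of_le_of_ne (not_lt.1 h) hu
        rw [indicator_of_notMem (show u ∉ Ioi (0 : ℝ) from h),
          indicator_of_notMem (show u ∉ Ici (0 : ℝ) from not_le.2 h')]
        ring
    rw [integral_congr_ae e0, integral_sub i1 i2, integral_const_mul, er_lap D r 0 hs,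
      integral_step hs1, hH]
    simp only [Complex.ofReal_zero, mul_zero, neg_zero, Complex.exp_zero]
    rw [hLf s hs]
    ring
  -- boundedness on strips
  have hbd : ∀ δ' : ℝ, 0 < δ' → ∃ B : ℝ, ∀ s : ℂ, δ' ≤ s.re → s.re ≤ σ + 1 → ‖H s‖ ≤ B := by
    intro δ' hδ'
    obtain ⟨B, hB, hBB⟩ := hLD.pow hδ' (ε := 1) one_pos
    set B2 : ℝ := |r| * (|Real.log (1 - Real.exp (-δ'))| + 1 + Real.pi) + ‖c'‖ with hB2
    have hpi := Real.pi_pos
    have hB20 : 0 ≤ B2 := by positivity
    refine ⟨(B + B2) * (1 / δ' + 1), fun s hs _ => ?_⟩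
    have hs1 : 0 < s.re := hδ'.trans_le hs
    have hn : 0 < ‖s‖ := norm_pos_iff.2 (hs0 s hs1)
    rw [hH]
    simp only
    rw [norm_div, div_le_iff₀ hn]
    have e1 := hBB s hs
    rw [Real.rpow_one] at e1
    have e2 := log_one_sub_bd hδ' hs
    have e3 : ‖-L s + r * log (1 - exp (-s)) - c'‖ ≤ ‖L s‖ + |r| * ‖log (1 - exp (-s))‖ + ‖c'‖ := by
      refine (norm_sub_le _ _).trans ?_
      gcongr
      refine (norm_add_le _ _).trans ?_
      rw [norm_neg, norm_mul, Complex.norm_real, Real.norm_eq_abs]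
    have e4 := mul_le_mul_of_nonneg_left e2 (abs_nonneg r)
    have e5 : 1 ≤ 1 / δ' * ‖s‖ := by
      rw [one_div, inv_mul_eq_div, one_le_div hδ']
      exact hs.trans (Complex.re_le_norm s)
    have e6 : |s.im| ≤ ‖s‖ := Complex.abs_im_le_norm s
    have e7 : B * (1 + |s.im|) + B2 ≤ (B + B2) * (1 / δ' + 1) * ‖s‖ := by
      calc B * (1 + |s.im|) + B2 ≤ B * (1 / δ' * ‖s‖ + ‖s‖) + B2 * (1 / δ' * ‖s‖ + ‖s‖) := by
            have : (1 : ℝ) ≤ 1 / δ' * ‖s‖ + ‖s‖ := by linarith
            have h8 : B * (1 + |s.im|) ≤ B * (1 / δ' * ‖s‖ + ‖s‖) :=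
              mul_le_mul_of_nonneg_left (by linarith) hB
            have h9 : B2 * 1 ≤ B2 * (1 / δ' * ‖s‖ + ‖s‖) := mul_le_mul_of_nonneg_left this hB20
            linarith
        _ = _ := by ring
    linarith
  -- the bound near zero
  obtain ⟨r₁, Cn, hr₁, hCn, hnear⟩ : ∃ r₁ Cn : ℝ, 0 < r₁ ∧ 0 ≤ Cn ∧ ∀ s : ℂ, 0 < s.re → ‖s‖ < r₁ →
      ‖H s‖ ≤ Cn := by
    have hΓat : ContinuousAt Γ 0 := hΓc.continuousAt (Metric.ball_mem_nhds 0 hr₀)
    obtain ⟨ρ₁, hρ₁, hb1⟩ := Metric.continuousAt_iff.1 hΓat (1 / 2) (by norm_num)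
    obtain ⟨Cg, hCg⟩ := hg.differentiableAt.isBigO_sub.bound
    obtain ⟨ρ₂, hρ₂, hb2⟩ := Metric.eventually_nhds_iff_ball.1 (hCg.and near)
    refine ⟨min (min r₀ ρ₁) (min ρ₂ (1 / 2)), |r| * 2 + 2 * (|Cg| / ‖g 0‖), by positivity,
      by positivity, fun s hs hsn => ?_⟩
    have hn : 0 < ‖s‖ := norm_pos_iff.2 (hs0 s hs)
    have m1 : ‖s‖ < r₀ := hsn.trans_le ((min_le_left _ _).trans (min_le_left _ _))
    have m2 : ‖s‖ < ρ₁ := hsn.trans_le ((min_le_left _ _).trans (min_le_right _ _))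
    have m3 : ‖s‖ < ρ₂ := hsn.trans_le ((min_le_right _ _).trans (min_le_left _ _))
    have m4 : ‖s‖ < 1 / 2 := hsn.trans_le ((min_le_right _ _).trans (min_le_right _ _))
    have e1 := hΓn s hs m1
    have e2 : ‖Γ s - Γ 0‖ ≤ 1 / 2 := by
      have := hb1 (x := s) (by rwa [dist_zero_right])
      rw [dist_eq_norm] at this
      exact this.le
    obtain ⟨e3, e4⟩ := hb2 s (by rwa [Metric.mem_ball, dist_zero_right])
    have e5 : exp (Γ s - Γ 0) = g s / g 0 := by
      have h1 : exp (L1 s) = s ^ p * exp (Γ s) := by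
        rw [e1, Complex.exp_add, Complex.exp_nat_mul, Complex.exp_log (hs0 s hs)]
      rw [hL1e s hs, e4] at h1
      have h2 := mul_left_cancel₀ (pow_ne_zero p (hs0 s hs)) h1
      rw [Complex.exp_sub, hΓ0, ← h2]
    have e6 : ‖Γ s - Γ 0‖ ≤ 2 * (|Cg| / ‖g 0‖) * ‖s‖ := by
      have h1 := exp_small e2
      rw [e5] at h1
      have h2 : ‖g s / g 0 - 1‖ ≤ |Cg| / ‖g 0‖ * ‖s‖ := by
        have h3 : g s / g 0 - 1 = (g s - g 0) / g 0 := by
          field_simp
        rw [h3, norm_div, div_mul_eq_mul_div]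
        apply div_le_div_of_nonneg_right _ (norm_nonneg _)
        rw [sub_zero] at e3
        exact e3.trans (mul_le_mul_of_nonneg_right (le_abs_self _) (norm_nonneg _))
      linarith
    have e7 := log_one_sub_c hs m4.le
    have e8 : -L s + r * log (1 - exp (-s)) - c' =
        r * (log (1 - exp (-s)) - log s) - (Γ s - Γ 0) := by
      have h1 : L s = p * log s + Γ s - k * log s := by
        rw [← e1, hL1]
        ring
      rw [h1, hc', hr]
      push_cast
      ring
    rw [hH]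
    simp only
    rw [e8, norm_div, div_le_iff₀ hn]
    refine (norm_sub_le _ _).trans ?_
    rw [norm_mul, Complex.norm_real, Real.norm_eq_abs]
    have e9 := mul_le_mul_of_nonneg_left e7 (abs_nonneg r)
    calc |r| * ‖log (1 - exp (-s)) - log s‖ + ‖Γ s - Γ 0‖
        ≤ |r| * (2 * ‖s‖) + 2 * (|Cg| / ‖g 0‖) * ‖s‖ := by linarith
      _ = _ := by ring
  -- the three square means
  have ha : 1 ≤ σ + 1 := by linarith
  have hmL : ∀ T : ℝ, ‖L1 (((σ + 1 : ℝ) : ℂ) + T * I)‖ ≤
      (A₀ + k * (Real.log (2 * (σ + 1)) + 4)) * (1 + Real.log (1 + |T|)) := by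
    intro T
    have l0 : 0 ≤ Real.log (1 + |T|) := Real.log_nonneg (by linarith [abs_nonneg T])
    have e1 := hLD.far (((σ + 1 : ℝ) : ℂ) + T * I) (by simp)
    have e2 := log_line ha T
    rw [hL1]
    simp only
    refine (norm_add_le _ _).trans ?_
    rw [norm_mul, Complex.norm_natCast]
    have e3 := mul_le_mul_of_nonneg_left e2 (Nat.cast_nonneg k : (0 : ℝ) ≤ k)
    have e4 : 0 ≤ A₀ * Real.log (1 + |T|) := mul_nonneg hLD.A0.le l0
    calc _ ≤ A₀ + k * ((Real.log (2 * (σ + 1)) + 4) * (1 + Real.log (1 + |T|))) :=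
          add_le_add e1 e3
      _ ≤ _ := by nlinarith
  have hl2 : 0 ≤ Real.log (2 * (σ + 1)) := Real.log_nonneg (by linarith)
  obtain ⟨K1, hK1, hb1⟩ := glob_L2 (F := G₀) (L := L1) (a := σ + 1) hη ha
    (by have := hLD.A0; positivity : 0 ≤ A₀ + k * (Real.log (2 * (σ + 1)) + 4)) hG hgrow hL1d hL1e hmL
  obtain ⟨K2, hK2, hb2⟩ := glob_L2 (F := fun s => s) (L := fun s => log s) (a := σ + 1) (C := 1)
    (κ := 1) hη ha (by positivity : 0 ≤ Real.log (2 * (σ + 1)) + 4)
    (fun s _ => differentiableAt_id)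
    (fun s _ => by rw [one_mul, pow_one]; linarith) hlogd
    (fun s hs => Complex.exp_log (hs0 s hs)) (fun T => log_line ha T)
  have hB30 : 0 ≤ |Real.log (1 - Real.exp (-(σ + 1)))| + 1 + Real.pi := by
    have := Real.pi_pos
    positivity
  obtain ⟨K3, hK3, hb3⟩ := glob_L2 (F := fun s => 1 - exp (-s)) (L := fun s => log (1 - exp (-s)))
    (a := σ + 1) (C := 1 + Real.exp η) (κ := 0) hη ha hB30
    (fun s _ => by fun_prop)
    (fun s hs => by
      rw [pow_zero, mul_one]
      refine (norm_sub_le _ _).trans ?_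
      rw [norm_one, Complex.norm_exp]
      have : Real.exp (-s).re ≤ Real.exp η := by
        apply Real.exp_le_exp.2
        rw [Complex.neg_re]
        linarith
      linarith) hlog1d
    (fun s hs => Complex.exp_log (fun h => by
      have := slit_one_sub hs
      rw [h] at this
      exact Complex.zero_notMem_slitPlane this)) (fun T => by
      have e1 := log_one_sub_bd (δ' := σ + 1) (by linarith) (s := ((σ + 1 : ℝ) : ℂ) + T * I)
        (by simp)
      have l0 : 0 ≤ Real.log (1 + |T|) := Real.log_nonneg (by linarith [abs_nonneg T])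
      refine e1.trans ?_
      nlinarith)
  -- the bound for `H`
  set τ : ℝ := r₁ / 2 with hτ
  have hτ0 : 0 < τ := by rw [hτ]; linarith
  set Cτ : ℝ := 1 + 1 / τ ^ 2 with hCτ
  set K : ℝ≥0∞ := ENNReal.ofReal (Cn ^ 2) * ENNReal.ofReal (2 * τ) +
    ENNReal.ofReal (4 * Cτ) * (K1 + ENNReal.ofReal ((k : ℝ) ^ 2) * K2 +
      ENNReal.ofReal (r ^ 2) * K3 + ENNReal.ofReal (‖c'‖ ^ 2) *
        ∫⁻ T : ℝ, wq T * ENNReal.ofReal ((1 + Real.log (1 + |T|)) ^ 2)) with hK
  have hKt : K < ⊤ := by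
    rw [hK]
    refine ENNReal.add_lt_top.2 ⟨ENNReal.mul_lt_top ENNReal.ofReal_lt_top ENNReal.ofReal_lt_top,
      ENNReal.mul_lt_top ENNReal.ofReal_lt_top ?_⟩
    refine ENNReal.add_lt_top.2 ⟨ENNReal.add_lt_top.2 ⟨ENNReal.add_lt_top.2 ⟨hK1, ?_⟩, ?_⟩, ?_⟩
    · exact ENNReal.mul_lt_top ENNReal.ofReal_lt_top hK2
    · exact ENNReal.mul_lt_top ENNReal.ofReal_lt_top hK3
    · exact ENNReal.mul_lt_top ENNReal.ofReal_lt_top wq_log_fin
  have hmain : ∀ δ' : ℝ, 0 < δ' → δ' < min 1 τ → ∫⁻ t : ℝ, ‖H (δ' + t * I)‖ₑ ^ 2 ≤ K := by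
    intro δ' hδ' hδ1
    have d1 : δ' ≤ 1 := (hδ1.trans_le (min_le_left _ _)).le
    have d2 : δ' < τ := hδ1.trans_le (min_le_right _ _)
    have hpt : ∀ t : ℝ, ‖H (δ' + t * I)‖ₑ ^ 2 ≤
        (Icc (-τ) τ).indicator (fun _ => ENNReal.ofReal (Cn ^ 2)) t +
        ENNReal.ofReal (4 * Cτ) * (‖L1 (δ' + t * I)‖ₑ ^ 2 * wq t +
          ENNReal.ofReal ((k : ℝ) ^ 2) * (‖log (δ' + t * I)‖ₑ ^ 2 * wq t) +
          ENNReal.ofReal (r ^ 2) * (‖log (1 - exp (-(δ' + t * I)))‖ₑ ^ 2 * wq t) +
          ENNReal.ofReal (‖c'‖ ^ 2) * (wq t * ENNReal.ofReal ((1 + Real.log (1 + |t|)) ^ 2))) := by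
      intro t
      set s : ℂ := δ' + t * I with hs
      have hsre : s.re = δ' := by simp [hs]
      have hsim : s.im = t := by simp [hs]
      have hs1 : 0 < s.re := by rw [hsre]; exact hδ'
      have hen : ∀ z : ℂ, ‖z‖ₑ ^ 2 = ENNReal.ofReal (‖z‖ ^ 2) := by
        intro z
        rw [← ofReal_norm, ENNReal.ofReal_pow (norm_nonneg _)]
      by_cases ht : t ∈ Icc (-τ) τ
      · rw [indicator_of_mem ht]
        refine le_trans ?_ le_self_add
        rw [hen]
        apply ENNReal.ofReal_le_ofReal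
        apply pow_le_pow_left₀ (norm_nonneg _)
        refine hnear s hs1 ?_
        have e1 := Complex.norm_le_abs_re_add_abs_im s
        rw [hsre, hsim, abs_of_pos hδ'] at e1
        have e2 : |t| ≤ τ := abs_le.2 ht
        linarith
      · rw [indicator_of_notMem ht, zero_add]
        have ht2 : τ < |t| := by
          by_contra hcon
          exact ht (abs_le.1 (not_lt.1 hcon))
        have hn : |t| ≤ ‖s‖ := by
          rw [← hsim]
          exact Complex.abs_im_le_norm s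
        have hn0 : 0 < ‖s‖ := (hτ0.trans ht2).trans_le hn
        have l0 : 0 ≤ Real.log (1 + |t|) := Real.log_nonneg (by linarith [abs_nonneg t])
        simp only [hen, wq]
        rw [← ENNReal.ofReal_mul (by positivity), ← ENNReal.ofReal_mul (by positivity),
          ← ENNReal.ofReal_mul (by positivity), ← ENNReal.ofReal_mul (by positivity),
          ← ENNReal.ofReal_mul (by positivity), ← ENNReal.ofReal_mul (by positivity),
          ← ENNReal.ofReal_mul (by positivity), ← ENNReal.ofReal_add (by positivity) (by positivity),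
          ← ENNReal.ofReal_add (by positivity) (by positivity),
          ← ENNReal.ofReal_add (by positivity) (by positivity),
          ← ENNReal.ofReal_mul (by positivity)]
        apply ENNReal.ofReal_le_ofReal
        have e1 : ‖-L s + r * log (1 - exp (-s)) - c'‖ ≤
            ‖L1 s‖ + k * ‖log s‖ + |r| * ‖log (1 - exp (-s))‖ + ‖c'‖ := by
          have h1 : -L s = -L1 s + k * log s := by rw [hL1]; ring
          rw [h1]
          refine (norm_sub_le _ _).trans ?_
          gcongr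
          refine (norm_add_le _ _).trans ?_
          rw [norm_mul (r : ℂ), Complex.norm_real, Real.norm_eq_abs]
          gcongr
          refine (norm_add_le _ _).trans ?_
          rw [norm_neg, norm_mul, Complex.norm_natCast]
        have e2 : ‖H s‖ ^ 2 ≤ (‖L1 s‖ + k * ‖log s‖ + |r| * ‖log (1 - exp (-s))‖ + ‖c'‖) ^ 2 /
            t ^ 2 := by
          rw [hH]
          simp only
          rw [norm_div, div_pow]
          have e3 : t ^ 2 ≤ ‖s‖ ^ 2 := by
            rw [← sq_abs]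
            exact pow_le_pow_left₀ (abs_nonneg _) hn 2
          have e4 : 0 < t ^ 2 := by
            rw [← sq_abs]
            have := hτ0.trans ht2
            positivity
          exact div_le_div₀ (by positivity) (pow_le_pow_left₀ (norm_nonneg _) e1 2) e4 e3
        have e3 : 1 / t ^ 2 ≤ Cτ * (1 / (1 + t ^ 2)) := by
          have e4 : τ ^ 2 < t ^ 2 := by
            rw [← sq_abs t]
            exact pow_lt_pow_left₀ ht2 hτ0.le (by norm_num)
          have e5 : 0 < t ^ 2 := (by positivity : 0 < τ ^ 2).trans e4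
          rw [hCτ, mul_one_div, div_le_div_iff₀ e5 (by positivity), one_mul]
          have e6 : 1 ≤ 1 / τ ^ 2 * t ^ 2 := by
            rw [one_div, inv_mul_eq_div, one_le_div (by positivity)]
            exact e4.le
          nlinarith
        set a1 := ‖L1 s‖
        set a2 := (k : ℝ) * ‖log s‖ with ha2
        set a3 := |r| * ‖log (1 - exp (-s))‖ with ha3
        set a4 := ‖c'‖
        have e4 : (a1 + a2 + a3 + a4) ^ 2 ≤ 4 * (a1 ^ 2 + a2 ^ 2 + a3 ^ 2 + a4 ^ 2) := by
          nlinarith [sq_nonneg (a1 - a2), sq_nonneg (a1 - a3), sq_nonneg (a1 - a4),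
            sq_nonneg (a2 - a3), sq_nonneg (a2 - a4), sq_nonneg (a3 - a4)]
        have e5 : a4 ^ 2 ≤ a4 ^ 2 * (1 + Real.log (1 + |t|)) ^ 2 := by
          have : 1 ≤ (1 + Real.log (1 + |t|)) ^ 2 := one_le_pow₀ (by linarith)
          nlinarith [sq_nonneg a4]
        have e6 : a2 ^ 2 = (k : ℝ) ^ 2 * ‖log s‖ ^ 2 := by rw [ha2]; ring
        have e7 : a3 ^ 2 = r ^ 2 * ‖log (1 - exp (-s))‖ ^ 2 := by
          rw [ha3, mul_pow, sq_abs]
        have hw0 : 0 ≤ 1 / (1 + t ^ 2) := by positivity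
        calc ‖H s‖ ^ 2 ≤ (a1 + a2 + a3 + a4) ^ 2 * (1 / t ^ 2) := by
              rw [mul_one_div]
              exact e2
          _ ≤ (4 * (a1 ^ 2 + a2 ^ 2 + a3 ^ 2 + a4 ^ 2)) * (Cτ * (1 / (1 + t ^ 2))) :=
              mul_le_mul e4 e3 (by positivity) (by positivity)
          _ ≤ (4 * (a1 ^ 2 + a2 ^ 2 + a3 ^ 2 + a4 ^ 2 * (1 + Real.log (1 + |t|)) ^ 2)) *
              (Cτ * (1 / (1 + t ^ 2))) := by
              apply mul_le_mul_of_nonneg_right _ (by positivity)
              linarith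
          _ = _ := by
              rw [e6, e7]
              ring
    have m1 : Measurable fun t : ℝ => ‖L1 (δ' + t * I)‖ₑ ^ 2 * wq t :=
      (line_meas (L := L1) (fun s hs => (hL1d s hs).continuousAt) hδ').mul wq_meas
    have m2 := (line_meas (L := fun s => log s) (fun s hs => (hlogd s hs).continuousAt) hδ').mul
      wq_meas
    have m3 := (line_meas (L := fun s => log (1 - exp (-s)))
      (fun s hs => (hlog1d s hs).continuousAt) hδ').mul wq_meas
    have m5 : Measurable fun t : ℝ => (Icc (-τ) τ).indicator (fun _ => ENNReal.ofReal (Cn ^ 2)) t :=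
      measurable_const.indicator measurableSet_Icc
    refine (lintegral_mono hpt).trans ?_
    rw [lintegral_add_left m5, lintegral_indicator measurableSet_Icc, setLIntegral_const,
      Real.volume_Icc, lintegral_const_mul' _ _ ENNReal.ofReal_ne_top, hK]
    have e0 : τ - -τ = 2 * τ := by ring
    rw [e0]
    gcongr
    have q1 : Measurable fun t : ℝ => ‖L1 (δ' + t * I)‖ₑ ^ 2 * wq t +
          ENNReal.ofReal ((k : ℝ) ^ 2) * (‖log (δ' + t * I)‖ₑ ^ 2 * wq t) +
          ENNReal.ofReal (r ^ 2) * (‖log (1 - exp (-(δ' + t * I)))‖ₑ ^ 2 * wq t) :=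
      (m1.add (m2.const_mul _)).add (m3.const_mul _)
    have q2 : Measurable fun t : ℝ => ‖L1 (δ' + t * I)‖ₑ ^ 2 * wq t +
          ENNReal.ofReal ((k : ℝ) ^ 2) * (‖log (δ' + t * I)‖ₑ ^ 2 * wq t) :=
      m1.add (m2.const_mul _)
    rw [lintegral_add_left q1, lintegral_add_left q2, lintegral_add_left m1,
      lintegral_const_mul' _ _ ENNReal.ofReal_ne_top, lintegral_const_mul' _ _ ENNReal.ofReal_ne_top,
      lintegral_const_mul' _ _ ENNReal.ofReal_ne_top]
    gcongr
    · exact hb1 δ' hδ' d1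
    · exact hb2 δ' hδ' d1
    · exact hb3 δ' hδ' d1
  have hfin := paley_wiener hσ.le (lt_min one_pos hτ0) hk1 hk2 hHk hHd hbd hmain
  -- the constant is real
  have him : c'.im = 0 := by
    by_contra hcon
    have h1 : ∫⁻ u in Ioi (0 : ℝ), ENNReal.ofReal (c'.im ^ 2) ≤ ∫⁻ u : ℝ, ‖kf u‖ₑ ^ 2 := by
      refine le_trans (setLIntegral_mono_ae' measurableSet_Ioi ?_) (setLIntegral_le_lintegral _ _)
      refine Eventually.of_forall fun u hu => ?_
      have e1 : kf u = (Er lam c r 0 u : ℂ) - c' := by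
        rw [hkf]
        simp only
        rw [indicator_of_mem hu]
      rw [← ofReal_norm, ← ENNReal.ofReal_pow (norm_nonneg _)]
      apply ENNReal.ofReal_le_ofReal
      have e2 := Complex.abs_im_le_norm (kf u)
      rw [e1, Complex.sub_im, Complex.ofReal_im, zero_sub, abs_neg] at e2
      rw [← sq_abs, e1]
      exact pow_le_pow_left₀ (abs_nonneg _) e2 2
    rw [setLIntegral_const, Real.volume_Ioi, ENNReal.mul_top (by
      rw [Ne, ENNReal.ofReal_eq_zero, not_le]
      positivity)] at h1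
    exact absurd (h1.trans hfin) (not_le.2 hKt)
  refine ⟨c'.re, ?_, ?_⟩
  · have h1 : ((c'.re : ℝ) : ℂ) = c' := by
      apply Complex.ext
      · simp
      · simp [him]
    push_cast
    rw [h1, hc', neg_neg, hΓ0]
  · refine lt_of_le_of_lt (le_trans (lintegral_mono fun u => ?_) hfin) hKt
    rw [← ofReal_norm, ← ENNReal.ofReal_pow (norm_nonneg _)]
    apply ENNReal.ofReal_le_ofReal
    have e1 : ((Er lam c r c'.re u : ℝ) : ℂ) = kf u := by
      rw [hkf]
      simp only
      have h1 : ((c'.re : ℝ) : ℂ) = c' := by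
        apply Complex.ext
        · simp
        · simp [him]
      unfold Er
      by_cases hu : u ∈ Ioi (0 : ℝ)
      · rw [indicator_of_mem hu, indicator_of_mem hu, indicator_of_mem hu]
        push_cast
        rw [h1]
        ring
      · rw [indicator_of_notMem hu, indicator_of_notMem hu, indicator_of_notMem hu]
        simp
    rw [← e1, Complex.norm_real, Real.norm_eq_abs, sq_abs]

end Pool.Agent.TH270.MS
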