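import Pool.Agent.H21.L.R_seed8.TH270.MS.LocL2

/-!
# Square means of logarithms over vertical lines
-/

set_option autoImplicit false

open MeasureTheory Filter Topology Set Complex
open scoped ENNReal

namespace Pool.Agent.TH270.MS

/-- the weight `1 / (1 + t²)` -/
noncomputable def wq (t : ℝ) : ℝ≥0∞ := ENNReal.ofReal (1 / (1 + t ^ 2))

lemma wq_meas : Measurable wq := by
  unfold wq
  exact ENNReal.measurable_ofReal.comp (by fun_prop)

lemma wq_near {h t T : ℝ} (h1 : h ≤ 1) (hT : T ∈ Icc (t - h) (t + h)) :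
    wq t ≤ 3 * wq T := by
  unfold wq
  rw [show (3 : ℝ≥0∞) = ENNReal.ofReal 3 by norm_num, ← ENNReal.ofReal_mul (by norm_num)]
  apply ENNReal.ofReal_le_ofReal
  have h2 : (T - t) ^ 2 ≤ 1 := by
    have e1 := hT.1
    have e2 := hT.2
    nlinarith
  rw [mul_one_div, div_le_div_iff₀ (by positivity) (by positivity)]
  nlinarith [sq_nonneg (T - 2 * t)]

/-- **Averaging over short intervals.** -/
theorem avg_short {f β : ℝ → ℝ≥0∞} (hf : Measurable f) {h : ℝ} (h0 : 0 < h) (h1 : h ≤ 1)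
    (hβ : ∀ T : ℝ, ∫⁻ t in Icc (T - h) (T + h), f t ≤ β T) :
    ∫⁻ t : ℝ, f t * wq t ≤ ENNReal.ofReal (3 / (2 * h)) * ∫⁻ T : ℝ, wq T * β T := by
  have e1 : ∫⁻ T : ℝ, wq T * ∫⁻ t in Icc (T - h) (T + h), f t ≤ ∫⁻ T : ℝ, wq T * β T :=
    lintegral_mono fun T => mul_le_mul_right (hβ T) _
  refine le_trans ?_ (mul_le_mul_right e1 _)
  have e2 : ∀ T : ℝ, wq T * ∫⁻ t in Icc (T - h) (T + h), f t =
      ∫⁻ t : ℝ, (if T - h ≤ t ∧ t ≤ T + h then wq T * f t else 0) := by
    intro T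
    rw [← lintegral_const_mul _ hf, ← lintegral_indicator measurableSet_Icc]
    refine lintegral_congr fun t => ?_
    by_cases ht : T - h ≤ t ∧ t ≤ T + h
    · rw [indicator_of_mem (show t ∈ Icc (T - h) (T + h) from ht), if_pos ht]
    · rw [indicator_of_notMem (show t ∉ Icc (T - h) (T + h) from ht), if_neg ht]
  simp_rw [e2]
  rw [lintegral_lintegral_swap]
  · have e3 : ∀ t : ℝ, f t * wq t ≤ ENNReal.ofReal (3 / (2 * h)) *
        ∫⁻ T : ℝ, (if T - h ≤ t ∧ t ≤ T + h then wq T * f t else 0) := by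
      intro t
      have e4 : ∫⁻ T in Icc (t - h) (t + h), wq t * f t ≤
          3 * ∫⁻ T : ℝ, (if T - h ≤ t ∧ t ≤ T + h then wq T * f t else 0) := by
        rw [← lintegral_indicator measurableSet_Icc, ← lintegral_const_mul' _ _ (by norm_num)]
        refine lintegral_mono fun T => ?_
        by_cases hT : T ∈ Icc (t - h) (t + h)
        · have h5 : T - h ≤ t ∧ t ≤ T + h := ⟨by linarith [hT.2], by linarith [hT.1]⟩
          rw [indicator_of_mem hT]
          simp only [h5, and_self, if_true]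
          rw [← mul_assoc]
          exact mul_le_mul_left (wq_near h1 hT) _
        · rw [indicator_of_notMem hT]
          exact bot_le
      rw [setLIntegral_const, Real.volume_Icc] at e4
      have e5 : t + h - (t - h) = 2 * h := by ring
      rw [e5] at e4
      have e6 : ENNReal.ofReal (3 / (2 * h)) = ENNReal.ofReal (1 / (2 * h)) * 3 := by
        rw [show (3 : ℝ≥0∞) = ENNReal.ofReal 3 by norm_num, ← ENNReal.ofReal_mul (by positivity)]
        congr 1
        ring
      have e7 : ENNReal.ofReal (1 / (2 * h)) * ENNReal.ofReal (2 * h) = 1 := by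
        rw [← ENNReal.ofReal_mul (by positivity)]
        rw [show 1 / (2 * h) * (2 * h) = 1 by field_simp, ENNReal.ofReal_one]
      rw [e6, mul_assoc]
      calc f t * wq t = (ENNReal.ofReal (1 / (2 * h)) * ENNReal.ofReal (2 * h)) * (wq t * f t) := by
            rw [e7, one_mul, mul_comm]
        _ = ENNReal.ofReal (1 / (2 * h)) * (wq t * f t * ENNReal.ofReal (2 * h)) := by ring
        _ ≤ _ := mul_le_mul_right e4 _
    calc _ ≤ ∫⁻ t : ℝ, ENNReal.ofReal (3 / (2 * h)) *
          ∫⁻ T : ℝ, (if T - h ≤ t ∧ t ≤ T + h then wq T * f t else 0) := lintegral_mono e3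
      _ = _ := by
        rw [lintegral_const_mul' _ _ ENNReal.ofReal_ne_top]
  · refine Measurable.aemeasurable ?_
    refine Measurable.ite ?_ ((wq_meas.comp measurable_fst).mul (hf.comp measurable_snd))
      measurable_const
    exact (measurableSet_le (measurable_fst.sub_const h) measurable_snd).inter
      (measurableSet_le measurable_snd (measurable_fst.add_const h))

lemma log_sq_le (T : ℝ) : (1 + Real.log (1 + |T|)) ^ 2 ≤ 16 * (1 + |T|) ^ (1 / 2 : ℝ) := by
  have h0 : 0 < 1 + |T| := by positivity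
  set y : ℝ := (1 + |T|) ^ (1 / 4 : ℝ) with hy
  have hy0 : 0 < y := Real.rpow_pos_of_pos h0 _
  have h1 : 1 + |T| = y ^ 4 := by
    rw [hy, ← Real.rpow_natCast, ← Real.rpow_mul h0.le]
    norm_num
  have h2 : (1 + |T|) ^ (1 / 2 : ℝ) = y ^ 2 := by
    rw [hy, ← Real.rpow_natCast, ← Real.rpow_mul h0.le]
    norm_num
  have h3 : Real.log (1 + |T|) = 4 * Real.log y := by
    rw [h1, Real.log_pow]
    norm_num
  have h4 : Real.log y ≤ y - 1 := Real.log_le_sub_one_of_pos hy0
  have h5 : 0 ≤ Real.log (1 + |T|) := Real.log_nonneg (by linarith [abs_nonneg T])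
  rw [h2]
  have h6 : 1 + Real.log (1 + |T|) ≤ 4 * y := by linarith
  calc (1 + Real.log (1 + |T|)) ^ 2 ≤ (4 * y) ^ 2 := pow_le_pow_left₀ (by linarith) h6 2
    _ = _ := by ring

lemma wq_log_fin : ∫⁻ T : ℝ, wq T * ENNReal.ofReal ((1 + Real.log (1 + |T|)) ^ 2) < ⊤ := by
  have h1 : Integrable (fun y : ℝ => 32 * (1 + |y|) ^ (-(3 / 2 : ℝ))) := by
    have := integrable_one_add_norm (E := ℝ) (μ := volume) (r := 3 / 2) (by simp; norm_num)
    simp only [Real.norm_eq_abs] at this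
    exact this.const_mul 32
  refine lt_of_le_of_lt ?_ h1.2
  refine lintegral_mono fun T => ?_
  unfold wq
  rw [← ENNReal.ofReal_mul (by positivity), ← ofReal_norm]
  apply ENNReal.ofReal_le_ofReal
  have h0 : 0 < 1 + |T| := by positivity
  rw [Real.norm_of_nonneg (by positivity)]
  have h2 : (1 + |T|) ^ (-(3 / 2 : ℝ)) = (1 + |T|) ^ (1 / 2 : ℝ) / (1 + |T|) ^ 2 := by
    rw [← Real.rpow_natCast, ← Real.rpow_sub h0]
    norm_num
  change _ ≤ 32 * (1 + |T|) ^ (-(3 / 2 : ℝ))
  rw [h2]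
  have h3 : (1 + |T|) ^ 2 ≤ 2 * (1 + T ^ 2) := by
    have := sq_abs T
    nlinarith [sq_nonneg (|T| - 1)]
  have h4 := log_sq_le T
  have h5 : 1 / (1 + T ^ 2) ≤ 2 / (1 + |T|) ^ 2 := by
    rw [div_le_div_iff₀ (by positivity) (by positivity)]
    linarith
  have h6 : 0 ≤ (1 + |T|) ^ (1 / 2 : ℝ) := by positivity
  calc 1 / (1 + T ^ 2) * (1 + Real.log (1 + |T|)) ^ 2
      ≤ 2 / (1 + |T|) ^ 2 * (16 * (1 + |T|) ^ (1 / 2 : ℝ)) :=
        mul_le_mul h5 h4 (by positivity) (by positivity)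
    _ = _ := by ring

/-- **Global bound.** -/
theorem glob_L2 {F L : ℂ → ℂ} {η a C B : ℝ} {κ : ℕ} (hη : 0 < η) (ha : 1 ≤ a) (hB : 0 ≤ B)
    (hF : ∀ s : ℂ, -η < s.re → DifferentiableAt ℂ F s)
    (hgrow : ∀ s : ℂ, -η < s.re → ‖F s‖ ≤ C * (1 + ‖s‖) ^ κ)
    (hL : ∀ s : ℂ, 0 < s.re → DifferentiableAt ℂ L s)
    (hexp : ∀ s : ℂ, 0 < s.re → exp (L s) = F s)
    (hm : ∀ T : ℝ, ‖L (a + T * I)‖ ≤ B * (1 + Real.log (1 + |T|))) :
    ∃ K : ℝ≥0∞, K < ⊤ ∧ ∀ x : ℝ, 0 < x → x ≤ 1 → ∫⁻ t : ℝ, ‖L (x + t * I)‖ₑ ^ 2 * wq t ≤ K := by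
  set η' : ℝ := min η 1 with hη'
  have hη'0 : 0 < η' := lt_min hη one_pos
  have hη'1 : η' ≤ 1 := min_le_right _ _
  have hη'η : η' ≤ η := min_le_left _ _
  obtain ⟨K₀, hK₀, hloc⟩ := local_L2 hη'0 hη'1 ha
  set lc : ℝ := Real.log (|C| + 1) + κ * Real.log (2 * a + 2) with hlc
  have hlc0 : 0 ≤ lc := by
    have e1 : 0 ≤ Real.log (|C| + 1) := Real.log_nonneg (by linarith [abs_nonneg C])
    have e2 : 0 ≤ Real.log (2 * a + 2) := Real.log_nonneg (by linarith)
    positivity
  set K₁ : ℝ := K₀ * (1 + B + (lc + κ)) ^ 2 with hK₁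
  have hK₁0 : 0 ≤ K₁ := by positivity
  refine ⟨ENNReal.ofReal (3 / (2 * (η' / 4))) * (ENNReal.ofReal K₁ *
    ∫⁻ T : ℝ, wq T * ENNReal.ofReal ((1 + Real.log (1 + |T|)) ^ 2)), ?_, fun x hx hx1 => ?_⟩
  · exact ENNReal.mul_lt_top ENNReal.ofReal_lt_top (ENNReal.mul_lt_top ENNReal.ofReal_lt_top
      wq_log_fin)
  · have hline : Continuous fun t : ℝ => L (x + t * I) := by
      rw [continuous_iff_continuousAt]
      intro t
      have h1 : ContinuousAt L ((x : ℂ) + t * I) := (hL _ (by simpa using hx)).continuousAt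
      exact ContinuousAt.comp (f := fun t : ℝ => (x : ℂ) + t * I) h1 (by fun_prop)
    have hmeas : Measurable fun t : ℝ => ‖L (x + t * I)‖ₑ ^ 2 := (hline.measurable.enorm).pow_const 2
    have key : ∀ T : ℝ, ∫⁻ t in Icc (T - η' / 4) (T + η' / 4), ‖L (x + t * I)‖ₑ ^ 2 ≤
        ENNReal.ofReal (K₁ * (1 + Real.log (1 + |T|)) ^ 2) := by
      intro T
      have hT0 := abs_nonneg T
      have l0 : 0 ≤ Real.log (1 + |T|) := Real.log_nonneg (by linarith)
      set M : ℝ := (|C| + 1) * ((2 * a + 2) * (1 + |T|)) ^ κ with hM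
      have hM1 : 1 ≤ M := by
        have e1 : 1 ≤ |C| + 1 := by linarith [abs_nonneg C]
        have e2 : 1 ≤ ((2 * a + 2) * (1 + |T|)) ^ κ := one_le_pow₀ (by nlinarith)
        nlinarith
      have h1 := hloc F L T M (B * (1 + Real.log (1 + |T|))) hM1 (by positivity)
        (fun s hs => hF s (by linarith)) (fun s hs hs2 => ?_) hL hexp (hm T) x hx hx1
      · refine h1.trans (ENNReal.ofReal_le_ofReal ?_)
        have e1 : Real.log M = lc + κ * Real.log (1 + |T|) := by
          rw [hM, Real.log_mul (by positivity) (by positivity), Real.log_pow,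
            Real.log_mul (by positivity) (by positivity), hlc]
          ring
        rw [e1, hK₁, mul_assoc, ← mul_pow]
        apply mul_le_mul_of_nonneg_left _ hK₀
        apply pow_le_pow_left₀ (by positivity)
        have e2 : 0 ≤ lc * Real.log (1 + |T|) := mul_nonneg hlc0 l0
        have e3 : (0 : ℝ) ≤ κ := Nat.cast_nonneg κ
        nlinarith
      · have e1 : ‖s‖ ≤ 2 * a + 1 + |T| := by
          have e2 : ‖s‖ ≤ ‖s - (a + T * I)‖ + ‖((a : ℂ) + T * I)‖ := by
            have := norm_add_le (s - ((a : ℂ) + T * I)) ((a : ℂ) + T * I)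
            simpa using this
          have e3 : ‖((a : ℂ) + T * I)‖ ≤ a + |T| := by
            refine (norm_add_le _ _).trans ?_
            rw [norm_mul, Complex.norm_I, mul_one, Complex.norm_real, Complex.norm_real,
              Real.norm_eq_abs, Real.norm_eq_abs, abs_of_nonneg (by linarith : 0 ≤ a)]
          linarith
        refine (hgrow s (by linarith)).trans ?_
        have e4 : C ≤ |C| + 1 := by linarith [le_abs_self C]
        have e5 : 1 + ‖s‖ ≤ (2 * a + 2) * (1 + |T|) := by nlinarith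
        calc C * (1 + ‖s‖) ^ κ ≤ (|C| + 1) * (1 + ‖s‖) ^ κ :=
              mul_le_mul_of_nonneg_right e4 (by positivity)
          _ ≤ M := by
            rw [hM]
            gcongr
    have h2 := avg_short hmeas (h := η' / 4) (by linarith) (by linarith) key
    refine h2.trans (le_of_eq ?_)
    congr 1
    rw [← lintegral_const_mul' _ _ ENNReal.ofReal_ne_top]
    refine lintegral_congr fun T => ?_
    rw [ENNReal.ofReal_mul hK₁0]
    ring

end Pool.Agent.TH270.MS
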