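import Mathlib
set_option autoImplicit false
open MeasureTheory Filter Topology Set Complex
open CongruenceSubgroup
open scoped MatrixGroups
namespace Pool.Agent.TH270.MS

namespace GrowL

lemma norm_Gamma_le {z : ℂ} (hz : 0 < z.re) : ‖Complex.Gamma z‖ ≤ Real.Gamma z.re := by
  rw [Complex.Gamma_eq_integral hz, Complex.GammaIntegral, Real.Gamma_eq_integral hz]
  refine (norm_integral_le_integral_norm _).trans_eq ?_
  apply setIntegral_congr_fun measurableSet_Ioi
  intro x hx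
  have hx : 0 < x := hx
  simp only [norm_mul, Complex.norm_real, Real.norm_of_nonneg (Real.exp_pos _).le]
  rw [Complex.norm_cpow_eq_rpow_re_of_pos hx]
  simp

lemma norm_sin_le (z : ℂ) : ‖Complex.sin z‖ ≤ Real.exp |z.im| := by
  rw [Complex.sin]
  rw [norm_div, norm_mul, Complex.norm_I, mul_one, Complex.norm_ofNat]
  have h1 : ‖Complex.exp (-z * Complex.I) - Complex.exp (z * Complex.I)‖ ≤
      Real.exp |z.im| + Real.exp |z.im| := by
    refine (norm_sub_le _ _).trans ?_
    rw [Complex.norm_exp, Complex.norm_exp]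
    apply add_le_add
    · apply Real.exp_le_exp.2
      have : (-z * Complex.I).re = z.im := by simp
      rw [this]; exact le_abs_self _
    · apply Real.exp_le_exp.2
      have : (z * Complex.I).re = -z.im := by simp
      rw [this]; exact neg_le_abs _
  linarith

lemma inv_Gamma_le {w : ℂ} (hw : w.re ≤ 0) :
    ‖(Complex.Gamma w)⁻¹‖ ≤ Real.Gamma (1 - w.re) * Real.exp (Real.pi * |w.im|) := by
  have h1 : 0 < (1 - w).re := by simp; linarith
  have hne : Complex.Gamma (1 - w) ≠ 0 := Complex.Gamma_ne_zero_of_re_pos h1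
  have h2 := Complex.Gamma_mul_Gamma_one_sub w
  have h3 : ‖Complex.Gamma (1 - w)‖ ≤ Real.Gamma (1 - w.re) := by
    have := norm_Gamma_le h1
    simpa using this
  have hG : 0 < Real.Gamma (1 - w.re) := Real.Gamma_pos_of_pos (by linarith)
  rcases eq_or_ne (Complex.sin (Real.pi * w)) 0 with hs | hs
  · rw [hs, div_zero] at h2
    have : Complex.Gamma w = 0 := by
      rcases mul_eq_zero.1 h2 with h | h
      · exact h
      · exact absurd h hne
    rw [this, inv_zero, norm_zero]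
    positivity
  · have hpi : (Real.pi : ℂ) ≠ 0 := by exact_mod_cast Real.pi_ne_zero
    have hGw : Complex.Gamma w ≠ 0 := by
      intro h0
      rw [h0, zero_mul] at h2
      have := div_ne_zero hpi hs
      exact this h2.symm
    have h4 : (Complex.Gamma w)⁻¹ = Complex.Gamma (1 - w) * Complex.sin (Real.pi * w) / Real.pi := by
      rw [eq_div_iff hs] at h2
      rw [eq_div_iff hpi]
      calc (Complex.Gamma w)⁻¹ * (Real.pi : ℂ) = (Complex.Gamma w)⁻¹ *
            (Complex.Gamma w * Complex.Gamma (1 - w) * Complex.sin (Real.pi * w)) := by rw [h2]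
        _ = ((Complex.Gamma w)⁻¹ * Complex.Gamma w) *
            (Complex.Gamma (1 - w) * Complex.sin (Real.pi * w)) := by ring
        _ = _ := by rw [inv_mul_cancel₀ hGw, one_mul]
    rw [h4, norm_div, norm_mul, Complex.norm_real, Real.norm_of_nonneg Real.pi_pos.le]
    have h5 : ‖Complex.sin (Real.pi * w)‖ ≤ Real.exp (Real.pi * |w.im|) := by
      refine (norm_sin_le _).trans_eq ?_
      congr 1
      simp [abs_mul, abs_of_pos Real.pi_pos]
    rw [div_le_iff₀ Real.pi_pos]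
    calc ‖Complex.Gamma (1 - w)‖ * ‖Complex.sin (Real.pi * w)‖
        ≤ Real.Gamma (1 - w.re) * Real.exp (Real.pi * |w.im|) :=
          mul_le_mul h3 h5 (norm_nonneg _) hG.le
      _ ≤ Real.Gamma (1 - w.re) * Real.exp (Real.pi * |w.im|) * Real.pi := by
          have : (1:ℝ) ≤ Real.pi := by linarith [Real.pi_gt_three]
          have h0 : 0 ≤ Real.Gamma (1 - w.re) * Real.exp (Real.pi * |w.im|) := by positivity
          nlinarith

lemma inv_Gamma_shift {z : ℂ} (hz : 1 ≤ |z.im|) (N : ℕ) :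
    ‖(Complex.Gamma z)⁻¹‖ ≤ ‖(Complex.Gamma (z - N))⁻¹‖ := by
  induction N with
  | zero => simp
  | succ N ih =>
    refine ih.trans ?_
    have h := Complex.one_div_Gamma_eq_self_mul_one_div_Gamma_add_one (z - (N+1 : ℕ))
    have e : z - ((N+1 : ℕ) : ℂ) + 1 = z - N := by push_cast; ring
    rw [e] at h
    rw [h, norm_mul]
    have h2 : 1 ≤ ‖z - ((N+1 : ℕ) : ℂ)‖ := by
      refine hz.trans ?_
      have := Complex.abs_im_le_norm (z - ((N+1 : ℕ) : ℂ))
      have e2 : (z - ((N+1 : ℕ) : ℂ)).im = z.im := by simp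
      rwa [e2] at this
    have h3 := norm_nonneg (Complex.Gamma (z - N))⁻¹
    nlinarith

lemma inv_Gamma_strip (x₀ x₁ : ℝ) : ∃ C : ℝ, 0 ≤ C ∧ ∀ z : ℂ, x₀ ≤ z.re → z.re ≤ x₁ → 1 ≤ |z.im| →
    ‖(Complex.Gamma z)⁻¹‖ ≤ C * Real.exp (Real.pi * |z.im|) := by
  obtain ⟨N, hN⟩ := exists_nat_ge x₁
  have hc : ContinuousOn Real.Gamma (Icc (1 - (x₁ - N)) (1 - (x₀ - N))) := by
    intro x hx
    have hd : DifferentiableAt ℝ Real.Gamma x := by
      apply Real.differentiableAt_Gamma
      intro m hm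
      have h1 : 0 < x := by linarith [hx.1]
      have h2 : (0:ℝ) ≤ m := Nat.cast_nonneg m
      linarith
    exact hd.continuousAt.continuousWithinAt
  obtain ⟨C, hC⟩ := isCompact_Icc.exists_bound_of_continuousOn hc
  refine ⟨|C|, abs_nonneg _, fun z h0 h1 h2 => ?_⟩
  refine (inv_Gamma_shift h2 N).trans ?_
  have hre : (z - N).re = z.re - N := by simp
  have him : (z - N).im = z.im := by simp
  have h3 := inv_Gamma_le (w := z - N) (by rw [hre]; linarith)
  rw [hre, him] at h3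
  refine h3.trans ?_
  apply mul_le_mul_of_nonneg_right _ (Real.exp_pos _).le
  have h4 := hC (1 - (z.re - N)) ⟨by linarith, by linarith⟩
  exact (le_abs_self _).trans (h4.trans (le_abs_self _))

lemma Gamma_shift_le (z : ℂ) (m : ℕ) :
    ‖Complex.Gamma (z + m)‖ * ‖(Complex.Gamma z)⁻¹‖ ≤ ∏ j ∈ Finset.range m, ‖z + j‖ := by
  induction m with
  | zero =>
    simp only [Nat.cast_zero, add_zero, Finset.range_zero, Finset.prod_empty]
    rcases eq_or_ne (Complex.Gamma z) 0 with h | h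
    · simp [h]
    · rw [norm_inv, mul_inv_cancel₀ (norm_ne_zero_iff.2 h)]
  | succ m ih =>
    rw [Finset.prod_range_succ]
    rcases eq_or_ne (z + m) 0 with h | h
    · have hz : z = -(m:ℂ) := by linear_combination h
      have : Complex.Gamma z = 0 := by rw [hz]; exact Complex.Gamma_neg_nat_eq_zero m
      rw [this, inv_zero, norm_zero, mul_zero]
      positivity
    · have e : z + ((m+1 : ℕ) : ℂ) = (z + m) + 1 := by push_cast; ring
      rw [e, Complex.Gamma_add_one _ h, norm_mul]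
      calc ‖z + m‖ * ‖Complex.Gamma (z + m)‖ * ‖(Complex.Gamma z)⁻¹‖
          = (‖Complex.Gamma (z + m)‖ * ‖(Complex.Gamma z)⁻¹‖) * ‖z + m‖ := by ring
        _ ≤ _ := mul_le_mul_of_nonneg_right ih (norm_nonneg _)


/-- A Mellin transform which converges everywhere is bounded on vertical strips. -/
lemma mellin_strip (F : ℝ → ℂ) (hconv : ∀ s : ℂ, MellinConvergent F s) (x₀ x₁ : ℝ) :
    ∃ C : ℝ, 0 ≤ C ∧ ∀ z : ℂ, x₀ ≤ z.re → z.re ≤ x₁ → ‖mellin F z‖ ≤ C := by
  have hreal : ∀ x : ℝ, IntegrableOn (fun t : ℝ => t ^ (x - 1) * ‖F t‖) (Ioi 0) := by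
    intro x
    refine IntegrableOn.congr_fun (hconv x).norm ?_ measurableSet_Ioi
    intro t ht
    have ht : 0 < t := ht
    simp only [norm_smul]
    rw [Complex.norm_cpow_eq_rpow_re_of_pos ht]
    simp
  refine ⟨(∫ t in Ioi (0:ℝ), t ^ (x₀ - 1) * ‖F t‖) + ∫ t in Ioi (0:ℝ), t ^ (x₁ - 1) * ‖F t‖, ?_, ?_⟩
  · apply add_nonneg
    · exact setIntegral_nonneg measurableSet_Ioi fun t ht => mul_nonneg (Real.rpow_nonneg (le_of_lt ht) _) (norm_nonneg _)
    · exact setIntegral_nonneg measurableSet_Ioi fun t ht => mul_nonneg (Real.rpow_nonneg (le_of_lt ht) _) (norm_nonneg _)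
  · intro z h0 h1
    unfold mellin
    refine (norm_integral_le_integral_norm _).trans ?_
    rw [← integral_add (hreal x₀) (hreal x₁)]
    apply setIntegral_mono_on (hconv z).norm ((hreal x₀).add (hreal x₁)) measurableSet_Ioi
    intro t ht
    have ht : 0 < t := ht
    simp only [norm_smul]
    show _ ≤ t ^ (x₀ - 1) * ‖F t‖ + t ^ (x₁ - 1) * ‖F t‖
    rw [Complex.norm_cpow_eq_rpow_re_of_pos ht, ← add_mul]
    apply mul_le_mul_of_nonneg_right _ (norm_nonneg _)
    have hre : (z - 1).re = z.re - 1 := by simp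
    rw [hre]
    rcases le_total t 1 with h | h
    · have h3 : t ^ (z.re - 1) ≤ t ^ (x₀ - 1) := Real.rpow_le_rpow_of_exponent_ge ht h (by linarith)
      have h4 : 0 ≤ t ^ (x₁ - 1) := Real.rpow_nonneg ht.le _
      linarith
    · have h3 : t ^ (z.re - 1) ≤ t ^ (x₁ - 1) := Real.rpow_le_rpow_of_exponent_le h (by linarith)
      have h4 : 0 ≤ t ^ (x₀ - 1) := Real.rpow_nonneg ht.le _
      linarith

/-- Phragmen-Lindelof in the strip `-1 ≤ Re z ≤ 3`. -/
lemma strip {L : ℂ → ℂ} (hd : Differentiable ℂ L) {C₂ C₁ : ℝ}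
    (hb : ∀ z : ℂ, -1 ≤ z.re → z.re ≤ 3 → ‖L z‖ ≤ C₂) (hC₁ : 0 ≤ C₁)
    (hright : ∀ z : ℂ, z.re = 3 → ‖L z * (Complex.Gamma z)⁻¹‖ ≤ C₁)
    (hleft : ∀ z : ℂ, z.re = -1 → ‖L z * (Complex.Gamma z)⁻¹‖ ≤ C₁ * ∏ j ∈ Finset.range 4, ‖z + j‖) :
    ∀ z : ℂ, -1 ≤ z.re → z.re ≤ 3 → ‖L z * (Complex.Gamma z)⁻¹‖ ≤ C₁ * ‖z + 5‖ ^ 4 := by
  set h : ℂ → ℂ := fun z => (L z * (Complex.Gamma z)⁻¹) / (z + 5) ^ 4 with hh
  have hC₂0 : 0 ≤ C₂ := (norm_nonneg _).trans (hb 0 (by simp) (by simp))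
  have hre1 : ∀ z : ℂ, -1 ≤ z.re → 1 ≤ (z + 5).re := by
    intro z hz
    simp
    linarith
  have hn1 : ∀ z : ℂ, -1 ≤ z.re → 1 ≤ ‖z + 5‖ := fun z hz =>
    (hre1 z hz).trans ((le_abs_self _).trans (Complex.abs_re_le_norm _))
  have hne : ∀ z : ℂ, -1 ≤ z.re → (z + 5) ^ 4 ≠ 0 := fun z hz =>
    pow_ne_zero _ (norm_pos_iff.1 (lt_of_lt_of_le one_pos (hn1 z hz)))
  have hle : ∀ z : ℂ, -1 ≤ z.re → ‖h z‖ ≤ ‖L z * (Complex.Gamma z)⁻¹‖ := by
    intro z hz
    rw [hh]
    simp only [norm_div, norm_pow]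
    apply div_le_self (norm_nonneg _)
    exact one_le_pow₀ (hn1 z hz)
  have key : ∀ z : ℂ, -1 ≤ z.re → z.re ≤ 3 → ‖h z‖ ≤ C₁ := by
    intro z hza hzb
    apply PhragmenLindelof.vertical_strip (a := -1) (b := 3) (f := h) (C := C₁) ?_ ?_ ?_ ?_ hza hzb
    · apply DifferentiableOn.diffContOnCl
      intro w hw
      have hw' : w ∈ Complex.re ⁻¹' (Icc (-1) 3) := by
        have : closure (Complex.re ⁻¹' (Ioo (-1) 3)) ⊆ Complex.re ⁻¹' (Icc (-1) 3) :=
          closure_minimal (preimage_mono Ioo_subset_Icc_self) (isClosed_Icc.preimage Complex.continuous_re)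
        exact this hw
      apply DifferentiableAt.differentiableWithinAt
      apply DifferentiableAt.div
      · exact (hd.mul Complex.differentiable_one_div_Gamma) w
      · fun_prop
      · exact hne w hw'.1
    · refine ⟨Real.pi / 8, ?_, 8, ?_⟩
      · norm_num
        apply div_lt_div_of_pos_left Real.pi_pos (by norm_num)
        norm_num
      · obtain ⟨C₃, hC₃0, hC₃⟩ := inv_Gamma_strip (-1) 3
        apply Asymptotics.IsBigO.of_bound (C₂ * C₃)
        rw [Filter.eventually_inf_principal]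
        have hev : ∀ᶠ z : ℂ in comap (_root_.abs ∘ Complex.im) atTop, 1 ≤ (_root_.abs ∘ Complex.im) z :=
          tendsto_comap.eventually (eventually_ge_atTop 1)
        filter_upwards [hev] with z hz1 hz
        have hz1 : 1 ≤ |z.im| := hz1
        have ha : -1 ≤ z.re := (mem_preimage.1 hz).1.le
        have hb' : z.re ≤ 3 := (mem_preimage.1 hz).2.le
        refine (hle z ha).trans ?_
        rw [norm_mul, Real.norm_of_nonneg (Real.exp_pos _).le]
        have h1 := hb z ha hb'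
        have h2 := hC₃ z ha hb' hz1
        have h3 : Real.exp (Real.pi * |z.im|) ≤ Real.exp (8 * Real.exp (Real.pi / 8 * |z.im|)) := by
          apply Real.exp_le_exp.2
          have h4 : Real.pi / 8 * |z.im| ≤ Real.exp (Real.pi / 8 * |z.im|) :=
            (by linarith [Real.add_one_le_exp (Real.pi / 8 * |z.im|)])
          linarith
        calc ‖L z‖ * ‖(Complex.Gamma z)⁻¹‖ ≤ C₂ * (C₃ * Real.exp (Real.pi * |z.im|)) :=
              mul_le_mul h1 h2 (norm_nonneg _) hC₂0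
          _ ≤ C₂ * (C₃ * Real.exp (8 * Real.exp (Real.pi / 8 * |z.im|))) := by gcongr
          _ = _ := by ring
    · intro w hw
      have hwα : -1 ≤ w.re := hw.ge
      rw [hh]
      simp only [norm_div, norm_pow]
      have hpos : 0 < ‖w + 5‖ ^ 4 := pow_pos (lt_of_lt_of_le one_pos (hn1 w hwα)) _
      rw [div_le_iff₀ hpos]
      refine (hleft w hw).trans ?_
      apply mul_le_mul_of_nonneg_left _ hC₁
      calc ∏ j ∈ Finset.range 4, ‖w + j‖ ≤ ∏ _j ∈ Finset.range 4, ‖w + 5‖ := by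
            apply Finset.prod_le_prod (fun _ _ => norm_nonneg _)
            intro j hj
            have hj : (j:ℝ) < 4 := by exact_mod_cast Finset.mem_range.1 hj
            have hj0 : (0:ℝ) ≤ j := Nat.cast_nonneg j
            rw [← Real.sqrt_sq (norm_nonneg (w + 5)), ← Real.sqrt_sq (norm_nonneg (w + j))]
            apply Real.sqrt_le_sqrt
            rw [← Complex.normSq_eq_norm_sq, ← Complex.normSq_eq_norm_sq, Complex.normSq_apply,
              Complex.normSq_apply]
            simp only [Complex.add_re, Complex.add_im, Complex.natCast_re, Complex.natCast_im,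
              Complex.re_ofNat, Complex.im_ofNat, add_zero]
            have : w.re = -1 := hw
            nlinarith
        _ = ‖w + 5‖ ^ 4 := by simp
    · intro w hw
      have hwα : -1 ≤ w.re := by rw [hw]; norm_num
      exact (hle w hwα).trans (hright w hw)
  intro z h0 h1
  have h2 := key z h0 h1
  have hpos : 0 < ‖z + 5‖ ^ 4 := pow_pos (lt_of_lt_of_le one_pos (hn1 z h0)) _
  rw [hh] at h2
  simp only [norm_div, norm_pow] at h2
  rwa [div_le_iff₀ hpos] at h2

open UpperHalfPlane hiding I in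
/-- The bound on the line `Re z = 3`. -/
lemma right {Γ : Subgroup (GL (Fin 2) ℝ)} [Γ.IsArithmetic] (f : CuspForm Γ 2) :
    ∃ C : ℝ, 0 ≤ C ∧ ∀ z : ℂ, z.re = 3 →
      ‖mellin (fun t : ℝ => f (UpperHalfPlane.ofComplex (I * t))) z‖ ≤ C * ‖Complex.Gamma z‖ := by
  have hk : (0 : ℤ) < 2 := by norm_num
  have hh := Γ.strictWidthInfty_pos
  refine ⟨∑' n : ℕ, Real.pi ^ (-3 : ℝ) * ‖(qExpansion Γ.strictWidthInfty f).coeff n‖ /
    (2 * n / Γ.strictWidthInfty) ^ (3 : ℝ), tsum_nonneg fun n => by positivity, fun z hz => ?_⟩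
  have hs := CuspForm.hasSum_Λ f hk (s := z) (by rw [hz]; norm_num)
  rw [CuspForm.Λ_eq_mellin] at hs
  rw [← hs.tsum_eq, ← tsum_mul_right]
  refine (norm_tsum_le_tsum_norm hs.summable.norm).trans_eq (tsum_congr fun n => ?_)
  rw [norm_div, norm_mul, norm_mul]
  have h1 : ‖(Real.pi : ℂ) ^ (-z)‖ = Real.pi ^ (-3 : ℝ) := by
    rw [Complex.norm_cpow_eq_rpow_re_of_pos Real.pi_pos]
    simp [hz]
  have h2 : ‖((2 * n / Γ.strictWidthInfty : ℝ) : ℂ) ^ z‖ =
      (2 * n / Γ.strictWidthInfty : ℝ) ^ (3 : ℝ) := by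
    rcases Nat.eq_zero_or_pos n with h0 | h0
    · subst h0
      have hz0 : z ≠ 0 := by
        intro h
        rw [h] at hz
        norm_num at hz
      simp [Complex.zero_cpow hz0]
    · have : (0 : ℝ) < 2 * n / Γ.strictWidthInfty := by positivity
      rw [Complex.norm_cpow_eq_rpow_re_of_pos this, hz]
  rw [h1, h2]
  ring

open ConjAct Pointwise in
lemma conj_arith (Γ : Subgroup (GL (Fin 2) ℝ)) [Γ.IsArithmetic] :
    Subgroup.IsArithmetic (toConjAct (ModularGroup.S : GL (Fin 2) ℝ)⁻¹ • Γ) := by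
  convert Subgroup.IsArithmetic.conj Γ ↑(ModularGroup.S⁻¹)
  simp only [ModularGroup.S_inv, ← map_inv]
  ext i j
  fin_cases i <;> fin_cases j <;> simp [ModularGroup.S]

/-- The completed function. -/
noncomputable def Lam {Γ : Subgroup (GL (Fin 2) ℝ)} [Γ.IsArithmetic] (f : CuspForm Γ 2) : ℂ → ℂ :=
  ModularForm.Λ (k := 2) (by norm_num) f

open UpperHalfPlane hiding I in
/-- The bound on the line `Re z = -1`. -/
lemma left {Γ : Subgroup (GL (Fin 2) ℝ)} [Γ.IsArithmetic] (f : CuspForm Γ 2) :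
    ∃ C : ℝ, 0 ≤ C ∧ ∀ z : ℂ, z.re = -1 → ‖Lam f z‖ ≤ C * ‖Complex.Gamma (2 - z)‖ := by
  have := conj_arith Γ
  obtain ⟨C, hC0, hC⟩ := right (CuspForm.translate f (ModularGroup.S : GL (Fin 2) ℝ))
  refine ⟨C, hC0, fun z hz => ?_⟩
  have hk : (0 : ℤ) < 2 := by norm_num
  have h1 := (ModularForm.weakFEPair (k := 2) hk f).functional_equation (2 - z)
  rw [(CuspForm.isStrongFEPair hk f).symm_Λ_eq] at h1
  have h2 : ((ModularForm.weakFEPair (k := 2) hk f).k : ℂ) - (2 - z) = z := by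
    simp
  rw [h2] at h1
  have h3 : Lam f z = (ModularForm.weakFEPair (k := 2) hk f).Λ z := rfl
  rw [h3, h1, norm_smul]
  have h4 : ‖(ModularForm.weakFEPair (k := 2) hk f).ε‖ = 1 := by
    simp
  rw [h4, one_mul]
  have h5 := hC (2 - z) (by simp [hz]; norm_num)
  exact h5

end GrowL

theorem growth_left {N : ℕ} [NeZero N] (f : CuspForm (Gamma0 N : Subgroup (GL (Fin 2) ℝ)) 2) :
    ∃ G : ℂ → ℂ, Differentiable ℂ G ∧
      (∀ s : ℂ, 3 < s.re → G s = LSeries (fun n => (UpperHalfPlane.qExpansion 1 f).coeff n) s) ∧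
      ∃ (C : ℝ) (κ : ℕ), ∀ s : ℂ, 1 / 2 < s.re → ‖G s‖ ≤ C * (1 + ‖s‖) ^ κ := by
  have hk : (0 : ℤ) < 2 := by norm_num
  have hw : Subgroup.strictWidthInfty (Gamma0 N : Subgroup (GL (Fin 2) ℝ)) = 1 :=
    CongruenceSubgroup.strictWidthInfty_Gamma0 N
  have hsum : ∀ s : ℂ, 2 < s.re →
      HasSum (fun n : ℕ => (UpperHalfPlane.qExpansion 1 f).coeff n / (n : ℂ) ^ s)
        (ModularForm.L (k := 2) hk f s) := by
    intro s hs
    have h := CuspForm.hasSum_L hk f (s := s) (by norm_num; exact hs)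
    rw [hw] at h
    simpa using h
  refine ⟨ModularForm.L (k := 2) hk f, CuspForm.differentiable_L hk f, ?_, ?_⟩
  · intro s hs
    rw [← (hsum s (by linarith)).tsum_eq, LSeries]
    refine tsum_congr fun n => ?_
    rcases Nat.eq_zero_or_pos n with h0 | h0
    · subst h0
      have hs0 : s ≠ 0 := by
        intro h
        rw [h] at hs
        norm_num at hs
      simp [Complex.zero_cpow hs0]
    · rw [LSeries.term_of_ne_zero h0.ne']
  · obtain ⟨C₂, -, hC₂⟩ := GrowL.mellin_strip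
      (fun t : ℝ => f (UpperHalfPlane.ofComplex (I * t)))
      (fun s => ((CuspForm.isStrongFEPair hk f).hasMellin s).1) (-1) 3
    obtain ⟨Cr, hCr0, hCr⟩ := GrowL.right f
    obtain ⟨Cl, hCl0, hCl⟩ := GrowL.left f
    have hL : GrowL.Lam f = mellin (fun t : ℝ => f (UpperHalfPlane.ofComplex (I * t))) :=
      CuspForm.Λ_eq_mellin hk f
    have hd : Differentiable ℂ (GrowL.Lam f) := CuspForm.differentiable_Λ hk f
    have hstrip := GrowL.strip (L := GrowL.Lam f) hd (C₂ := C₂) (C₁ := Cr + Cl)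
      (fun z h0 h1 => by rw [hL]; exact hC₂ z h0 h1) (by positivity)
      (fun z hz => by
        have h1 := hCr z hz
        rw [← hL] at h1
        have hne : Complex.Gamma z ≠ 0 := Complex.Gamma_ne_zero_of_re_pos (by rw [hz]; norm_num)
        rw [norm_mul, norm_inv, ← div_eq_mul_inv, div_le_iff₀ (norm_pos_iff.2 hne)]
        refine h1.trans ?_
        gcongr
        linarith)
      (fun z hz => by
        have h1 := hCl z hz
        have h2 := GrowL.Gamma_shift_le z 4
        have e : z + ((4 : ℕ) : ℂ) = (starRingEnd ℂ) (2 - z) := by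
          apply Complex.ext
          · simp [hz]; norm_num
          · simp
        rw [e, Complex.Gamma_conj, Complex.norm_conj] at h2
        rw [norm_mul]
        have hP : 0 ≤ ∏ j ∈ Finset.range 4, ‖z + j‖ := Finset.prod_nonneg fun _ _ => norm_nonneg _
        calc ‖GrowL.Lam f z‖ * ‖(Complex.Gamma z)⁻¹‖
            ≤ Cl * ‖Complex.Gamma (2 - z)‖ * ‖(Complex.Gamma z)⁻¹‖ := by gcongr
          _ = Cl * (‖Complex.Gamma (2 - z)‖ * ‖(Complex.Gamma z)⁻¹‖) := by ring
          _ ≤ Cl * ∏ j ∈ Finset.range 4, ‖z + j‖ := by gcongr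
          _ ≤ _ := by gcongr; linarith)
    -- the half plane `Re s ≥ 3`
    set C₃ : ℝ := ∑' n : ℕ, ‖(UpperHalfPlane.qExpansion 1 f).coeff n / (n : ℂ) ^ (3 : ℂ)‖ with hC₃
    have hC₃0 : 0 ≤ C₃ := tsum_nonneg fun n => norm_nonneg _
    have h3s : Summable fun n : ℕ => ‖(UpperHalfPlane.qExpansion 1 f).coeff n / (n : ℂ) ^ (3 : ℂ)‖ :=
      (hsum 3 (by norm_num)).summable.norm
    have hfar : ∀ s : ℂ, 3 ≤ s.re → ‖ModularForm.L (k := 2) hk f s‖ ≤ C₃ := by
      intro s hs
      rw [← (hsum s (by linarith)).tsum_eq]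
      apply tsum_of_norm_bounded h3s.hasSum
      intro n
      rcases Nat.eq_zero_or_pos n with h0 | h0
      · subst h0
        have hs0 : s ≠ 0 := by
          intro h
          rw [h] at hs
          norm_num at hs
        simp [Complex.zero_cpow hs0]
      · have hn : (1 : ℝ) ≤ n := by exact_mod_cast h0
        rw [norm_div, norm_div, Complex.norm_natCast_cpow_of_pos h0,
          Complex.norm_natCast_cpow_of_pos h0]
        have : (n : ℝ) ^ (3 : ℂ).re ≤ (n : ℝ) ^ s.re :=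
          Real.rpow_le_rpow_of_exponent_le hn (by simpa using hs)
        gcongr
    -- the factor
    have hLE : ∀ s : ℂ, ModularForm.L (k := 2) hk f s =
        (2 * Real.pi : ℂ) ^ s * (GrowL.Lam f s * (Complex.Gamma s)⁻¹) := by
      intro s
      show ModularForm.Λ hk f s * (2 / Gammaℂ s) = _
      rw [Gammaℂ, ← div_div, ← div_div, div_self two_ne_zero, one_div, cpow_neg, inv_inv]
      show _ = (2 * Real.pi : ℂ) ^ s * (ModularForm.Λ hk f s * (Complex.Gamma s)⁻¹)
      ring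
    have h2pi : (0 : ℝ) < 2 * Real.pi := by positivity
    have h2pi1 : (1 : ℝ) ≤ 2 * Real.pi := by linarith [Real.pi_gt_three]
    refine ⟨C₃ + (2 * Real.pi) ^ (3 : ℝ) * (Cr + Cl) * 5 ^ 4, 4, fun s hs => ?_⟩
    have hone : (1 : ℝ) ≤ (1 + ‖s‖) ^ 4 := one_le_pow₀ (by linarith [norm_nonneg s])
    rcases le_or_gt 3 s.re with h3 | h3
    · calc ‖ModularForm.L (k := 2) hk f s‖ ≤ C₃ := hfar s h3
        _ ≤ C₃ + (2 * Real.pi) ^ (3 : ℝ) * (Cr + Cl) * 5 ^ 4 :=
            le_add_of_nonneg_right (by positivity)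
        _ ≤ _ := le_mul_of_one_le_right (by positivity) hone
    · rw [hLE, norm_mul]
      have h1 : ‖(2 * Real.pi : ℂ) ^ s‖ ≤ (2 * Real.pi) ^ (3 : ℝ) := by
        have e : (2 * Real.pi : ℂ) = ((2 * Real.pi : ℝ) : ℂ) := by push_cast; rfl
        rw [e, Complex.norm_cpow_eq_rpow_re_of_pos h2pi]
        exact Real.rpow_le_rpow_of_exponent_le h2pi1 h3.le
      have h2 := hstrip s (by linarith) h3.le
      have h5 : ‖s + 5‖ ^ 4 ≤ 5 ^ 4 * (1 + ‖s‖) ^ 4 := by
        rw [← mul_pow]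
        apply pow_le_pow_left₀ (norm_nonneg _)
        refine (norm_add_le _ _).trans ?_
        have : ‖(5 : ℂ)‖ = 5 := by norm_num
        rw [this]
        linarith [norm_nonneg s]
      calc ‖(2 * Real.pi : ℂ) ^ s‖ * ‖GrowL.Lam f s * (Complex.Gamma s)⁻¹‖
          ≤ (2 * Real.pi) ^ (3 : ℝ) * ((Cr + Cl) * (5 ^ 4 * (1 + ‖s‖) ^ 4)) := by
            gcongr
            exact h2.trans (by gcongr)
        _ = (2 * Real.pi) ^ (3 : ℝ) * (Cr + Cl) * 5 ^ 4 * (1 + ‖s‖) ^ 4 := by ring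
        _ ≤ _ := by
            gcongr
            linarith

end Pool.Agent.TH270.MS
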