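import Mathlib
import Pool.Agent.H21.L.R_seed8.TH270.MS.Factor
set_option autoImplicit false
open MeasureTheory Filter Topology Set Complex
open scoped ENNReal
namespace Pool.Agent.TH270.MS

namespace LocL2

/-- the square of the logarithm is integrable -/
lemma logsq_int (A : ℝ) : IntervalIntegrable (fun x : ℝ => Real.log x ^ 2) volume (-A) A := by
  refine intervalIntegrable_of_even (fun x => by rw [Real.log_neg_eq_log]) ?_
  intro x hx
  refine intervalIntegral.intervalIntegrable_deriv_of_nonneg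
    (g := fun x => x * Real.log x ^ 2 - 2 * (x * Real.log x) + 2 * x) ?_ ?_ ?_
  · have h1 : ContinuousOn (fun x : ℝ => x * Real.log x ^ 2) (uIcc 0 x) := by
      have h2 : Continuous (fun x : ℝ => 4 * (√x * Real.log √x) ^ 2) := by
        have := Real.continuous_mul_log.comp Real.continuous_sqrt
        exact continuous_const.mul (this.pow 2)
      refine h2.continuousOn.congr ?_
      intro y hy
      rw [uIcc_of_le hx.le] at hy
      have hy0 : 0 ≤ y := hy.1
      simp only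
      rw [Real.log_sqrt hy0, mul_pow, Real.sq_sqrt hy0]
      ring
    exact (h1.sub (continuous_const.mul Real.continuous_mul_log).continuousOn).add
      (continuous_const.mul continuous_id).continuousOn
  · intro s hs
    have hs0 : 0 < s := by
      have := hs.1
      rwa [min_eq_left hx.le] at this
    have h1 := Real.hasDerivAt_log hs0.ne'
    have h2 := (hasDerivAt_id s).mul (h1.pow 2)
    have h3 := (Real.hasDerivAt_mul_log hs0.ne').const_mul 2
    have h4 := (hasDerivAt_id s).const_mul (2 : ℝ)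
    refine ((h2.sub h3).add h4).congr_deriv ?_
    simp only [id_eq, Nat.cast_ofNat, Nat.add_one_sub_one, pow_one, one_mul, mul_one, Pi.pow_apply]
    have h5 : s * s⁻¹ = 1 := mul_inv_cancel₀ hs0.ne'
    linear_combination (2 * Real.log s) * h5
  · intro s _
    positivity

/-- the integral of the square of the logarithm -/
noncomputable def JJ (A : ℝ) : ℝ := (∫⁻ v in Icc (-A) A, ENNReal.ofReal (Real.log v ^ 2)).toReal

lemma JJ_eq {A : ℝ} (hA : 0 < A) :
    ∫⁻ v in Icc (-A) A, ENNReal.ofReal (Real.log v ^ 2) = ENNReal.ofReal (JJ A) := by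
  have h1 : IntegrableOn (fun x : ℝ => Real.log x ^ 2) (Icc (-A) A) :=
    (intervalIntegrable_iff_integrableOn_Icc_of_le (by linarith)).1 (logsq_int A)
  unfold JJ
  rw [ENNReal.ofReal_toReal]
  exact h1.lintegral_lt_top.ne

lemma JJ_nonneg (A : ℝ) : 0 ≤ JJ A := ENNReal.toReal_nonneg

/-- the integral over a translate of a part of the interval -/
lemma int_log {A s u v : ℝ} (hA : 0 < A) (h1 : -A ≤ u - s) (h2 : v - s ≤ A) :
    ∫⁻ t in Icc u v, ENNReal.ofReal (Real.log (t - s) ^ 2) ≤ ENNReal.ofReal (JJ A) := by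
  rw [← JJ_eq hA, ← lintegral_indicator measurableSet_Icc, ← lintegral_indicator measurableSet_Icc]
  rw [← lintegral_sub_right_eq_self ((Icc (-A) A).indicator
    fun v => ENNReal.ofReal (Real.log v ^ 2)) s]
  refine lintegral_mono fun t => ?_
  by_cases ht : t ∈ Icc u v
  · have ht2 : t - s ∈ Icc (-A) A := ⟨by linarith [ht.1], by linarith [ht.2]⟩
    rw [indicator_of_mem ht, indicator_of_mem ht2]
  · rw [indicator_of_notMem ht]
    exact bot_le

/-- bound for the complex logarithm -/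
lemma norm_log_le {w : ℂ} {p q : ℝ} (hp : 0 < p) (h1 : p ≤ ‖w‖) (h2 : ‖w‖ ≤ q) :
    ‖log w‖ ≤ |Real.log p| + |Real.log q| + Real.pi := by
  have h3 : ‖log w‖ ≤ |(log w).re| + |(log w).im| := Complex.norm_le_abs_re_add_abs_im _
  rw [log_re, log_im] at h3
  have h4 : |arg w| ≤ Real.pi := abs_arg_le_pi w
  have h5 : Real.log p ≤ Real.log ‖w‖ := Real.log_le_log hp h1
  have h6 : Real.log ‖w‖ ≤ Real.log q := Real.log_le_log (hp.trans_le h1) h2
  have h7 : |Real.log ‖w‖| ≤ |Real.log p| + |Real.log q| := by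
    rw [abs_le]
    constructor
    · linarith [neg_abs_le (Real.log p), abs_nonneg (Real.log q)]
    · linarith [le_abs_self (Real.log q), abs_nonneg (Real.log p)]
  linarith

/-- the constant -/
noncomputable def CC (a r R' R : ℝ) : ℝ :=
  (|Real.log a| + |Real.log R'| + Real.pi) +
    2 * (|Real.log (R ^ 2 - R' * r)| + |Real.log (R ^ 2 + R' * r)| + Real.pi) +
    (|Real.log (2 * R)| + Real.pi)

lemma CC_nonneg (a r R' R : ℝ) : 0 ≤ CC a r R' R := by
  unfold CC
  have := Real.pi_pos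
  positivity

/-- a function with constant nonzero exponential is constant -/
lemma const_of_exp {U : Set ℂ} (hU : IsOpen U) (hU' : IsPreconnected U) {D : ℂ → ℂ}
    (hD : ∀ z ∈ U, DifferentiableAt ℂ D z) {c : ℂ} (hc : ∀ z ∈ U, exp (D z) = c) {z w : ℂ}
    (hz : z ∈ U) (hw : w ∈ U) : D z = D w := by
  refine hU.is_const_of_deriv_eq_zero hU' (fun z hz => (hD z hz).differentiableWithinAt) ?_ hz hw
  intro z hz
  have h1 : HasDerivAt (fun z => exp (D z)) (exp (D z) * deriv D z) z :=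
    (hD z hz).hasDerivAt.cexp
  have h2 : HasDerivAt (fun z => exp (D z)) 0 z := by
    refine (hasDerivAt_const z c).congr_of_eventuallyEq ?_
    filter_upwards [hU.mem_nhds hz] with w hw
    exact hc w hw
  have h3 := h1.unique h2
  simpa [exp_ne_zero] using h3

/-- logarithm of a function without zeros on a disc -/
lemma exists_log {R₂ : ℝ} {g : ℂ → ℂ} (hR : 0 < R₂) (hg : DifferentiableOn ℂ g (Metric.ball 0 R₂))
    (h0 : ∀ z ∈ Metric.ball (0 : ℂ) R₂, g z ≠ 0) :
    ∃ ℓ : ℂ → ℂ, (∀ z ∈ Metric.ball (0 : ℂ) R₂, DifferentiableAt ℂ ℓ z) ∧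
      ∀ z ∈ Metric.ball (0 : ℂ) R₂, exp (ℓ z) = g z := by
  have hd : DifferentiableOn ℂ (deriv g) (Metric.ball 0 R₂) := hg.deriv Metric.isOpen_ball
  have hq : DifferentiableOn ℂ (fun z => deriv g z / g z) (Metric.ball 0 R₂) := hd.div hg h0
  obtain ⟨ℓ, hℓ0, hℓ⟩ := hq.isExactOn_ball.with_val_at 0 (log (g 0))
  refine ⟨ℓ, fun z hz => (hℓ z hz).differentiableAt, ?_⟩
  have h00 : (0 : ℂ) ∈ Metric.ball (0 : ℂ) R₂ := Metric.mem_ball_self hR
  have hga : ∀ z ∈ Metric.ball (0 : ℂ) R₂, DifferentiableAt ℂ g z := fun z hz =>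
    hg.differentiableAt (Metric.isOpen_ball.mem_nhds hz)
  have key : ∀ z ∈ Metric.ball (0 : ℂ) R₂, g z * exp (-ℓ z) = g 0 * exp (-ℓ 0) := by
    intro z hz
    refine Metric.isOpen_ball.is_const_of_deriv_eq_zero (convex_ball 0 R₂).isPreconnected
      (f := fun z => g z * exp (-ℓ z)) ?_ ?_ hz h00
    · intro w hw
      exact ((hga w hw).mul ((hℓ w hw).differentiableAt.neg.cexp)).differentiableWithinAt
    · intro w hw
      have h1 : HasDerivAt (fun z => g z * exp (-ℓ z))
          (deriv g w * exp (-ℓ w) + g w * (exp (-ℓ w) * -(deriv g w / g w))) w :=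
        (hga w hw).hasDerivAt.mul ((hℓ w hw).neg.cexp)
      rw [h1.deriv]
      have h2 := h0 w hw
      simp only [Pi.zero_apply]
      field_simp
      ring
  intro z hz
  have h1 := key z hz
  rw [hℓ0, exp_neg, exp_neg, exp_log (h0 0 h00), mul_inv_cancel₀ (h0 0 h00)] at h1
  have h2 := exp_ne_zero (ℓ z)
  field_simp at h1
  exact h1.symm

/-- the bound in the disc -/
lemma disc {a r R' R R₁ M m : ℝ} (ha : 1 ≤ a) (hr : a < r) (hrR' : r < R') (hR'R : R' < R)
    (hRR₁ : R < R₁) {f l : ℂ → ℂ} (hf : DifferentiableOn ℂ f (Metric.ball 0 R₁))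
    (hM : ∀ s : ℂ, ‖s‖ ≤ R → ‖f s‖ ≤ M) (hl : ∀ z : ℂ, -a < z.re → DifferentiableAt ℂ l z)
    (hexp : ∀ z : ℂ, -a < z.re → exp (l z) = f z) (hm : ‖l 0‖ ≤ m) :
    ∃ (n : ℕ) (γ : Fin n → ℝ), (n : ℝ) * Real.log (R / R') ≤ Real.log M + m ∧
      (∀ i, |γ i| ≤ R') ∧ ∀ z : ℂ, -a < z.re → ‖z‖ ≤ r → (∀ i, z.im ≠ γ i) →
      ‖l z‖ ≤ m + 2 * r / (R' - r) * (Real.log M + m + 1) + n * CC a r R' R +
        ∑ i, |Real.log (z.im - γ i)| := by
  have ha0 : 0 < a := by linarith
  have hr0 : 0 < r := by linarith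
  have hR'0 : 0 < R' := by linarith
  have hR0 : 0 < R := by linarith
  have h00 : -a < (0 : ℂ).re := by simpa using ha0
  have hf0 : exp (l 0) = f 0 := hexp 0 h00
  have hf0' : f 0 ≠ 0 := by
    rw [← hf0]
    exact exp_ne_zero _
  obtain ⟨n, ρ, g, hn, hρ, hg, hg0, hgM, hg00, hfac⟩ := factor hR'0 hR'R hRR₁ hf hM hf0'
  have hlogf : Real.log ‖f 0‖ = (l 0).re := by rw [← hf0, norm_exp, Real.log_exp]
  have hre : |(l 0).re| ≤ m := (abs_re_le_norm _).trans hm
  have hMf : ‖f 0‖ ≤ M := hM 0 (by simpa using hR0.le)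
  have hfpos : 0 < ‖f 0‖ := norm_pos_iff.2 hf0'
  have hMpos : 0 < M := lt_of_lt_of_le hfpos hMf
  have hlogM : Real.log (M / ‖f 0‖) ≤ Real.log M + m := by
    rw [Real.log_div hMpos.ne' hfpos.ne', hlogf]
    linarith [neg_abs_le (l 0).re]
  have hρre : ∀ i, (ρ i).re ≤ -a := by
    intro i
    by_contra h
    push Not at h
    have h1 := hexp (ρ i) h
    rw [(hρ i).2] at h1
    exact exp_ne_zero _ h1
  -- the logarithm of `g`
  have hsub : Metric.ball (0 : ℂ) R' ⊆ Metric.ball 0 R₁ := Metric.ball_subset_ball (by linarith)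
  obtain ⟨ℓ, hℓd, hℓ⟩ := exists_log hR'0 (hg.mono hsub)
    (fun z hz => hg0 z (mem_ball_zero_iff.1 hz).le)
  have h0b : (0 : ℂ) ∈ Metric.ball (0 : ℂ) R' := Metric.mem_ball_self hR'0
  have hℓb : ∀ z : ℂ, ‖z‖ ≤ r → ‖ℓ z - ℓ 0‖ ≤ 2 * r / (R' - r) * (Real.log M + m + 1) := by
    intro z hz
    have hB : 0 < Real.log M + m + 1 := by
      have h1 : Real.log ‖f 0‖ ≤ Real.log M := Real.log_le_log hfpos hMf
      rw [hlogf] at h1
      linarith [neg_abs_le (l 0).re]
    have hre2 : ∀ w ∈ Metric.ball (0 : ℂ) R', (ℓ w).re = Real.log ‖g w‖ := by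
      intro w hw
      rw [← hℓ w hw, norm_exp, Real.log_exp]
    have hz' : z ∈ Metric.ball (0 : ℂ) R' := mem_ball_zero_iff.2 (by linarith)
    have h1 := borelCaratheodory_zero (f := fun z => ℓ z - ℓ 0) (R := R') (z := z) hB
      (fun w hw => ((hℓd w hw).sub_const _).differentiableWithinAt) (by
        intro w hw
        show (ℓ w - ℓ 0).re ≤ Real.log M + m + 1
        rw [sub_re, hre2 w hw, hre2 0 h0b]
        have h2 : Real.log ‖g w‖ ≤ Real.log M :=
          Real.log_le_log (norm_pos_iff.2 (hg0 w (mem_ball_zero_iff.1 hw).le))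
            (hgM w (by linarith [mem_ball_zero_iff.1 hw]))
        have h3 : Real.log ‖f 0‖ ≤ Real.log ‖g 0‖ := Real.log_le_log hfpos hg00
        rw [hlogf] at h3
        linarith [neg_abs_le (l 0).re]) hR'0 hz' (by simp)
    refine h1.trans ?_
    have h2 : 0 < R' - ‖z‖ := by linarith
    rw [div_mul_eq_mul_div, div_le_div_iff₀ h2 (by linarith)]
    have h3 : ‖z‖ * (R' - r) ≤ r * (R' - ‖z‖) := by nlinarith [norm_nonneg z]
    nlinarith [norm_nonneg z]
  -- the logarithms of the factors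
  set lam : Fin n → ℂ → ℂ := fun i z =>
    log (z - ρ i) - log ((R : ℂ) ^ 2 - (starRingEnd ℂ) (ρ i) * z) with hlam
  set U : Set ℂ := Metric.ball 0 R' ∩ {z | -a < z.re} with hU
  have hUo : IsOpen U := Metric.isOpen_ball.inter (isOpen_lt continuous_const continuous_re)
  have hUc : IsPreconnected U :=
    ((convex_ball (0 : ℂ) R').inter (convex_halfSpace_re_gt (-a))).isPreconnected
  have hden : ∀ i, ∀ z : ℂ, ‖z‖ < R' → 0 < ((R : ℂ) ^ 2 - (starRingEnd ℂ) (ρ i) * z).re := by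
    intro i z hz
    have h1 : ‖(starRingEnd ℂ) (ρ i) * z‖ ≤ R' * R' := by
      rw [norm_mul, RCLike.norm_conj]
      exact mul_le_mul (hρ i).1 hz.le (norm_nonneg _) hR'0.le
    have h2 := (abs_re_le_norm ((starRingEnd ℂ) (ρ i) * z)).trans h1
    have h3 : ((R : ℂ) ^ 2).re = R ^ 2 := by
      rw [← ofReal_pow, ofReal_re]
    rw [sub_re, h3]
    have h4 := le_abs_self ((starRingEnd ℂ) (ρ i) * z).re
    nlinarith
  have hnum : ∀ i, ∀ z : ℂ, -a < z.re → 0 < (z - ρ i).re := by
    intro i z hz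
    rw [sub_re]
    linarith [hρre i]
  have hlamd : ∀ i, ∀ z ∈ U, DifferentiableAt ℂ (lam i) z := by
    intro i z hz
    have h1 : z - ρ i ∈ slitPlane := Or.inl (hnum i z hz.2)
    have h2 : (R : ℂ) ^ 2 - (starRingEnd ℂ) (ρ i) * z ∈ slitPlane :=
      Or.inl (hden i z (mem_ball_zero_iff.1 hz.1))
    exact ((differentiableAt_id.sub_const _).clog h1).sub
      (((differentiableAt_const _).sub (differentiableAt_id.const_mul _)).clog h2)
  have hlame : ∀ i, ∀ z ∈ U, exp (lam i z) =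
      (z - ρ i) / ((R : ℂ) ^ 2 - (starRingEnd ℂ) (ρ i) * z) := by
    intro i z hz
    have h1 : z - ρ i ≠ 0 := by
      intro h
      have := hnum i z hz.2
      rw [h] at this
      simp at this
    have h2 : (R : ℂ) ^ 2 - (starRingEnd ℂ) (ρ i) * z ≠ 0 := by
      intro h
      have := hden i z (mem_ball_zero_iff.1 hz.1)
      rw [h] at this
      simp at this
    rw [hlam]
    simp only
    rw [exp_sub, exp_log h1, exp_log h2]
  have hD : ∀ z ∈ U, DifferentiableAt ℂ (fun z => l z - ∑ i, lam i z - ℓ z) z := by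
    intro z hz
    have h1 : DifferentiableAt ℂ (fun z => ∑ i, lam i z) z :=
      DifferentiableAt.fun_sum fun i _ => hlamd i z hz
    exact ((hl z hz.2).sub h1).sub (hℓd z hz.1)
  have hc : ∀ z ∈ U, exp (l z - ∑ i, lam i z - ℓ z) = (R : ℂ) ^ n := by
    intro z hz
    have hz1 : ‖z‖ < R' := mem_ball_zero_iff.1 hz.1
    rw [exp_sub, exp_sub, hexp z hz.2, hℓ z hz.1, hfac z (by linarith), exp_sum]
    simp only [hlame _ z hz]
    have h1 : ∏ i, ((R : ℂ) * (z - ρ i) / ((R : ℂ) ^ 2 - (starRingEnd ℂ) (ρ i) * z)) =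
        (R : ℂ) ^ n * ∏ i, ((z - ρ i) / ((R : ℂ) ^ 2 - (starRingEnd ℂ) (ρ i) * z)) := by
      have h2 : (R : ℂ) ^ n = ∏ _i : Fin n, (R : ℂ) := by simp
      rw [h2, ← Finset.prod_mul_distrib]
      exact Finset.prod_congr rfl fun i _ => by ring
    have h3 : ∏ i, ((z - ρ i) / ((R : ℂ) ^ 2 - (starRingEnd ℂ) (ρ i) * z)) ≠ 0 := by
      refine Finset.prod_ne_zero_iff.2 fun i _ => ?_
      rw [← hlame i z hz]
      exact exp_ne_zero _
    have h4 : g z ≠ 0 := hg0 z hz1.le
    rw [h1]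
    generalize ∏ i, ((z - ρ i) / ((R : ℂ) ^ 2 - (starRingEnd ℂ) (ρ i) * z)) = X at h3 ⊢
    field_simp
  have h0U : (0 : ℂ) ∈ U := ⟨h0b, h00⟩
  refine ⟨n, fun i => (ρ i).im, hn.trans hlogM, fun i => (abs_im_le_norm _).trans (hρ i).1, ?_⟩
  intro z hz hzr hzγ
  have hzU : z ∈ U := ⟨mem_ball_zero_iff.2 (by linarith), hz⟩
  have h1 := const_of_exp hUo hUc hD hc hzU h0U
  have h2 : l z = l 0 + (∑ i, lam i z - ∑ i, lam i 0) + (ℓ z - ℓ 0) := by
    linear_combination h1
  have h3 : ∀ i, ‖lam i z - lam i 0‖ ≤ CC a r R' R + |Real.log (z.im - (ρ i).im)| := by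
    intro i
    -- the four logarithms
    have e1 : ‖log (z - ρ i)‖ ≤
        |Real.log (|z.im - (ρ i).im|)| + |Real.log (2 * R)| + Real.pi := by
      refine norm_log_le (abs_pos.2 (sub_ne_zero.2 (hzγ i))) ?_ ?_
      · rw [← sub_im]
        exact abs_im_le_norm _
      · calc ‖z - ρ i‖ ≤ ‖z‖ + ‖ρ i‖ := norm_sub_le _ _
          _ ≤ 2 * R := by linarith [(hρ i).1]
    have e2 : ‖log (0 - ρ i)‖ ≤ |Real.log a| + |Real.log R'| + Real.pi := by
      refine norm_log_le ha0 ?_ ?_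
      · rw [zero_sub, norm_neg]
        have h5 := abs_re_le_norm (ρ i)
        have h6 := neg_abs_le (ρ i).re
        linarith [hρre i]
      · rw [zero_sub, norm_neg]
        exact (hρ i).1
    have e3 : ∀ w : ℂ, ‖w‖ ≤ r → ‖log ((R : ℂ) ^ 2 - (starRingEnd ℂ) (ρ i) * w)‖ ≤
        |Real.log (R ^ 2 - R' * r)| + |Real.log (R ^ 2 + R' * r)| + Real.pi := by
      intro w hw
      have h5 : ‖(starRingEnd ℂ) (ρ i) * w‖ ≤ R' * r := by
        rw [norm_mul, RCLike.norm_conj]
        exact mul_le_mul (hρ i).1 hw (norm_nonneg _) hR'0.le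
      have h6 : ‖(R : ℂ) ^ 2‖ = R ^ 2 := by
        rw [norm_pow, norm_real, Real.norm_eq_abs, abs_of_pos hR0]
      refine norm_log_le (by nlinarith) ?_ ?_
      · have h7 := norm_sub_norm_le ((R : ℂ) ^ 2) ((starRingEnd ℂ) (ρ i) * w)
        rw [h6] at h7
        linarith
      · refine (norm_sub_le _ _).trans ?_
        rw [h6]
        linarith
    have e4 := e3 z hzr
    have e5 := e3 0 (by simpa using hr0.le)
    have h8 : lam i z - lam i 0 = log (z - ρ i) - log ((R : ℂ) ^ 2 - (starRingEnd ℂ) (ρ i) * z) -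
        (log (0 - ρ i) - log ((R : ℂ) ^ 2 - (starRingEnd ℂ) (ρ i) * 0)) := rfl
    rw [h8]
    refine (norm_sub_le _ _).trans ?_
    have h9 := norm_sub_le (log (z - ρ i)) (log ((R : ℂ) ^ 2 - (starRingEnd ℂ) (ρ i) * z))
    have h10 := norm_sub_le (log (0 - ρ i)) (log ((R : ℂ) ^ 2 - (starRingEnd ℂ) (ρ i) * 0))
    rw [Real.log_abs] at e1
    unfold CC
    linarith
  have h4 : ‖∑ i, lam i z - ∑ i, lam i 0‖ ≤
      n * CC a r R' R + ∑ i, |Real.log (z.im - (ρ i).im)| := by
    rw [← Finset.sum_sub_distrib]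
    refine (norm_sum_le _ _).trans ?_
    refine (Finset.sum_le_sum fun i _ => h3 i).trans ?_
    rw [Finset.sum_add_distrib, Finset.sum_const, Finset.card_univ, Fintype.card_fin,
      nsmul_eq_mul]
  rw [h2]
  calc ‖l 0 + (∑ i, lam i z - ∑ i, lam i 0) + (ℓ z - ℓ 0)‖
      ≤ ‖l 0‖ + ‖∑ i, lam i z - ∑ i, lam i 0‖ + ‖ℓ z - ℓ 0‖ :=
        (norm_add_le _ _).trans (add_le_add_left (norm_add_le _ _) _)
    _ ≤ _ := by linarith [hℓb z hzr]

end LocL2

open LocL2 in
theorem local_L2 {η a : ℝ} (hη : 0 < η) (hη1 : η ≤ 1) (ha : 1 ≤ a) :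
    ∃ K : ℝ, 0 ≤ K ∧ ∀ (F L : ℂ → ℂ) (T M m : ℝ), 1 ≤ M → 0 ≤ m →
      (∀ s : ℂ, -η < s.re → DifferentiableAt ℂ F s) →
      (∀ s : ℂ, -η < s.re → ‖s - (a + T * I)‖ ≤ a + η → ‖F s‖ ≤ M) →
      (∀ s : ℂ, 0 < s.re → DifferentiableAt ℂ L s) →
      (∀ s : ℂ, 0 < s.re → exp (L s) = F s) →
      ‖L (a + T * I)‖ ≤ m →
      ∀ x : ℝ, 0 < x → x ≤ 1 →
        ∫⁻ t in Icc (T - η / 4) (T + η / 4), ‖L (x + t * I)‖ₑ ^ 2 ≤
          ENNReal.ofReal (K * (1 + m + Real.log M) ^ 2) := by
  set r : ℝ := a + η / 4 with hr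
  set R' : ℝ := a + η / 2 with hR'
  set R : ℝ := a + 3 * η / 4 with hR
  set R₁ : ℝ := a + η with hR₁
  have h1 : a < r := by linarith
  have h2 : r < R' := by linarith
  have h3 : R' < R := by linarith
  have h4 : R < R₁ := by linarith
  have hR0 : 0 < R := by linarith
  set c0 : ℝ := 1 / Real.log (R / R') with hc0
  have hlogpos : 0 < Real.log (R / R') := by
    apply Real.log_pos
    rw [lt_div_iff₀ (by linarith)]
    linarith
  have hc0pos : 0 < c0 := by positivity
  set P0 : ℝ := 1 + 2 * r / (R' - r) + c0 * CC a r R' R with hP0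
  have hP0pos : 0 ≤ P0 := by
    have h5 := CC_nonneg a r R' R
    have h6 : 0 ≤ 2 * r / (R' - r) := div_nonneg (by linarith) (by linarith)
    positivity
  refine ⟨η * P0 ^ 2 + 2 * c0 ^ 2 * JJ (2 * R), by
    have := JJ_nonneg (2 * R)
    positivity, ?_⟩
  intro F L T M m hM hm hF hFM hL hexp hLm x hx hx1
  set c : ℂ := a + T * I with hc
  have hcre : c.re = a := by simp [hc]
  have hcim : c.im = T := by simp [hc]
  have hlogM : 0 ≤ Real.log M := Real.log_nonneg hM
  set Λ : ℝ := 1 + m + Real.log M with hΛ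
  have hΛ1 : 1 ≤ Λ := by linarith
  obtain ⟨n, γ, hn, hγ, hb⟩ := disc (M := M) (m := m) (f := fun z => F (c + z))
    (l := fun z => L (c + z)) ha h1 h2 h3 h4 (by
      intro z hz
      have h5 : ‖z‖ < R₁ := mem_ball_zero_iff.1 hz
      have h6 : -η < (c + z).re := by
        rw [add_re, hcre]
        have h7 := (abs_le.1 (abs_re_le_norm z)).1
        linarith
      exact ((hF _ h6).comp z (by fun_prop)).differentiableWithinAt) (by
      intro z hz
      have h6 : -η < (c + z).re := by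
        rw [add_re, hcre]
        have h7 := (abs_le.1 (abs_re_le_norm z)).1
        linarith
      refine hFM _ h6 ?_
      rw [add_sub_cancel_left]
      linarith) (by
      intro z hz
      have h6 : 0 < (c + z).re := by
        rw [add_re, hcre]
        linarith
      exact (hL _ h6).comp z (by fun_prop)) (by
      intro z hz
      have h6 : 0 < (c + z).re := by
        rw [add_re, hcre]
        linarith
      exact hexp _ h6) (by simpa using hLm)
  -- the number of the zeros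
  have hn2 : (n : ℝ) ≤ c0 * Λ := by
    rw [hc0, one_div, inv_mul_eq_div, le_div_iff₀ hlogpos]
    linarith
  set P : ℝ := m + 2 * r / (R' - r) * (Real.log M + m + 1) + n * CC a r R' R with hP
  have hP1 : P ≤ P0 * Λ := by
    have h5 : (n : ℝ) * CC a r R' R ≤ c0 * Λ * CC a r R' R :=
      mul_le_mul_of_nonneg_right hn2 (CC_nonneg _ _ _ _)
    have h6 : m ≤ Λ := by linarith
    rw [hP, hP0]
    have h7 : 2 * r / (R' - r) * (Real.log M + m + 1) = 2 * r / (R' - r) * Λ := by
      rw [hΛ]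
      ring
    rw [h7]
    nlinarith
  have hPpos : 0 ≤ P := by
    have h5 := CC_nonneg a r R' R
    have h6 : 0 ≤ 2 * r / (R' - r) := div_nonneg (by linarith) (by linarith)
    positivity
  -- the pointwise bound
  have hpt : ∀ t ∈ Icc (T - η / 4) (T + η / 4), (∀ i, t ≠ T + γ i) →
      ‖L (x + t * I)‖ ^ 2 ≤ 2 * P ^ 2 + ∑ i, 2 * n * Real.log (t - (T + γ i)) ^ 2 := by
    intro t ht htγ
    set z : ℂ := (x - a : ℝ) + ((t - T : ℝ) : ℂ) * I with hz
    have hzre : z.re = x - a := by simp [hz]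
    have hzim : z.im = t - T := by simp [hz]
    have hcz : c + z = x + t * I := by
      rw [hc, hz]
      push_cast
      ring
    have h5 : ‖z‖ ≤ r := by
      have h6 : ‖z‖ ^ 2 ≤ r ^ 2 := by
        rw [← normSq_eq_norm_sq, normSq_apply, hzre, hzim]
        have h7 : |t - T| ≤ η / 4 := abs_le.2 ⟨by linarith [ht.1], by linarith [ht.2]⟩
        have h8 : (t - T) * (t - T) ≤ (η / 4) * (η / 4) := by
          rw [← abs_mul_abs_self (t - T)]
          exact mul_self_le_mul_self (abs_nonneg _) h7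
        have h9 : (x - a) * (x - a) ≤ a * a := by nlinarith
        rw [hr]
        nlinarith
      exact (pow_le_pow_iff_left₀ (norm_nonneg _) (by linarith) two_ne_zero).1 h6
    have h6 := hb z (by rw [hzre]; linarith) h5 (fun i hi => htγ i (by
      rw [hzim] at hi
      linarith))
    simp only [hcz] at h6
    have h7 : ‖L (x + t * I)‖ ≤ P + ∑ i, |Real.log (t - (T + γ i))| := by
      refine h6.trans (le_of_eq ?_)
      rw [hP]
      congr 1
      refine Finset.sum_congr rfl fun i _ => ?_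
      rw [hzim]
      congr 2
      ring
    have h8 : ‖L (x + t * I)‖ ^ 2 ≤ (P + ∑ i, |Real.log (t - (T + γ i))|) ^ 2 :=
      pow_le_pow_left₀ (norm_nonneg _) h7 2
    have h9 : (∑ i, |Real.log (t - (T + γ i))|) ^ 2 ≤
        n * ∑ i, Real.log (t - (T + γ i)) ^ 2 := by
      have h10 := sq_sum_le_card_mul_sum_sq (s := (Finset.univ : Finset (Fin n)))
        (f := fun i => |Real.log (t - (T + γ i))|)
      rw [Finset.card_univ, Fintype.card_fin] at h10
      simpa only [sq_abs] using h10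
    have h10 : ∑ i, 2 * (n : ℝ) * Real.log (t - (T + γ i)) ^ 2 =
        2 * (n * ∑ i, Real.log (t - (T + γ i)) ^ 2) := by
      rw [← Finset.mul_sum]
      ring
    rw [h10]
    nlinarith [sq_nonneg (P - ∑ i, |Real.log (t - (T + γ i))|)]
  -- integration
  have hae : ∀ᵐ t : ℝ ∂(volume.restrict (Icc (T - η / 4) (T + η / 4))),
      ‖L (x + t * I)‖ₑ ^ 2 ≤ ENNReal.ofReal (2 * P ^ 2) +
        ∑ i, ENNReal.ofReal (2 * n) * ENNReal.ofReal (Real.log (t - (T + γ i)) ^ 2) := by
    have h5 : (Set.range fun i => T + γ i)ᶜ ∈ ae (volume.restrict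
        (Icc (T - η / 4) (T + η / 4))) := by
      rw [mem_ae_iff, compl_compl]
      exact (Set.finite_range _).measure_zero _
    filter_upwards [h5, ae_restrict_mem measurableSet_Icc] with t ht1 ht2
    have h6 : ∀ i, t ≠ T + γ i := fun i hi => ht1 ⟨i, hi.symm⟩
    have h7 := hpt t ht2 h6
    have h8 : ‖L (x + t * I)‖ₑ ^ 2 = ENNReal.ofReal (‖L (x + t * I)‖ ^ 2) := by
      rw [← ofReal_norm, ENNReal.ofReal_pow (norm_nonneg _)]
    rw [h8]
    refine (ENNReal.ofReal_le_ofReal h7).trans ?_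
    rw [ENNReal.ofReal_add (by positivity) (Finset.sum_nonneg fun i _ => by positivity),
      ENNReal.ofReal_sum_of_nonneg (fun i _ => by positivity)]
    refine add_le_add le_rfl (Finset.sum_le_sum fun i _ => ?_)
    rw [ENNReal.ofReal_mul (by positivity)]
  refine (lintegral_mono_ae hae).trans ?_
  rw [lintegral_add_left measurable_const, lintegral_const, lintegral_finset_sum _ (fun i _ => by
    fun_prop)]
  have hvol : (volume.restrict (Icc (T - η / 4) (T + η / 4))) Set.univ =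
      ENNReal.ofReal (η / 2) := by
    rw [Measure.restrict_apply_univ, Real.volume_Icc]
    congr 1
    ring
  rw [hvol]
  have hterm : ∀ i, ∫⁻ t in Icc (T - η / 4) (T + η / 4),
      ENNReal.ofReal (2 * n) * ENNReal.ofReal (Real.log (t - (T + γ i)) ^ 2) ≤
        ENNReal.ofReal (2 * n) * ENNReal.ofReal (JJ (2 * R)) := by
    intro i
    rw [lintegral_const_mul _ (by fun_prop)]
    refine mul_le_mul_right ?_ _
    have h5 := abs_le.1 (hγ i)
    exact int_log (by linarith) (by linarith) (by linarith)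
  refine (add_le_add le_rfl (Finset.sum_le_sum fun i _ => hterm i)).trans ?_
  rw [Finset.sum_const, Finset.card_univ, Fintype.card_fin, nsmul_eq_mul,
    ← ENNReal.ofReal_natCast, ← ENNReal.ofReal_mul (by positivity),
    ← ENNReal.ofReal_mul (by positivity), ← ENNReal.ofReal_mul (by positivity),
    ← ENNReal.ofReal_add (by positivity) (by
      have := JJ_nonneg (2 * R)
      positivity)]
  refine ENNReal.ofReal_le_ofReal ?_
  have h5 := JJ_nonneg (2 * R)
  have h6 : P ^ 2 ≤ P0 ^ 2 * Λ ^ 2 := by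
    rw [← mul_pow]
    exact pow_le_pow_left₀ hPpos hP1 2
  have h7 : (n : ℝ) ^ 2 ≤ c0 ^ 2 * Λ ^ 2 := by
    rw [← mul_pow]
    exact pow_le_pow_left₀ (Nat.cast_nonneg _) hn2 2
  have h8 : (n : ℝ) ^ 2 * JJ (2 * R) ≤ c0 ^ 2 * Λ ^ 2 * JJ (2 * R) :=
    mul_le_mul_of_nonneg_right h7 h5
  have h9 : η * P ^ 2 ≤ η * (P0 ^ 2 * Λ ^ 2) := mul_le_mul_of_nonneg_left h6 hη.le
  nlinarith

end Pool.Agent.TH270.MS
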