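import Pool.Agent.H21.L.R_seed8.TH942.ES.NF
import Mathlib.NumberTheory.Padics.HeightOneSpectrum

/-!
# Systems of primes of `ℚ`
-/

set_option autoImplicit false

open MeasureTheory Filter Topology Set Complex NumberField IsDedekindDomain
open Pool.Agent.TH942.ES
open Pool.Agent.H921R2.TatePole (nm two_le_nm nm_summable)

namespace Pool.Agent.TH270.MS

theorem nm_rat (v : HeightOneSpectrum (𝓞 ℚ)) :
    nm v = (Rat.HeightOneSpectrum.primesEquiv v : ℕ) := by
  have h1 := Rat.HeightOneSpectrum.span_natGenerator v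
  have h2 : (Rat.HeightOneSpectrum.primesEquiv v : ℕ) = Rat.HeightOneSpectrum.natGenerator v := rfl
  rw [h2]
  unfold nm
  have e1 := Ideal.quotientEquiv v.asIdeal
    (Ideal.span {(Rat.HeightOneSpectrum.natGenerator v : ℤ)}) (Rat.IsIntegralClosure.intEquiv (𝓞 ℚ)) h1
  have e2 := Int.quotientSpanNatEquivZMod (Rat.HeightOneSpectrum.natGenerator v)
  rw [Ideal.absNorm_apply, Submodule.cardQuot_apply, Nat.card_congr e1.toEquiv,
    Nat.card_congr e2.toEquiv, Nat.card_zmod]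

/-- the prime ideal of a prime number -/
noncomputable def pid {P : ℕ → Prop} (hP : ∀ p, P p → p.Prime) (v : {p : ℕ // P p}) :
    HeightOneSpectrum (𝓞 ℚ) := (Rat.HeightOneSpectrum.primesEquiv (R := 𝓞 ℚ)).symm ⟨v.1, hP _ v.2⟩

theorem nm_pid {P : ℕ → Prop} (hP : ∀ p, P p → p.Prime) (v : {p : ℕ // P p}) :
    nm (pid hP v) = v.1 := by
  rw [nm_rat, pid, Equiv.apply_symm_apply]

theorem pid_inj {P : ℕ → Prop} (hP : ∀ p, P p → p.Prime) : Function.Injective (pid hP) := by
  intro v w h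
  have h1 := (Rat.HeightOneSpectrum.primesEquiv (R := 𝓞 ℚ)).symm.injective h
  exact Subtype.ext (congrArg (fun x : Nat.Primes => (x : ℕ)) h1)

/-- systems of prime numbers -/
theorem q_sys (P : ℕ → Prop) (hP : ∀ p, P p → p.Prime) {d : ℕ} (α : {p : ℕ // P p} → Fin d → ℂ)
    (hα : ∀ v i, ‖α v i‖ ≤ 1)
    (hr : ∀ v : {p : ℕ // P p}, (∑ i, log (1 - α v i / ((√((v.1 : ℕ) : ℝ) : ℝ) : ℂ))).im = 0) :
    Sys (fun v : {p : ℕ // P p} => v.1) α where
  cnt := inferInstance
  two_le := fun v => (hP _ v.2).two_le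
  sum := fun r hr => by
    have h1 := (nm_summable (K := ℚ) hr).comp_injective (pid_inj hP)
    refine h1.congr fun v => ?_
    simp only [Function.comp_apply, nm_pid]
  log_sum := by
    obtain ⟨C, σ₀, hσ₀, h⟩ := nf_log_sum ℚ
    refine ⟨C, σ₀, hσ₀, fun σ h1 h2 => ?_⟩
    obtain ⟨h3, h4⟩ := h σ h1 h2
    have h5 := h3.comp_injective (pid_inj hP)
    have e : ((fun v : HeightOneSpectrum (𝓞 ℚ) => Real.log (nm v) * (nm v : ℝ) ^ (-(1 + σ))) ∘
        pid hP) = fun v : {p : ℕ // P p} => Real.log (v.1 : ℕ) * ((v.1 : ℕ) : ℝ) ^ (-(1 + σ)) := by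
      funext v
      simp only [Function.comp_apply, nm_pid]
    have h6 : Summable (fun v : {p : ℕ // P p} =>
        Real.log (v.1 : ℕ) * ((v.1 : ℕ) : ℝ) ^ (-(1 + σ))) := by
      rw [← e]
      exact h5
    refine ⟨h6, le_trans (mul_le_mul_of_nonneg_left ?_ h1.le) h4⟩
    rw [← e]
    exact tsum_comp_le_tsum_of_inj h3 (fun v => by
        have hp2 : (2 : ℝ) ≤ nm v := by exact_mod_cast two_le_nm v
        have := Real.log_nonneg (show (1 : ℝ) ≤ nm v by linarith)
        positivity) (pid_inj hP)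
  le := hα
  real := hr

end Pool.Agent.TH270.MS
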