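import Pool.Agent.H21.L.R_seed8.TH270.MS.Sys

/-!
# Real exponents, and logarithmic means
-/

set_option autoImplicit false

open MeasureTheory Filter Topology Set Complex
open scoped ENNReal
open Pool.Agent.TH942.LS (Dat)
open Pool.Agent.TH942.SL
open Pool.Agent.TH942.ES
open Pool.Agent.TH270.RS (cS' dat' DD_neg)

namespace Pool.Agent.TH270.MS

variable {X : Type} {d : ℕ} {N : X → ℕ} {α : X → Fin d → ℂ} {Ψ G₀ g : ℂ → ℂ} {e : X × ℕ → ℕ}
  {m k κ : ℕ} {η C : ℝ}

/-- the deviation, for a real exponent -/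
noncomputable def DvR (N : X → ℕ) (α : X → Fin d → ℂ) (ρ A : ℝ) (Y : ℝ) : ℝ :=
  Pl N α Y + ρ * (Real.eulerMascheroniConstant + Real.log (Real.log Y)) - Real.log A

theorem dvR_eq (r : ℤ) (A Y : ℝ) : DvR N α (r : ℝ) A Y = Dv N α r A Y := rfl

theorem dvR_sh (E : Sys N α) (he : Function.Injective e) (ρ A : ℝ) {Y : ℝ} (h0 : 0 < Y) :
    DvR N α ρ A Y = -(Sh (lamS N e) (cS' N α e) (Real.log Y) - ρ * Real.log (Real.log Y) -
      (ρ * Real.eulerMascheroniConstant - Real.log A)) := by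
  rw [sh_eq E he, Real.exp_log h0]
  unfold DvR
  ring

theorem dvR_sq (E : Sys N α) (he : Function.Injective e) (ρ : ℝ) (A : ℝ) :
    IntegrableOn (fun Y : ℝ => DvR N α ρ A Y ^ 2 / Y) (Ioi (Real.exp 1)) ↔
      IntegrableOn (fun T : ℝ => (Sh (lamS N e) (cS' N α e) T - ρ * Real.log T -
        (ρ * Real.eulerMascheroniConstant - Real.log A)) ^ 2) (Ioi 1) := by
  rw [← cov_int]
  refine integrableOn_congr_fun (fun Y hY => ?_) measurableSet_Ioi
  have h0 : 0 < Y := (Real.exp_pos 1).trans hY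
  rw [dvR_sh E he ρ A h0, neg_sq]

theorem dvR_abs (E : Sys N α) (he : Function.Injective e) (ρ : ℝ) (A : ℝ) {T : ℝ} (hT : 1 ≤ T) :
    ∫ Y in Real.exp 1..Real.exp T, |DvR N α ρ A Y| / Y =
      ∫ t in (1 : ℝ)..T, |Sh (lamS N e) (cS' N α e) t - ρ * Real.log t -
        (ρ * Real.eulerMascheroniConstant - Real.log A)| := by
  rw [← cov_ii _ hT]
  refine intervalIntegral.integral_congr fun Y hY => ?_
  rw [uIcc_of_le (Real.exp_le_exp.2 hT)] at hY
  have h0 : 0 < Y := (Real.exp_pos 1).trans_le hY.1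
  rw [dvR_sh E he ρ A h0, abs_neg]

/-- **The mean square criterion for the order and the leading coefficient**, real exponents. -/
theorem Mc.tfae_lead_real (H : Mc N α Ψ G₀ 0 κ η C) (ρ : ℝ) {A : ℝ} (hA : 0 < A) : List.TFAE [
    (∀ s : ℂ, 0 < s.re → Ψ s ≠ 0) ∧ ∃ m : ℕ, ρ = m ∧
      Tendsto (fun s => Ψ s / s ^ m) (𝓝[≠] 0) (𝓝 (A : ℂ)),
    IntegrableOn (fun Y : ℝ => DvR N α ρ A Y ^ 2 / Y) (Ioi (Real.exp 1)),
    Tendsto (fun Y : ℝ => (∫ y in Real.exp 1..Y, |DvR N α ρ A y| / y) / Real.log Y) atTop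
      (𝓝 0)] := by
  obtain ⟨e, g, p, he, Q⟩ := H.cn
  have t := Q.tfae ρ (ρ * Real.eulerMascheroniConstant - Real.log A)
  have key : ∀ m : ℕ, ρ = m → (((∀ s : ℂ, 0 < s.re → Ψ s ≠ 0) ∧
      Tendsto (fun s => Ψ s / s ^ m) (𝓝[≠] 0) (𝓝 (A : ℂ))) ↔
      IntegrableOn (fun Y : ℝ => DvR N α ρ A Y ^ 2 / Y) (Ioi (Real.exp 1))) := by
    intro m hm
    have h1 : ((∀ s : ℂ, 0 < s.re → Ψ s ≠ 0) ∧
        Tendsto (fun s => Ψ s / s ^ (m : ℤ)) (𝓝[≠] 0) (𝓝 (A : ℂ))) ↔
        IntegrableOn (fun Y : ℝ => Dv N α (m : ℤ) A Y ^ 2 / Y) (Ioi (Real.exp 1)) :=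
      (H.tfae_lead (m : ℤ) hA).out 0 1
    simp only [zpow_natCast] at h1
    rw [h1, hm]
    rfl
  tfae_have 1 → 2 := by
    rintro ⟨h1, m, hm, h2⟩
    exact (key m hm).1 ⟨h1, h2⟩
  tfae_have 2 → 1 := by
    intro h
    have h2 := (dvR_sq H.E he ρ A).1 h
    obtain ⟨h3, h4, -⟩ := (t.out 0 1).2 h2
    have h5 : ρ = (p : ℝ) := by
      rw [h4]
      push_cast
      ring
    obtain ⟨h6, h7⟩ := (key p h5).2 h
    exact ⟨h6, p, h5, h7⟩
  tfae_have 2 ↔ 3 := by
    rw [tendsto_exp_iff (f := fun Y => (∫ y in Real.exp 1..Y, |DvR N α ρ A y| / y) / Real.log Y),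
      dvR_sq H.E he]
    have h0 : (fun T : ℝ => (∫ y in Real.exp 1..Real.exp T, |DvR N α ρ A y| / y) /
        Real.log (Real.exp T)) =ᶠ[atTop] fun T : ℝ => (∫ u in (1 : ℝ)..T,
          |Sh (lamS N e) (cS' N α e) u - ρ * Real.log u -
            (ρ * Real.eulerMascheroniConstant - Real.log A)|) / T := by
      filter_upwards [eventually_ge_atTop 1] with T hT
      rw [Real.log_exp, dvR_abs H.E he ρ A hT]
    rw [tendsto_congr' h0]
    exact t.out 1 2
  tfae_finish

/-- **The criterion for the order**, real exponents -/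
theorem Mc.tfae_order_real (H : Mc N α Ψ G₀ 0 κ η C) (ρ : ℝ) : List.TFAE [
    (∀ s : ℂ, 0 < s.re → Ψ s ≠ 0) ∧ ∃ m : ℕ, ρ = m ∧ meromorphicOrderAt Ψ 0 = (m : ℤ),
    ∃ A : ℝ, 0 < A ∧ IntegrableOn (fun Y : ℝ => DvR N α ρ A Y ^ 2 / Y) (Ioi (Real.exp 1)),
    ∃ B : ℝ, ∀ᶠ Y : ℝ in atTop,
      ∫ y in Real.exp 1..Y, |Pl N α y + ρ * Real.log (Real.log y)| / y ≤ B * Real.log Y] := by
  obtain ⟨e, g, p, he, Q⟩ := H.cn
  have hord := (mero_of Q.hg Q.hg0 (local_form H.hη H.hΨ Q.near)).2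
  have t := Q.tfae' ρ
  rw [H.zf] at t
  have e1 : (p : ℝ) = (0 : ℕ) + ρ ↔ ∃ m : ℕ, ρ = m ∧ meromorphicOrderAt Ψ 0 = (m : ℤ) := by
    rw [hord]
    constructor
    · intro h
      refine ⟨p, ?_, ?_⟩
      · rw [h]
        push_cast
        ring
      · push_cast
        simp
    · rintro ⟨m, h1, h2⟩
      have h3 : ((p : ℤ) - ((0 : ℕ) : ℤ)) = m := by exact_mod_cast h2
      have h4 : (p : ℤ) = m := by
        rw [← h3]
        push_cast
        ring
      have h5 : p = m := by exact_mod_cast h4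
      rw [h1, h5]
      push_cast
      ring
  rw [e1] at t
  tfae_have 1 → 2 := by
    intro h
    obtain ⟨q, hq⟩ : ∃ q : ℝ, IntegrableOn (fun T : ℝ => (Sh (lamS N e) (cS' N α e) T -
      ρ * Real.log T - q) ^ 2) (Ioi 1) := (t.out 0 1).1 h
    refine ⟨Real.exp (ρ * Real.eulerMascheroniConstant - q), Real.exp_pos _, ?_⟩
    rw [dvR_sq H.E he, Real.log_exp, sub_sub_cancel]
    exact hq
  tfae_have 2 → 1 := by
    rintro ⟨A, -, hA⟩
    rw [dvR_sq H.E he] at hA
    have h2 : ∃ q : ℝ, IntegrableOn (fun T : ℝ => (Sh (lamS N e) (cS' N α e) T -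
      ρ * Real.log T - q) ^ 2) (Ioi 1) := ⟨_, hA⟩
    exact (t.out 0 1).2 h2
  tfae_have 1 ↔ 3 := by
    have t2 : ((∀ s : ℂ, 0 < s.re → Ψ s ≠ 0) ∧ ∃ m : ℕ, ρ = m ∧
        meromorphicOrderAt Ψ 0 = (m : ℤ)) ↔
        ∃ B : ℝ, ∀ᶠ T : ℝ in atTop, ∫ u in (1 : ℝ)..T,
          |Sh (lamS N e) (cS' N α e) u - ρ * Real.log u| ≤ B * T := t.out 0 2
    rw [t2]
    refine exists_congr fun B => ?_
    rw [eventually_exp_iff (f := fun Y => ∫ y in Real.exp 1..Y,
      |Pl N α y + ρ * Real.log (Real.log y)| / y ≤ B * Real.log Y)]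
    refine eventually_congr ?_
    filter_upwards [eventually_ge_atTop 1] with T hT
    rw [Real.log_exp, ← cov_ii _ hT]
    have : ∫ X in Real.exp 1..Real.exp T, |Sh (lamS N e) (cS' N α e) (Real.log X) -
        ρ * Real.log (Real.log X)| / X =
        ∫ y in Real.exp 1..Real.exp T, |Pl N α y + ρ * Real.log (Real.log y)| / y := by
      refine intervalIntegral.integral_congr fun Y hY => ?_
      rw [uIcc_of_le (Real.exp_le_exp.2 hT)] at hY
      have h0 : 0 < Y := (Real.exp_pos 1).trans_le hY.1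
      rw [sh_eq H.E he, Real.exp_log h0, ← abs_neg]
      congr 2
      ring
    rw [this]
  tfae_finish

/-- `Pl` is measurable on the half line -/
theorem pl_meas (H : Mc N α Ψ G₀ k κ η C) : AEStronglyMeasurable (Pl N α)
    (volume.restrict (Ioi (Real.exp 1))) := by
  obtain ⟨e, g, p, he, Q⟩ := H.cn
  have h1 : Measurable fun Y : ℝ => -Sh (lamS N e) (cS' N α e) (Real.log Y) :=
    ((sh_meas Q.D).comp Real.measurable_log).neg
  refine (h1.aestronglyMeasurable (μ := volume.restrict (Ioi (Real.exp 1)))).congr ?_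
  filter_upwards [ae_restrict_mem measurableSet_Ioi] with Y hY
  have h0 : 0 < Y := (Real.exp_pos 1).trans hY
  rw [sh_eq H.E he, Real.exp_log h0, neg_neg]

/-! ### logarithmic means -/

/-- `(1 / log X) ∫_e^X f(y) dy / y` -/
noncomputable def lmean (f : ℝ → ℝ) (Y : ℝ) : ℝ := (∫ y in Real.exp 1..Y, f y / y) / Real.log Y

/-- locally integrable functions on `[e, ∞)` -/
def LI (f : ℝ → ℝ) : Prop := ∀ Y : ℝ, Real.exp 1 ≤ Y → IntervalIntegrable f volume (Real.exp 1) Y

theorem LI.div {f : ℝ → ℝ} (h : LI f) : LI fun y => f y / y := by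
  intro Y hY
  have h1 : (fun y => f y / y) = fun y => y⁻¹ * f y := by
    funext y
    ring
  rw [h1]
  refine (h Y hY).continuousOn_mul ?_
  rw [uIcc_of_le hY]
  exact continuousOn_inv₀.mono fun y hy => ((Real.exp_pos 1).trans_le hy.1).ne'

theorem LI.add {f g : ℝ → ℝ} (hf : LI f) (hg : LI g) : LI fun y => f y + g y :=
  fun Y hY => (hf Y hY).add (hg Y hY)

theorem LI.abs {f : ℝ → ℝ} (hf : LI f) : LI fun y => |f y| := fun Y hY => (hf Y hY).abs

theorem int_inv {Y : ℝ} (hY : Real.exp 1 ≤ Y) : ∫ y in Real.exp 1..Y, (1 : ℝ) / y =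
    Real.log Y - 1 := by
  have h0 := Real.exp_pos 1
  rw [integral_one_div_of_pos h0 (h0.trans_le hY), Real.log_div (h0.trans_le hY).ne' h0.ne',
    Real.log_exp]

/-- the logarithmic mean of a function with limit zero -/
theorem lmean_zero {f : ℝ → ℝ} (hf : LI f) (h : Tendsto f atTop (𝓝 0)) :
    Tendsto (lmean fun y => |f y|) atTop (𝓝 0) := by
  rw [Metric.tendsto_atTop]
  intro ε hε
  obtain ⟨Y₁, hY₁⟩ := (Metric.tendsto_atTop.1 h) (ε / 2) (by positivity)
  set Y₀ := max Y₁ (Real.exp 1) with hY₀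
  have hY₀e : Real.exp 1 ≤ Y₀ := le_max_right _ _
  set K : ℝ := ∫ y in Real.exp 1..Y₀, |f y| / y with hK
  have h1 : ∀ᶠ Y : ℝ in atTop, |K| < ε / 2 * Real.log Y := by
    have h2 : Tendsto (fun Y => ε / 2 * Real.log Y) atTop atTop :=
      Real.tendsto_log_atTop.const_mul_atTop (by positivity)
    exact h2.eventually_gt_atTop |K|
  obtain ⟨Y₂, hY₂⟩ := (h1.and (eventually_ge_atTop Y₀)).exists_forall_of_atTop
  refine ⟨Y₂, fun Y hY => ?_⟩
  obtain ⟨h3, h4⟩ := hY₂ Y hY
  have hYe : Real.exp 1 ≤ Y := hY₀e.trans h4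
  have hY0 : 0 < Y := (Real.exp_pos 1).trans_le hYe
  have hlog : 1 ≤ Real.log Y := by
    rw [← Real.log_exp 1]
    exact Real.log_le_log (Real.exp_pos 1) hYe
  have hi := hf.abs.div
  have h5 : IntervalIntegrable (fun y => |f y| / y) volume Y₀ Y :=
    (hi Y₀ hY₀e).symm.trans (hi Y hYe)
  have h6 : ∫ y in Real.exp 1..Y, |f y| / y = K + ∫ y in Y₀..Y, |f y| / y :=
    (intervalIntegral.integral_add_adjacent_intervals (hi Y₀ hY₀e) h5).symm
  have hic : IntervalIntegrable (fun y : ℝ => ε / 2 * (1 / y)) volume Y₀ Y := by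
    refine ContinuousOn.intervalIntegrable ?_
    rw [uIcc_of_le h4]
    refine continuousOn_const.mul (continuousOn_const.div continuousOn_id fun y hy => ?_)
    exact ((Real.exp_pos 1).trans_le (hY₀e.trans hy.1)).ne'
  have h7 : ∫ y in Y₀..Y, |f y| / y ≤ ε / 2 * (Real.log Y - 1) := by
    have h8 : ∫ y in Y₀..Y, |f y| / y ≤ ∫ y in Y₀..Y, ε / 2 * (1 / y) := by
      refine intervalIntegral.integral_mono_on h4 h5 hic fun y hy => ?_
      have hy0 : 0 < y := (Real.exp_pos 1).trans_le (hY₀e.trans hy.1)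
      have h9 := hY₁ y ((le_max_left _ _).trans hy.1)
      rw [Real.dist_eq, sub_zero] at h9
      rw [mul_one_div]
      gcongr
    have h10 : ∫ y in Y₀..Y, (1 : ℝ) / y ≤ Real.log Y - 1 := by
      rw [integral_one_div_of_pos ((Real.exp_pos 1).trans_le hY₀e) hY0, Real.log_div hY0.ne'
        ((Real.exp_pos 1).trans_le hY₀e).ne']
      have : 1 ≤ Real.log Y₀ := by
        rw [← Real.log_exp 1]
        exact Real.log_le_log (Real.exp_pos 1) hY₀e
      linarith
    rw [intervalIntegral.integral_const_mul] at h8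
    exact h8.trans (mul_le_mul_of_nonneg_left h10 (by positivity))
  have h8 : 0 ≤ ∫ y in Real.exp 1..Y, |f y| / y := by
    refine intervalIntegral.integral_nonneg hYe fun y hy => ?_
    have hy0 : 0 < y := (Real.exp_pos 1).trans_le hy.1
    positivity
  rw [Real.dist_eq, sub_zero, lmean, abs_div, abs_of_nonneg h8, abs_of_pos (by linarith),
    div_lt_iff₀ (by linarith), h6]
  have h9 := le_abs_self K
  nlinarith

/-- functions with difference tending to zero have the same mean absolute value -/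
theorem lmean_iff {f g : ℝ → ℝ} (hf : LI f) (hg : LI g)
    (h : Tendsto (fun y => f y - g y) atTop (𝓝 0)) :
    Tendsto (lmean fun y => |f y|) atTop (𝓝 0) ↔ Tendsto (lmean fun y => |g y|) atTop (𝓝 0) := by
  have key : ∀ f g : ℝ → ℝ, LI f → LI g → Tendsto (fun y => f y - g y) atTop (𝓝 0) →
      Tendsto (lmean fun y => |g y|) atTop (𝓝 0) → Tendsto (lmean fun y => |f y|) atTop (𝓝 0) := by
    intro f g hf hg h h1
    have hd : LI fun y => f y - g y := fun Y hY => (hf Y hY).sub (hg Y hY)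
    have h2 := (lmean_zero hd h).add h1
    rw [add_zero] at h2
    refine squeeze_zero' ?_ ?_ h2
    · filter_upwards [eventually_ge_atTop (Real.exp 1)] with Y hY
      have hlog : 1 ≤ Real.log Y := by
        rw [← Real.log_exp 1]
        exact Real.log_le_log (Real.exp_pos 1) hY
      refine div_nonneg ?_ (by linarith)
      refine intervalIntegral.integral_nonneg hY fun y hy => ?_
      have hy0 : 0 < y := (Real.exp_pos 1).trans_le hy.1
      positivity
    · filter_upwards [eventually_ge_atTop (Real.exp 1)] with Y hY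
      have hlog : 1 ≤ Real.log Y := by
        rw [← Real.log_exp 1]
        exact Real.log_le_log (Real.exp_pos 1) hY
      unfold lmean
      rw [← add_div, ← intervalIntegral.integral_add (hd.abs.div Y hY) (hg.abs.div Y hY)]
      refine div_le_div_of_nonneg_right ?_ (by linarith)
      refine intervalIntegral.integral_mono_on hY (hf.abs.div Y hY)
        ((hd.abs.div Y hY).add (hg.abs.div Y hY)) fun y hy => ?_
      have hy0 : 0 < y := (Real.exp_pos 1).trans_le hy.1
      rw [← add_div]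
      refine div_le_div_of_nonneg_right ?_ hy0.le
      have := abs_add_le (f y - g y) (g y)
      rwa [sub_add_cancel] at this
  refine ⟨fun h1 => key g f hg hf ?_ h1, fun h1 => key f g hf hg h h1⟩
  have := h.neg
  rw [neg_zero] at this
  refine this.congr fun y => ?_
  ring

theorem one_le_log {Y : ℝ} (hY : Real.exp 1 ≤ Y) : 1 ≤ Real.log Y := by
  rw [← Real.log_exp 1]
  exact Real.log_le_log (Real.exp_pos 1) hY

theorem LI.const (c : ℝ) : LI fun _ => c := fun _ _ => intervalIntegrable_const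

/-- mean squares and means -/
theorem lmean_of_sq {f : ℝ → ℝ} (hf : LI f) (hf2 : LI fun y => f y ^ 2)
    (h : Tendsto (lmean fun y => f y ^ 2) atTop (𝓝 0)) : Tendsto (lmean fun y => |f y|) atTop (𝓝 0) := by
  rw [Metric.tendsto_atTop] at h ⊢
  intro ε hε
  obtain ⟨Y₀, hY₀⟩ := h (ε ^ 2) (by positivity)
  refine ⟨max Y₀ (Real.exp 1), fun Y hY => ?_⟩
  have hYe : Real.exp 1 ≤ Y := (le_max_right _ _).trans hY
  have h1 := hY₀ Y ((le_max_left _ _).trans hY)
  have hlog := one_le_log hYe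
  have h8 : 0 ≤ ∫ y in Real.exp 1..Y, |f y| / y := by
    refine intervalIntegral.integral_nonneg hYe fun y hy => ?_
    have hy0 : 0 < y := (Real.exp_pos 1).trans_le hy.1
    positivity
  have h9 : ∫ y in Real.exp 1..Y, |f y| / y ≤
      ∫ y in Real.exp 1..Y, (ε / 2 * ((fun _ => (1 : ℝ)) y / y) + 1 / (2 * ε) * (f y ^ 2 / y)) := by
    refine intervalIntegral.integral_mono_on hYe (hf.abs.div Y hYe)
      ((((LI.const 1).div Y hYe).const_mul _).add ((hf2.div Y hYe).const_mul _)) fun y hy => ?_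
    have hy0 : 0 < y := (Real.exp_pos 1).trans_le hy.1
    have h10 : |f y| ≤ ε / 2 + 1 / (2 * ε) * f y ^ 2 := by
      have h11 := sq_nonneg (|f y| - ε)
      rw [sub_sq, sq_abs] at h11
      have h12 : ε / 2 + 1 / (2 * ε) * f y ^ 2 = (ε ^ 2 + f y ^ 2) / (2 * ε) := by
        field_simp
      rw [h12, le_div_iff₀ (by positivity)]
      linarith
    calc |f y| / y ≤ (ε / 2 + 1 / (2 * ε) * f y ^ 2) / y := by gcongr
      _ = _ := by ring
  rw [intervalIntegral.integral_add (((LI.const 1).div Y hYe).const_mul _)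
    ((hf2.div Y hYe).const_mul _), intervalIntegral.integral_const_mul,
    intervalIntegral.integral_const_mul, int_inv hYe] at h9
  rw [Real.dist_eq, sub_zero, lmean] at h1 ⊢
  have h13 := (abs_lt.1 h1).2
  rw [div_lt_iff₀ (by linarith)] at h13
  rw [abs_div, abs_of_nonneg h8, abs_of_pos (by linarith), div_lt_iff₀ (by linarith)]
  have h14 : 1 / (2 * ε) * ∫ y in Real.exp 1..Y, f y ^ 2 / y < 1 / (2 * ε) * (ε ^ 2 * Real.log Y) := by
    gcongr
  have h15 : 1 / (2 * ε) * (ε ^ 2 * Real.log Y) = ε / 2 * Real.log Y := by field_simp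
  rw [h15] at h14
  nlinarith

/-- mean squares from square integrability, up to functions with limit zero -/
theorem sq_lmean {f g : ℝ → ℝ} (hf2 : LI fun y => f y ^ 2)
    (hg : IntegrableOn (fun y => g y ^ 2 / y) (Ioi (Real.exp 1)))
    (hd : LI fun y => (f y - g y) ^ 2)
    (h : Tendsto (fun y => f y - g y) atTop (𝓝 0)) :
    Tendsto (lmean fun y => f y ^ 2) atTop (𝓝 0) := by
  have h1 : Tendsto (fun y => (f y - g y) ^ 2) atTop (𝓝 0) := by
    have := h.pow 2
    rwa [zero_pow two_ne_zero] at this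
  have h2 := lmean_zero hd h1
  have h3 : Tendsto (fun Y : ℝ => 2 * (∫ y in Ioi (Real.exp 1), g y ^ 2 / y) / Real.log Y +
      2 * lmean (fun y => |(f y - g y) ^ 2|) Y) atTop (𝓝 0) := by
    have h4 := (tendsto_const_nhds (x := 2 * (∫ y in Ioi (Real.exp 1), g y ^ 2 / y))).div_atTop
      Real.tendsto_log_atTop
    have h5 := h4.add (h2.const_mul 2)
    rwa [mul_zero, add_zero] at h5
  refine squeeze_zero' ?_ ?_ h3
  · filter_upwards [eventually_ge_atTop (Real.exp 1)] with Y hY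
    refine div_nonneg ?_ (by linarith [one_le_log hY])
    refine intervalIntegral.integral_nonneg hY fun y hy => ?_
    have hy0 : 0 < y := (Real.exp_pos 1).trans_le hy.1
    positivity
  · filter_upwards [eventually_ge_atTop (Real.exp 1)] with Y hY
    have hlog := one_le_log hY
    have hgi : IntervalIntegrable (fun y => g y ^ 2 / y) volume (Real.exp 1) Y := by
      rw [intervalIntegrable_iff_integrableOn_Ioc_of_le hY]
      exact hg.mono_set Ioc_subset_Ioi_self
    have h4 : ∫ y in Real.exp 1..Y, g y ^ 2 / y ≤ ∫ y in Ioi (Real.exp 1), g y ^ 2 / y := by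
      rw [intervalIntegral.integral_of_le hY]
      refine setIntegral_mono_set hg ?_ (Ioc_subset_Ioi_self.eventuallyLE)
      filter_upwards [ae_restrict_mem measurableSet_Ioi] with y hy
      have hy0 : 0 < y := (Real.exp_pos 1).trans hy
      show 0 ≤ g y ^ 2 / y
      positivity
    have h5 : ∫ y in Real.exp 1..Y, f y ^ 2 / y ≤
        ∫ y in Real.exp 1..Y, (2 * (g y ^ 2 / y) + 2 * (|(f y - g y) ^ 2| / y)) := by
      refine intervalIntegral.integral_mono_on hY (hf2.div Y hY)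
        ((hgi.const_mul 2).add ((hd.abs.div Y hY).const_mul 2)) fun y hy => ?_
      have hy0 : 0 < y := (Real.exp_pos 1).trans_le hy.1
      have h6 : f y ^ 2 ≤ 2 * g y ^ 2 + 2 * |(f y - g y) ^ 2| := by
        rw [abs_of_nonneg (sq_nonneg _)]
        nlinarith [sq_nonneg (f y - 2 * g y)]
      calc f y ^ 2 / y ≤ (2 * g y ^ 2 + 2 * |(f y - g y) ^ 2|) / y := by gcongr
        _ = _ := by ring
    rw [intervalIntegral.integral_add (hgi.const_mul 2) ((hd.abs.div Y hY).const_mul 2),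
      intervalIntegral.integral_const_mul, intervalIntegral.integral_const_mul] at h5
    unfold lmean
    rw [mul_div_assoc', ← add_div]
    refine div_le_div_of_nonneg_right ?_ (by linarith)
    linarith

end Pool.Agent.TH270.MS
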